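import Pool.Agent.Helper8.ArtinAllD
import Pool.Agent.Helper6.Scales

set_option autoImplicit false

/-!
# ARU module SCA: reduction to scales

`Helper6.scale_reduction` (with `δ = CA`, `CA_bounds`) gives `lam`, `ε'`, `j₁`, see the proof of
`Pool.Agent.ARX.all_scales`.  Given `lo ≥ L₀ = lam ^ (j₁ + 1)` and a natural number `x` with
`lo ≤ x ≤ hi`, take `j₀ = ⌊log lo / log lam⌋`, `J = ⌊log hi / log lam⌋`: `lam^j₀ ≤ lo < lam^(j₀+1)`,
`lam^J ≤ hi < lam^(J+1)`.  If no scale `j ∈ [j₀, J+1]` was bad, `x` would not be bad.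
`artinP (a m)` is monotone and nonnegative (`artinP_mono`, `artinP_nonneg`).
-/

namespace Pool.Agent.ARU

open Pool.Agent.Helper8.ArtinLS Pool.Agent.Helper8.ArtinC Pool.Agent.Helper6

theorem scale_cover (ε : ℝ) (hε : 0 < ε) :
    ∃ lam : ℝ, 1 < lam ∧ ∃ ε' : ℝ, 0 < ε' ∧ ∃ L₀ : ℝ, 1 ≤ L₀ ∧ ∀ n : ℤ, ∀ lo hi : ℝ, L₀ ≤ lo →
      ∀ x : ℕ, lo ≤ x → (x : ℝ) ≤ hi → ε < |artinP n x / Nat.primeCounting x - CA| →
      ∃ j : ℕ, lo / lam ≤ lam ^ j ∧ lam ^ j ≤ lam * hi ∧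
        ε' < |artinP n (scl lam j) / Nat.primeCounting (scl lam j) - CA| := by
  obtain ⟨lam, hlam, ε', hε', j₁, hred⟩ := scale_reduction CA CA_bounds.1
    (CA_bounds.2.trans (by norm_num)) ε hε
  refine ⟨lam, hlam, ε', hε', lam ^ (j₁ + 1), one_le_pow₀ hlam.le, ?_⟩
  intro n lo hi hlo x hx1 hx2 hbad
  have hlam0 : 0 < lam := by linarith
  have h1 : (1 : ℝ) ≤ lam ^ (j₁ + 1) := one_le_pow₀ hlam.le
  obtain ⟨j₀, hj1, hj2⟩ := exists_nat_pow_near (h1.trans hlo) hlam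
  obtain ⟨J, hJ1, hJ2⟩ := exists_nat_pow_near (h1.trans (hlo.trans (hx1.trans hx2))) hlam
  have hj₀ : j₁ ≤ j₀ := by
    by_contra hcon
    push Not at hcon
    have h2 : lam ^ (j₀ + 1) ≤ lam ^ (j₁ + 1) := pow_le_pow_right₀ hlam.le (by omega)
    linarith
  by_contra hcon
  push Not at hcon
  have h3 := hred j₀ hj₀ (artinP n) (artinP_mono n) (fun z => artinP_nonneg n z) J (by
    intro j hj hj'
    apply hcon j
    · rw [div_le_iff₀ hlam0]
      calc lo ≤ lam ^ (j₀ + 1) := hj2.le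
        _ = lam ^ j₀ * lam := pow_succ _ _
        _ ≤ lam ^ j * lam := by
          apply mul_le_mul_of_nonneg_right _ hlam0.le
          exact pow_le_pow_right₀ hlam.le hj
    · calc lam ^ j ≤ lam ^ (J + 1) := pow_le_pow_right₀ hlam.le hj'
        _ = lam * lam ^ J := pow_succ' _ _
        _ ≤ lam * hi := mul_le_mul_of_nonneg_left hJ1 hlam0.le) x (hj1.trans hx1)
    (lt_of_le_of_lt hx2 hJ2)
  linarith

end Pool.Agent.ARU
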