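import Pool.Agent.ARU.Rg2
import Pool.Agent.ARU.Sca

set_option autoImplicit false

/-!
# ARU module CN2: regime II, all scales
-/

namespace Pool.Agent.ARU

open Filter Topology Pool.Agent.Helper8.ArtinLS Pool.Agent.Helper8.ArtinC Pool.Agent.Helper6

/-- from the normalised to the unnormalised deviation -/
lemma unnormalise {n : ℤ} {x : ℕ} {ε' : ℝ} (hpi : (0 : ℝ) < Nat.primeCounting x)
    (h1 : ε' < |artinP n x / Nat.primeCounting x - CA|)
    (h2 : |artinEC x / Nat.primeCounting x - CA| ≤ ε' / 2) :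
    ε' / 2 * Nat.primeCounting x < |artinP n x - artinEC x| := by
  have h3 : |artinP n x / Nat.primeCounting x - CA| ≤
      |artinP n x / Nat.primeCounting x - artinEC x / Nat.primeCounting x| +
      |artinEC x / Nat.primeCounting x - CA| := abs_sub_le _ _ _
  have h4 : ε' / 2 < |artinP n x / Nat.primeCounting x - artinEC x / Nat.primeCounting x| := by
    linarith
  rw [← sub_div, abs_div, abs_of_pos hpi, lt_div_iff₀ hpi] at h4
  exact h4

lemma main_close (ε' : ℝ) (hε : 0 < ε') :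
    ∀ᶠ x : ℕ in atTop, |artinEC x / Nat.primeCounting x - CA| ≤ ε' := by
  have := (main_CA.sub_const CA).abs
  simp only [sub_self, abs_zero] at this
  filter_upwards [this.eventually (gt_mem_nhds hε)] with x hx
  exact hx.le

/-- the sum over the scales -/
lemma scale_sum (lam κ : ℝ) (hlam : 1 < lam) (hκ : 0 < κ) :
    ∃ K : ℝ, 0 < K ∧ ∀ S : Finset ℕ, ∀ u : ℝ, (∀ j ∈ S, u ≤ (lam ^ j / 2) ^ κ) →
      ∑ j ∈ S, Real.exp (-((lam ^ j / 2) ^ κ)) ≤ K * Real.exp (-(u / 2)) := by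
  have hlam0 : 0 < lam := by linarith
  set ρ : ℝ := lam ^ (-κ) with hρ
  have hρ0 : 0 < ρ := Real.rpow_pos_of_pos hlam0 _
  have hρ1 : ρ < 1 := Real.rpow_lt_one_of_one_lt_of_neg hlam (by linarith)
  refine ⟨2 * 2 ^ κ * (1 - ρ)⁻¹, by have : 0 < 1 - ρ := by linarith
                                    positivity, ?_⟩
  intro S u hu
  have h1 : ∀ j ∈ S, Real.exp (-((lam ^ j / 2) ^ κ)) ≤
      Real.exp (-(u / 2)) * (2 * 2 ^ κ * ρ ^ j) := by
    intro j hj
    have h2 := hu j hj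
    set v : ℝ := (lam ^ j / 2) ^ κ with hv
    have hv0 : 0 < v := Real.rpow_pos_of_pos (by positivity) _
    have h3 : Real.exp (-v) = Real.exp (-(v / 2)) * Real.exp (-(v / 2)) := by
      rw [← Real.exp_add]; congr 1; ring
    rw [h3]
    apply mul_le_mul (Real.exp_le_exp.mpr (by linarith)) _ (Real.exp_pos _).le (Real.exp_pos _).le
    have h4 : v / 2 ≤ Real.exp (v / 2) := by
      have := Real.add_one_le_exp (v / 2)
      linarith
    have h5 : Real.exp (-(v / 2)) ≤ 2 / v := by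
      rw [Real.exp_neg, inv_le_comm₀ (Real.exp_pos _) (by positivity)]
      calc (2 / v)⁻¹ = v / 2 := by rw [inv_div]
        _ ≤ _ := h4
    refine h5.trans (le_of_eq ?_)
    rw [hv, hρ, Real.div_rpow (by positivity) (by norm_num), ← Real.rpow_natCast (lam ^ (-κ)) j,
      ← Real.rpow_mul hlam0.le, ← Real.rpow_natCast lam j, ← Real.rpow_mul hlam0.le]
    have h6 : lam ^ (-κ * (j : ℝ)) = (lam ^ ((j : ℝ) * κ))⁻¹ := by
      rw [← Real.rpow_neg hlam0.le]; congr 1; ring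
    rw [h6]
    have h7 : lam ^ ((j : ℝ) * κ) ≠ 0 := (Real.rpow_pos_of_pos hlam0 _).ne'
    have h8 : (2 : ℝ) ^ κ ≠ 0 := (Real.rpow_pos_of_pos (by norm_num) _).ne'
    field_simp
  have h9 : ∑ j ∈ S, ρ ^ j ≤ (1 - ρ)⁻¹ := by
    rw [← tsum_geometric_of_lt_one hρ0.le hρ1]
    exact (summable_geometric_of_lt_one hρ0.le hρ1).sum_le_tsum S (fun j _ => by positivity)
  calc ∑ j ∈ S, Real.exp (-((lam ^ j / 2) ^ κ))
      ≤ ∑ j ∈ S, Real.exp (-(u / 2)) * (2 * 2 ^ κ * ρ ^ j) := Finset.sum_le_sum h1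
    _ = Real.exp (-(u / 2)) * (2 * 2 ^ κ) * ∑ j ∈ S, ρ ^ j := by
        rw [Finset.mul_sum]; apply Finset.sum_congr rfl; intro j _; ring
    _ ≤ Real.exp (-(u / 2)) * (2 * 2 ^ κ) * (1 - ρ)⁻¹ := by gcongr
    _ = _ := by ring

lemma exp_absorb (K lam κ : ℝ) (hK : 0 < K) (hlam : 1 < lam) (hκ : 0 < κ) :
    ∀ᶠ Y : ℕ in atTop, K * Real.exp (-(((Y : ℝ) / lam / 2) ^ κ / 2)) ≤
      Real.exp (-((Y : ℝ) ^ (κ / 2))) := by
  have hlam0 : 0 < lam := by linarith
  set c : ℝ := (1 / (2 * lam)) ^ κ / 2 with hc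
  have hc0 : 0 < c := by
    have : 0 < (1 / (2 * lam)) ^ κ := Real.rpow_pos_of_pos (by positivity) _
    positivity
  have h1 : Tendsto (fun Y : ℕ => (Y : ℝ) ^ (κ / 2)) atTop atTop :=
    (tendsto_rpow_atTop (by positivity)).comp tendsto_natCast_atTop_atTop
  filter_upwards [h1.eventually_ge_atTop 1, h1.eventually_ge_atTop ((1 + |Real.log K|) / c),
    eventually_ge_atTop 1] with Y h2 h3 h4
  have hY : (0 : ℝ) < Y := by exact_mod_cast h4
  have h5 : ((Y : ℝ) / lam / 2) ^ κ / 2 = c * ((Y : ℝ) ^ (κ / 2) * (Y : ℝ) ^ (κ / 2)) := by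
    rw [← Real.rpow_add hY, hc]
    have : (Y : ℝ) / lam / 2 = (1 / (2 * lam)) * Y := by field_simp
    rw [this, Real.mul_rpow (by positivity) hY.le]
    have h6 : κ / 2 + κ / 2 = κ := by ring
    rw [h6]; ring
  rw [h5]
  set w : ℝ := (Y : ℝ) ^ (κ / 2) with hw
  have h7 : 1 + |Real.log K| ≤ c * w := by
    rw [div_le_iff₀ hc0] at h3
    linarith
  have h8 : |Real.log K| + w ≤ c * (w * w) := by
    have h9 : (1 + |Real.log K|) * w ≤ c * w * w := by gcongr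
    have h10 : |Real.log K| ≤ |Real.log K| * w := by
      nlinarith [abs_nonneg (Real.log K)]
    linarith
  calc K * Real.exp (-(c * (w * w))) = Real.exp (Real.log K) * Real.exp (-(c * (w * w))) := by
        rw [Real.exp_log hK]
    _ = Real.exp (Real.log K - c * (w * w)) := by rw [← Real.exp_add]; congr 1
    _ ≤ Real.exp (-w) := by
        apply Real.exp_le_exp.mpr
        have := le_abs_self (Real.log K)
        linarith

lemma scales_absorb (lam δ : ℝ) (hlam : 1 < lam) (hδ : 0 < δ) :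
    ∀ᶠ N : ℕ in atTop, ((⌊Real.log N / Real.log lam⌋₊ + 1 + 1 : ℕ) : ℝ) ≤ (N : ℝ) ^ δ := by
  have hll : 0 < Real.log lam := Real.log_pos hlam
  have h3 : (fun x : ℝ => Real.log x) =o[atTop] fun x : ℝ => x ^ δ := isLittleO_log_rpow_atTop hδ
  have h4 := h3.bound (show 0 < Real.log lam / 2 by positivity)
  have h5 := tendsto_natCast_atTop_atTop (R := ℝ) |>.eventually h4
  have h6 : Tendsto (fun N : ℕ => (N : ℝ) ^ δ) atTop atTop :=
    (tendsto_rpow_atTop hδ).comp tendsto_natCast_atTop_atTop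
  filter_upwards [h5, h6.eventually_ge_atTop 4, eventually_ge_atTop 1] with N h7 h8 h9
  have hN : (1 : ℝ) ≤ N := by exact_mod_cast h9
  have hlogN : 0 ≤ Real.log N := Real.log_nonneg hN
  rw [Real.norm_of_nonneg hlogN, Real.norm_of_nonneg (by positivity)] at h7
  have h10 : Real.log N / Real.log lam ≤ (N : ℝ) ^ δ / 2 := by
    rw [div_le_iff₀ hll]; linarith
  have h11 : (⌊Real.log N / Real.log lam⌋₊ : ℝ) ≤ Real.log N / Real.log lam :=
    Nat.floor_le (by positivity)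
  push_cast
  linarith

/-- The number of `m ≤ N` which are bad at some `x` with `Y ≤ x ≤ N ^ (δ / 20)`. -/
theorem count_two (δ ε : ℝ) (hδ : 0 < δ) (hδ1 : δ ≤ 1) (hε : 0 < ε) :
    ∃ κ : ℝ, 0 < κ ∧ ∃ Y₀ : ℕ, ∀ N Y : ℕ, Y₀ ≤ Y → ∀ a : ℤ, (a = 1 ∨ a = -1) →
      ∀ E : Finset ℕ, (∀ m ∈ E, m ≤ N) →
      (∀ m ∈ E, ∃ x : ℕ, Y ≤ x ∧ (x : ℝ) ≤ (N : ℝ) ^ (δ / 20) ∧
        ε < |artinP (a * (m : ℤ)) x / Nat.primeCounting x - CA|) →
      (E.card : ℝ) ≤ N * Real.exp (-((Y : ℝ) ^ κ)) + (N : ℝ) ^ (1 / 2 + δ) := by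
  classical
  obtain ⟨lam, hlam, ε', hε', L₀, hL₀, hcov⟩ := scale_cover ε hε
  obtain ⟨κ₀, hκ₀, X₀, hX₀2, hsc⟩ := scale_two (δ / 2) (ε' / 2) (by positivity) (by linarith)
    (by positivity)
  obtain ⟨X₂, hX₂⟩ := eventually_atTop.mp (main_close (ε' / 2) (by positivity))
  obtain ⟨K, hK, hsum⟩ := scale_sum lam κ₀ hlam hκ₀
  have hlam0 : 0 < lam := by linarith
  have hll : 0 < Real.log lam := Real.log_pos hlam
  obtain ⟨N₁, hN₁⟩ := eventually_atTop.mp (scales_absorb lam (δ / 2) hlam (by positivity))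
  have hcast : Tendsto (fun Y : ℕ => (Y : ℝ)) atTop atTop := tendsto_natCast_atTop_atTop
  obtain ⟨Y₀, hY₀⟩ := eventually_atTop.mp ((exp_absorb K lam κ₀ hK hlam hκ₀).and
    ((hcast.eventually_ge_atTop (max L₀ (lam ^ 4))).and
      ((hcast.eventually_ge_atTop (lam * (max X₀ X₂ : ℕ))).and (eventually_ge_atTop N₁))))
  refine ⟨κ₀ / 2, by positivity, Y₀, ?_⟩
  intro N Y hY a ha E hE hbad
  obtain ⟨g1, g2, g3, g4⟩ := hY₀ Y hY
  have hN0' : (0 : ℝ) ≤ N := Nat.cast_nonneg N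
  rcases Finset.eq_empty_or_nonempty E with rfl | ⟨m₀, hm₀⟩
  · rw [Finset.card_empty, Nat.cast_zero]
    positivity
  obtain ⟨x₀, hx₀1, hx₀2, _⟩ := hbad m₀ hm₀
  have hYL : L₀ ≤ (Y : ℝ) := (le_max_left _ _).trans g2
  have hYlam : lam ^ 4 ≤ (Y : ℝ) := (le_max_right _ _).trans g2
  have hY1 : (1 : ℝ) ≤ Y := hL₀.trans hYL
  have hYN : (Y : ℝ) ≤ (N : ℝ) ^ (δ / 20) := by
    have : (Y : ℝ) ≤ x₀ := by exact_mod_cast hx₀1
    linarith
  have hN1 : 1 ≤ N := by
    rcases Nat.eq_zero_or_pos N with h0 | h0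
    · rw [h0, Nat.cast_zero, Real.zero_rpow (by positivity)] at hYN
      linarith
    · exact h0
  have hNr : (1 : ℝ) ≤ N := by exact_mod_cast hN1
  have hN0 : (0 : ℝ) < N := by linarith
  have hYN2 : (Y : ℝ) ≤ N := by
    calc (Y : ℝ) ≤ (N : ℝ) ^ (δ / 20) := hYN
      _ ≤ (N : ℝ) ^ (1 : ℝ) := Real.rpow_le_rpow_of_exponent_le hNr (by linarith)
      _ = N := Real.rpow_one _
  have hNN₁ : N₁ ≤ N := g4.trans (by exact_mod_cast hYN2)
  have hlamN : lam ≤ (N : ℝ) ^ (δ / 80) := by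
    have h1 : lam ^ 4 ≤ ((N : ℝ) ^ (δ / 80)) ^ 4 := by
      have h2 : ((N : ℝ) ^ (δ / 80)) ^ 4 = (N : ℝ) ^ (δ / 20) := by
        rw [← Real.rpow_natCast, ← Real.rpow_mul hN0.le]; congr 1; push_cast; ring
      rw [h2]; linarith
    exact le_of_pow_le_pow_left₀ (by norm_num) (by positivity) h1
  set hi : ℝ := (N : ℝ) ^ (δ / 20) with hhi
  have hlamhi : lam * hi ≤ (N : ℝ) ^ (δ / 2 / 8) := by
    calc lam * hi ≤ (N : ℝ) ^ (δ / 80) * (N : ℝ) ^ (δ / 20) := by gcongr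
      _ = (N : ℝ) ^ (δ / 2 / 8) := by rw [← Real.rpow_add hN0]; congr 1; ring
  set J : ℕ := ⌊Real.log N / Real.log lam⌋₊ + 1 with hJ
  set S : Finset ℕ := (Finset.range (J + 1)).filter
    (fun j => (Y : ℝ) / lam ≤ lam ^ j ∧ lam ^ j ≤ lam * hi) with hS
  set F : ℕ → Finset ℕ := fun j => E.filter (fun m => ε' <
    |artinP (a * (m : ℤ)) (scl lam j) / Nat.primeCounting (scl lam j) - CA|) with hF
  have hcover : E ⊆ S.biUnion F := by
    intro m hm
    obtain ⟨x, hx1, hx2, hx3⟩ := hbad m hm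
    obtain ⟨j, hj1, hj2, hj3⟩ := hcov (a * (m : ℤ)) Y hi hYL x (by exact_mod_cast hx1) hx2 hx3
    rw [Finset.mem_biUnion]
    refine ⟨j, ?_, ?_⟩
    · rw [hS, Finset.mem_filter, Finset.mem_range]
      refine ⟨?_, hj1, hj2⟩
      have h1 : lam ^ j ≤ lam * N := by
        calc lam ^ j ≤ lam * hi := hj2
          _ ≤ lam * N := by
            gcongr
            calc hi ≤ (N : ℝ) ^ (1 : ℝ) := Real.rpow_le_rpow_of_exponent_le hNr (by linarith)
              _ = N := Real.rpow_one _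
      have h2 := Real.log_le_log (by positivity) h1
      rw [Real.log_pow, Real.log_mul hlam0.ne' hN0.ne'] at h2
      have h3 : (j : ℝ) ≤ 1 + Real.log N / Real.log lam := by
        have : (j : ℝ) * Real.log lam ≤ (1 + Real.log N / Real.log lam) * Real.log lam := by
          rw [add_mul, div_mul_cancel₀ _ hll.ne', one_mul]
          linarith
        exact le_of_mul_le_mul_right this hll
      have h4 : Real.log N / Real.log lam < (⌊Real.log N / Real.log lam⌋₊ : ℝ) + 1 :=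
        Nat.lt_floor_add_one _
      have h5 : (j : ℝ) < ((J + 1 : ℕ) : ℝ) := by
        rw [hJ]; push_cast; linarith
      exact_mod_cast h5
    · rw [hF, Finset.mem_filter]
      exact ⟨hm, hj3⟩
  have hmaxY : ((max X₀ X₂ : ℕ) : ℝ) ≤ (Y : ℝ) / lam := by
    rw [le_div_iff₀ hlam0, mul_comm]
    exact g3
  have hFj : ∀ j ∈ S, ((F j).card : ℝ) ≤
      N * Real.exp (-((lam ^ j / 2) ^ κ₀)) + (N : ℝ) ^ (1 / 2 + δ / 2) := by
    intro j hj
    rw [hS, Finset.mem_filter] at hj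
    obtain ⟨_, hj1, hj2⟩ := hj
    set x : ℕ := scl lam j with hx
    have hxmax : max X₀ X₂ ≤ x := by
      rw [hx]; unfold scl
      exact Nat.le_floor (hmaxY.trans hj1)
    have hxX₀ : X₀ ≤ x := (le_max_left _ _).trans hxmax
    have hxX₂ : X₂ ≤ x := (le_max_right _ _).trans hxmax
    have hx2 : 2 ≤ x := hX₀2.trans hxX₀
    have hpi := primeCounting_pos hx2
    have hxle : (x : ℝ) ≤ lam ^ j := by
      rw [hx]; unfold scl
      exact Nat.floor_le (by positivity)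
    have hxge : lam ^ j / 2 ≤ x := by
      have h1 : lam ^ j < (x : ℝ) + 1 := by
        rw [hx]; unfold scl; exact Nat.lt_floor_add_one _
      have h2 : (2 : ℝ) ≤ x := by exact_mod_cast hx2
      linarith
    have h1 := hsc x N hxX₀ (hxle.trans (hj2.trans hlamhi)) a ha (F j)
      (fun m hm => hE m (Finset.mem_filter.mp hm).1)
      (fun m hm => unnormalise hpi (Finset.mem_filter.mp hm).2 (hX₂ x hxX₂))
    refine h1.trans ?_
    have h2 : Real.exp (-((x : ℝ) ^ κ₀)) ≤ Real.exp (-((lam ^ j / 2) ^ κ₀)) := by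
      apply Real.exp_le_exp.mpr
      have := Real.rpow_le_rpow (by positivity) hxge hκ₀.le
      linarith
    gcongr
  have hsumS := hsum S (((Y : ℝ) / lam / 2) ^ κ₀) (by
    intro j hj
    rw [hS, Finset.mem_filter] at hj
    apply Real.rpow_le_rpow (by positivity) _ hκ₀.le
    linarith [hj.2.1])
  have hScard : (S.card : ℝ) ≤ (N : ℝ) ^ (δ / 2) := by
    refine le_trans ?_ (hN₁ N hNN₁)
    have h1 : S.card ≤ J + 1 := (Finset.card_filter_le _ _).trans (by simp)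
    exact_mod_cast h1
  calc (E.card : ℝ) ≤ ((S.biUnion F).card : ℝ) := by exact_mod_cast Finset.card_le_card hcover
    _ ≤ ((∑ j ∈ S, (F j).card : ℕ) : ℝ) := by exact_mod_cast Finset.card_biUnion_le
    _ = ∑ j ∈ S, ((F j).card : ℝ) := by push_cast; rfl
    _ ≤ ∑ j ∈ S, (N * Real.exp (-((lam ^ j / 2) ^ κ₀)) + (N : ℝ) ^ (1 / 2 + δ / 2)) :=
        Finset.sum_le_sum hFj
    _ = N * ∑ j ∈ S, Real.exp (-((lam ^ j / 2) ^ κ₀)) + S.card * (N : ℝ) ^ (1 / 2 + δ / 2) := by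
        rw [Finset.sum_add_distrib, ← Finset.mul_sum, Finset.sum_const, nsmul_eq_mul]
    _ ≤ N * Real.exp (-((Y : ℝ) ^ (κ₀ / 2))) + (N : ℝ) ^ (δ / 2) * (N : ℝ) ^ (1 / 2 + δ / 2) := by
        gcongr
        exact hsumS.trans g1
    _ = N * Real.exp (-((Y : ℝ) ^ (κ₀ / 2))) + (N : ℝ) ^ (1 / 2 + δ) := by
        rw [← Real.rpow_add hN0]; congr 2; ring

end Pool.Agent.ARU
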