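import Mathlib

set_option autoImplicit false

/-!
# ARU module SMO: Rankin's sum over the smooth numbers

`smooth_sum`: `f : ℕ →*₀ ℝ`, `f n = n ^ (-σ)` (`0 ^ (-σ) = 0`).
`EulerProduct.summable_and_hasSum_smoothNumbers_prod_primesBelow_geometric` (all `‖f p‖ < 1`):
the sum over the `z`-smooth numbers is `∏_{p < z} (1 - p^(-σ))⁻¹`.  For `p ≥ 2`, `σ ≥ 1/2` we have
`t = p^(-σ) ≤ 2^(-1/2) ≤ 3/4` and `(1 - t)⁻¹ ≤ 1 + 4 t ≤ exp (4 t)`.  Hence the sum is at most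
`exp (4 ∑_{p<z} p^(-σ))` and `p^(-σ) = p^(1-σ) / p ≤ z^(1-σ) / p`, `∑_{n ≤ z} 1/n ≤ 1 + log z`
(`harmonic_le_one_add_log`).

`smooth_absorb`: with `L = log N`, `z = ⌊L^(2B(1-δ))⌋`, `σ = 1 - 1/(2B)`: `z^(1-σ) ≤ L^(1-δ)`,
`log z ≤ 2 B log L`, and `4 L^(1-δ) (1 + 2 B log L) ≤ δ L` for `N` large.
-/

namespace Pool.Agent.ARU

private noncomputable def rf (σ : ℝ) : ℕ →* ℝ where
  toFun n := (n : ℝ) ^ (-σ)
  map_one' := by simp
  map_mul' a b := by
    rw [Nat.cast_mul, Real.mul_rpow (Nat.cast_nonneg a) (Nat.cast_nonneg b)]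

private lemma rf_apply (σ : ℝ) (n : ℕ) : rf σ n = (n : ℝ) ^ (-σ) := rfl

private lemma prime_rpow_le {σ : ℝ} (hσ : 1 / 2 ≤ σ) {p : ℕ} (hp : p.Prime) :
    (p : ℝ) ^ (-σ) ≤ 3 / 4 := by
  have hp2 : (2 : ℝ) ≤ p := by exact_mod_cast hp.two_le
  have h1 : (p : ℝ) ^ (-σ) ≤ (2 : ℝ) ^ (-σ) :=
    Real.rpow_le_rpow_of_nonpos (by norm_num) hp2 (by linarith)
  have h2 : (2 : ℝ) ^ (-σ) ≤ (2 : ℝ) ^ (-(1 / 2) : ℝ) :=
    Real.rpow_le_rpow_of_exponent_le (by norm_num) (by linarith)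
  have h3 : (2 : ℝ) ^ (-(1 / 2) : ℝ) ≤ 3 / 4 := by
    rw [Real.rpow_neg (by norm_num), ← Real.sqrt_eq_rpow]
    have h4 : (4 / 3 : ℝ) ≤ √2 := by
      apply Real.le_sqrt_of_sq_le
      norm_num
    calc (√2)⁻¹ ≤ (4 / 3 : ℝ)⁻¹ := inv_anti₀ (by norm_num) h4
      _ = 3 / 4 := by norm_num
  linarith

theorem smooth_sum (σ : ℝ) (hσ : 1 / 2 ≤ σ) (hσ1 : σ < 1) (z N : ℕ) (hz : 1 ≤ z) :
    ∑ s ∈ (Finset.Icc 1 N).filter (fun s => s ∈ Nat.smoothNumbers z), (s : ℝ) ^ (-σ) ≤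
      Real.exp (4 * ((z : ℝ) ^ (1 - σ) * (1 + Real.log z))) := by
  have hz1 : (1 : ℝ) ≤ z := by exact_mod_cast hz
  have hlt : ∀ {p : ℕ}, p.Prime → ‖rf σ p‖ < 1 := by
    intro p hp
    rw [rf_apply, Real.norm_of_nonneg (by positivity)]
    have := prime_rpow_le hσ hp
    linarith
  have hsum := (EulerProduct.summable_and_hasSum_smoothNumbers_prod_primesBelow_geometric
    (f := rf σ) hlt z).2
  have hsum2 : HasSum ((Nat.smoothNumbers z).indicator (fun n => rf σ n))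
      (∏ p ∈ z.primesBelow, (1 - rf σ p)⁻¹) := by
    rw [← hasSum_subtype_iff_indicator]
    exact hsum
  have h1 : ∑ s ∈ (Finset.Icc 1 N).filter (fun s => s ∈ Nat.smoothNumbers z),
      (s : ℝ) ^ (-σ) ≤ ∏ p ∈ z.primesBelow, (1 - rf σ p)⁻¹ := by
    have h2 : ∑ s ∈ (Finset.Icc 1 N).filter (fun s => s ∈ Nat.smoothNumbers z),
        (s : ℝ) ^ (-σ) = ∑ s ∈ (Finset.Icc 1 N).filter (fun s => s ∈ Nat.smoothNumbers z),
        (Nat.smoothNumbers z).indicator (fun n => rf σ n) s := by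
      apply Finset.sum_congr rfl
      intro s hs
      rw [Set.indicator_of_mem (Finset.mem_filter.1 hs).2]
      rfl
    rw [h2]
    apply sum_le_hasSum _ _ hsum2
    intro i _
    apply Set.indicator_nonneg
    intro n _
    rw [rf_apply]
    positivity
  refine h1.trans ?_
  have h3 : ∏ p ∈ z.primesBelow, (1 - rf σ p)⁻¹ ≤
      ∏ p ∈ z.primesBelow, Real.exp (4 * (p : ℝ) ^ (-σ)) := by
    apply Finset.prod_le_prod
    · intro p hp
      have hpp := Nat.prime_of_mem_primesBelow hp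
      have := prime_rpow_le hσ hpp
      rw [rf_apply]
      have : (0 : ℝ) < 1 - (p : ℝ) ^ (-σ) := by linarith
      positivity
    · intro p hp
      have hpp := Nat.prime_of_mem_primesBelow hp
      have h4 := prime_rpow_le hσ hpp
      have h5 : (0 : ℝ) ≤ (p : ℝ) ^ (-σ) := by positivity
      rw [rf_apply]
      have h6 : (1 - (p : ℝ) ^ (-σ))⁻¹ ≤ 1 + 4 * (p : ℝ) ^ (-σ) := by
        rw [inv_le_iff_one_le_mul₀ (by linarith)]
        nlinarith
      have h7 := Real.add_one_le_exp (4 * (p : ℝ) ^ (-σ))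
      linarith
  refine h3.trans ?_
  rw [← Real.exp_sum]
  apply Real.exp_le_exp.2
  rw [← Finset.mul_sum]
  apply mul_le_mul_of_nonneg_left _ (by norm_num)
  have h8 : ∀ p ∈ z.primesBelow, (p : ℝ) ^ (-σ) ≤ (z : ℝ) ^ (1 - σ) * ((p : ℝ)⁻¹) := by
    intro p hp
    have hpp := Nat.prime_of_mem_primesBelow hp
    have hpz : (p : ℝ) ≤ z := by exact_mod_cast (Nat.lt_of_mem_primesBelow hp).le
    have hp0 : (0 : ℝ) < p := by exact_mod_cast hpp.pos
    have h9 : (p : ℝ) ^ (-σ) = (p : ℝ) ^ (1 - σ) * (p : ℝ)⁻¹ := by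
      rw [← Real.rpow_neg_one, ← Real.rpow_add hp0]
      congr 1
      ring
    rw [h9]
    apply mul_le_mul_of_nonneg_right _ (by positivity)
    exact Real.rpow_le_rpow hp0.le hpz (by linarith)
  refine (Finset.sum_le_sum h8).trans ?_
  rw [← Finset.mul_sum]
  apply mul_le_mul_of_nonneg_left _ (by positivity)
  have h10 : ∑ p ∈ z.primesBelow, ((p : ℝ)⁻¹) ≤ ((harmonic z : ℚ) : ℝ) := by
    have hsub : z.primesBelow ⊆ Finset.Icc 1 z := by
      intro p hp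
      rw [Finset.mem_Icc]
      exact ⟨(Nat.prime_of_mem_primesBelow hp).one_lt.le, (Nat.lt_of_mem_primesBelow hp).le⟩
    have h11 : ((harmonic z : ℚ) : ℝ) = ∑ n ∈ Finset.Icc 1 z, ((n : ℝ)⁻¹) := by
      rw [harmonic_eq_sum_Icc]
      push_cast
      rfl
    rw [h11]
    exact Finset.sum_le_sum_of_subset_of_nonneg hsub (fun n _ _ => by positivity)
  exact h10.trans (harmonic_le_one_add_log z)

private lemma absorb_ineq (B δ : ℝ) (hB : 1 ≤ B) (hδ : 0 < δ) :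
    ∀ᶠ L : ℝ in Filter.atTop, 4 * (L ^ (1 - δ) * (1 + 2 * B * Real.log L)) ≤ δ * L := by
  have h1 : (fun L : ℝ => 1 + 2 * B * Real.log L) =o[Filter.atTop] (fun L : ℝ => L ^ δ) := by
    apply Asymptotics.IsLittleO.add
    · apply Asymptotics.isLittleO_const_left.2
      right
      exact Filter.Tendsto.comp tendsto_norm_atTop_atTop (tendsto_rpow_atTop hδ)
    · exact (isLittleO_log_rpow_atTop hδ).const_mul_left _
  have h2 := h1.bound (show (0 : ℝ) < δ / 4 by positivity)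
  filter_upwards [h2, Filter.eventually_ge_atTop 1] with L hL hL1
  have hL0 : 0 < L := by linarith
  rw [Real.norm_of_nonneg (by positivity : (0 : ℝ) ≤ L ^ δ)] at hL
  have h3 : 1 + 2 * B * Real.log L ≤ δ / 4 * L ^ δ := (le_abs_self _).trans hL
  have h4 : L ^ (1 - δ) * L ^ δ = L := by
    rw [← Real.rpow_add hL0]
    simp
  have h5 : (0 : ℝ) < L ^ (1 - δ) := by positivity
  calc 4 * (L ^ (1 - δ) * (1 + 2 * B * Real.log L))
      ≤ 4 * (L ^ (1 - δ) * (δ / 4 * L ^ δ)) := by gcongr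
    _ = δ * (L ^ (1 - δ) * L ^ δ) := by ring
    _ = δ * L := by rw [h4]

theorem smooth_absorb (B δ : ℝ) (hB : 1 ≤ B) (hδ : 0 < δ) (hδ1 : δ < 1) :
    ∀ᶠ N : ℕ in Filter.atTop,
      ∑ s ∈ (Finset.Icc 1 N).filter (fun s => s ∈ Nat.smoothNumbers
        ⌊(Real.log N) ^ (2 * B * (1 - δ))⌋₊), (s : ℝ) ^ (-(1 - 1 / (2 * B))) ≤ (N : ℝ) ^ δ := by
  have hlog : Filter.Tendsto (fun N : ℕ => Real.log N) Filter.atTop Filter.atTop :=
    Real.tendsto_log_atTop.comp tendsto_natCast_atTop_atTop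
  filter_upwards [hlog.eventually (absorb_ineq B δ hB hδ),
    hlog.eventually (Filter.eventually_ge_atTop 1), Filter.eventually_ge_atTop 1] with N h1 h2 hN
  set L := Real.log N with hL
  have hL0 : 0 < L := by linarith
  set z : ℕ := ⌊L ^ (2 * B * (1 - δ))⌋₊ with hz
  have hexp0 : 0 ≤ 2 * B * (1 - δ) := by
    apply mul_nonneg (by linarith) (by linarith)
  have hz1 : 1 ≤ z := by
    rw [hz]
    apply Nat.le_floor
    rw [Nat.cast_one]
    exact Real.one_le_rpow h2 hexp0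
  have hzle : (z : ℝ) ≤ L ^ (2 * B * (1 - δ)) := Nat.floor_le (by positivity)
  have hB2 : 0 < 1 / (2 * B) := by positivity
  have hB3 : 1 / (2 * B) ≤ 1 / 2 := by
    apply one_div_le_one_div_of_le (by norm_num)
    linarith
  have hmain := smooth_sum (1 - 1 / (2 * B)) (by linarith) (by linarith) z N hz1
  refine hmain.trans ?_
  have hzpos : (0 : ℝ) < z := by exact_mod_cast hz1
  have e1 : (z : ℝ) ^ (1 - (1 - 1 / (2 * B))) ≤ L ^ (1 - δ) := by
    have h3 : 1 - (1 - 1 / (2 * B)) = 1 / (2 * B) := by ring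
    rw [h3]
    calc (z : ℝ) ^ (1 / (2 * B)) ≤ (L ^ (2 * B * (1 - δ))) ^ (1 / (2 * B)) :=
          Real.rpow_le_rpow hzpos.le hzle hB2.le
      _ = L ^ (1 - δ) := by
          rw [← Real.rpow_mul hL0.le]
          congr 1
          field_simp
  have e2 : Real.log z ≤ 2 * B * Real.log L := by
    have h3 : Real.log z ≤ Real.log (L ^ (2 * B * (1 - δ))) := Real.log_le_log hzpos hzle
    rw [Real.log_rpow hL0] at h3
    refine h3.trans ?_
    apply mul_le_mul_of_nonneg_right _ (Real.log_nonneg h2)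
    nlinarith
  have hlogz : 0 ≤ Real.log z := Real.log_nonneg (by exact_mod_cast hz1)
  have hNpos : (0 : ℝ) < N := by exact_mod_cast hN
  have hN2 : (N : ℝ) ^ δ = Real.exp (δ * L) := by
    rw [Real.rpow_def_of_pos hNpos, mul_comm]
  rw [hN2]
  apply Real.exp_le_exp.2
  refine le_trans ?_ h1
  apply mul_le_mul_of_nonneg_left _ (by norm_num)
  apply mul_le_mul e1 (by linarith) (by linarith) (by positivity)

end Pool.Agent.ARU
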