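import Pool.Agent.ARU.Rgs
import Pool.Agent.ARU.Smo

set_option autoImplicit false

/-!
# ARU module RG4: regime III at one scale, general range `exp ((log N)^B)`

`m = s u` with `s` smooth, `u` rough (`rough_split`); for every `s` at most
`N^(δ/2) (N/s)^σ` elements by `scale_rough`, `σ = 1 - 1/(2B)`; Rankin (`smooth_absorb`).
-/

namespace Pool.Agent.ARU

open Pool.Agent.Helper8.ArtinLS Pool.Agent.Helper8.ArtinC Pool.Agent.Helper6

theorem scale_four (B δ ε : ℝ) (hB : 1 ≤ B) (hδ : 0 < δ) (hδ1 : δ ≤ 1) (hε : 0 < ε) :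
    ∃ A : ℝ, 0 < A ∧ ∃ N₀ : ℕ, 2 ≤ N₀ ∧ ∀ x N : ℕ, N₀ ≤ N →
      (N : ℝ) ^ A ≤ x → (x : ℝ) ≤ Real.exp ((Real.log N) ^ B) →
      ∀ a : ℤ, (a = 1 ∨ a = -1) → ∀ E : Finset ℕ, (∀ m ∈ E, 1 ≤ m ∧ m ≤ N) →
      (∀ m ∈ E, ε * Nat.primeCounting x < |artinP (a * (m : ℤ)) x - artinEC x|) →
      (E.card : ℝ) ≤ (N : ℝ) ^ (1 - 1 / (2 * B) + δ) := by
  classical
  have hB0 : 0 < B := by linarith
  obtain ⟨A, hA, N₁, hN₁2, hone⟩ := scale_rough B (δ / 2) ε hB (by positivity) (by linarith) hε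
  obtain ⟨N₂, hN₂⟩ := Filter.eventually_atTop.mp
    (smooth_absorb B (δ / 2 / 16) hB (by positivity) (by linarith))
  refine ⟨A, hA, max N₁ N₂, hN₁2.trans (le_max_left _ _), ?_⟩
  intro x N hN hx1 hx2 a ha E hE hbad
  have hNN₁ : N₁ ≤ N := (le_max_left _ _).trans hN
  have hNN₂ : N₂ ≤ N := (le_max_right _ _).trans hN
  have hsm := hN₂ N hNN₂
  set z : ℕ := ⌊(Real.log N) ^ (2 * B * (1 - δ / 2 / 16))⌋₊ with hz
  set σ : ℝ := 1 - 1 / (2 * B) with hσ
  have hσ0 : 0 ≤ σ := by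
    have : 1 / (2 * B) ≤ 1 := by rw [div_le_one (by positivity)]; linarith
    rw [hσ]; linarith
  have hN1 : 1 ≤ N := by omega
  have hN0 : (0 : ℝ) < N := by exact_mod_cast hN1
  have hNr1 : (1 : ℝ) ≤ N := by exact_mod_cast hN1
  set S : Finset ℕ := (Finset.Icc 1 N).filter (fun s => s ∈ Nat.smoothNumbers z) with hS
  set F : ℕ → Finset ℕ := fun s => (Finset.Icc 1 (N / s)).filter
    (fun u => (∀ p : ℕ, p.Prime → p ∣ u → z ≤ p) ∧ s * u ∈ E) with hF
  have hcover : E ⊆ S.biUnion (fun s => (F s).image (fun u => s * u)) := by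
    intro m hm
    obtain ⟨hm1, hmN⟩ := hE m hm
    obtain ⟨s, u, hs, hs1, hu1, hmsu, hu⟩ := rough_split z m hm1
    have hsN : s ≤ N := by
      calc s = s * 1 := (mul_one s).symm
        _ ≤ s * u := Nat.mul_le_mul_left s hu1
        _ = m := hmsu.symm
        _ ≤ N := hmN
    rw [Finset.mem_biUnion]
    refine ⟨s, ?_, ?_⟩
    · rw [hS, Finset.mem_filter, Finset.mem_Icc]
      exact ⟨⟨hs1, hsN⟩, hs⟩
    · rw [Finset.mem_image]
      refine ⟨u, ?_, hmsu.symm⟩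
      simp only [hF, Finset.mem_filter, Finset.mem_Icc]
      refine ⟨⟨hu1, ?_⟩, hu, ?_⟩
      · rw [Nat.le_div_iff_mul_le (by omega)]
        calc u * s = s * u := mul_comm _ _
          _ = m := hmsu.symm
          _ ≤ N := hmN
      · rw [← hmsu]; exact hm
  have hFs : ∀ s ∈ S, ((F s).card : ℝ) ≤ (N : ℝ) ^ (δ / 2) * ((N : ℝ) ^ σ * (s : ℝ) ^ (-σ)) := by
    intro s hs
    rw [hS, Finset.mem_filter, Finset.mem_Icc] at hs
    obtain ⟨⟨hs1, hsN⟩, _⟩ := hs
    have hs0 : (0 : ℝ) < s := by exact_mod_cast hs1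
    have ha' : a * (s : ℤ) ≠ 0 := by
      apply mul_ne_zero
      · rcases ha with rfl | rfl <;> norm_num
      · exact_mod_cast (by omega : s ≠ 0)
    have haN : (a * (s : ℤ)).natAbs ≤ N := by
      rw [Int.natAbs_mul, Int.natAbs_natCast]
      rcases ha with rfl | rfl <;> simpa using hsN
    have h1 := hone x N hNN₁ hx1 hx2 (a * (s : ℤ)) ha' haN (N / s) (Nat.div_le_self N s) (F s)
      (fun u hu => by
        simp only [hF, Finset.mem_filter, Finset.mem_Icc] at hu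
        exact hu.1)
      (fun u hu => by
        simp only [hF, Finset.mem_filter, Finset.mem_Icc] at hu
        exact hu.2.1)
      (fun u hu => by
        simp only [hF, Finset.mem_filter, Finset.mem_Icc] at hu
        have h2 := hbad (s * u) hu.2.2
        have h3 : a * ((s * u : ℕ) : ℤ) = a * (s : ℤ) * (u : ℤ) := by push_cast; ring
        rw [h3] at h2
        exact h2)
    refine h1.trans ?_
    apply mul_le_mul_of_nonneg_left _ (by positivity)
    have h4 : ((N / s : ℕ) : ℝ) ≤ (N : ℝ) / s := Nat.cast_div_le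
    calc ((N / s : ℕ) : ℝ) ^ σ ≤ ((N : ℝ) / s) ^ σ :=
          Real.rpow_le_rpow (Nat.cast_nonneg _) h4 hσ0
      _ = (N : ℝ) ^ σ * (s : ℝ) ^ (-σ) := by
          rw [Real.div_rpow hN0.le hs0.le, Real.rpow_neg hs0.le, div_eq_mul_inv]
  calc (E.card : ℝ) ≤ ((S.biUnion (fun s => (F s).image (fun u => s * u))).card : ℝ) := by
        exact_mod_cast Finset.card_le_card hcover
    _ ≤ ((∑ s ∈ S, ((F s).image (fun u => s * u)).card : ℕ) : ℝ) := by
        exact_mod_cast Finset.card_biUnion_le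
    _ ≤ ∑ s ∈ S, ((F s).card : ℝ) := by
        push_cast
        apply Finset.sum_le_sum
        intro s _
        exact_mod_cast Finset.card_image_le
    _ ≤ ∑ s ∈ S, (N : ℝ) ^ (δ / 2) * ((N : ℝ) ^ σ * (s : ℝ) ^ (-σ)) := Finset.sum_le_sum hFs
    _ = (N : ℝ) ^ (δ / 2) * (N : ℝ) ^ σ * ∑ s ∈ S, (s : ℝ) ^ (-σ) := by
        rw [Finset.mul_sum]
        apply Finset.sum_congr rfl
        intro s _
        ring
    _ ≤ (N : ℝ) ^ (δ / 2) * (N : ℝ) ^ σ * (N : ℝ) ^ (δ / 2 / 16) := by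
        apply mul_le_mul_of_nonneg_left hsm (by positivity)
    _ = (N : ℝ) ^ (δ / 2 + σ + δ / 2 / 16) := by
        rw [← Real.rpow_add hN0, ← Real.rpow_add hN0]
    _ ≤ (N : ℝ) ^ (σ + δ) := Real.rpow_le_rpow_of_exponent_le hNr1 (by linarith)

end Pool.Agent.ARU
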