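import Mathlib

set_option autoImplicit false

/-!
# ARU module REP2: ordered factorisations into rough numbers

If the set is non empty, `n = ∏ t i` has only prime factors `≥ z`, so `z ^ Ω(n) ≤ n` and
`Ω(n) ≤ Nat.log z n`.  The number of all ordered factorisations of length `r` of `n ≥ 1` is at most
`r ^ Ω(n)`: this is `FF_mul` with `s = 1` in `Pool/Agent/ARU/Rep.lean` (private there; copy
`FF`, `mem_FF`, `FF_zero`, `FF_prime`, `FF_mul`).
`rough_split`: every `n ≥ 1` is `s * u` with `s` `z`-smooth and `u` `z`-rough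
(`s = ((n.primeFactorsList.filter (· < z)).prod`, `Nat.prod_mem_smoothNumbers`).
-/

namespace Pool.Agent.ARU

/-- ordered factorisations -/
private def FF (r n : ℕ) : Finset (Fin r → ℕ) :=
  (Fintype.piFinset fun _ : Fin r => n.divisors).filter (fun t => ∏ i, t i = n)

private lemma mem_FF {r n : ℕ} (hn : n ≠ 0) (t : Fin r → ℕ) : t ∈ FF r n ↔ ∏ i, t i = n := by
  unfold FF
  rw [Finset.mem_filter, Fintype.mem_piFinset]
  constructor
  · exact fun h => h.2
  · intro h
    refine ⟨fun i => ?_, h⟩
    rw [Nat.mem_divisors]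
    exact ⟨h ▸ Finset.dvd_prod_of_mem t (Finset.mem_univ i), hn⟩

private lemma FF_zero {r : ℕ} (hr : 1 ≤ r) : (FF r 0).card = 0 := by
  unfold FF
  rw [Finset.card_eq_zero, Finset.filter_eq_empty_iff]
  intro t ht
  rw [Fintype.mem_piFinset] at ht
  have := ht ⟨0, hr⟩
  simp at this

private lemma FF_prime {r p n : ℕ} (hp : p.Prime) (hn : n ≠ 0) :
    (FF r (p * n)).card ≤ r * (FF r n).card := by
  classical
  have hsub : FF r (p * n) ⊆ Finset.univ.biUnion (fun i : Fin r =>
      (FF r n).image (fun s => Function.update s i (p * s i))) := by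
    intro t ht
    rw [mem_FF (mul_ne_zero hp.ne_zero hn)] at ht
    have hdvd : p ∣ ∏ i, t i := by rw [ht]; exact dvd_mul_right p n
    obtain ⟨i, -, hi⟩ := (Prime.dvd_finsetProd_iff hp.prime t).1 hdvd
    rw [Finset.mem_biUnion]
    refine ⟨i, Finset.mem_univ i, ?_⟩
    rw [Finset.mem_image]
    obtain ⟨c, hc⟩ := hi
    refine ⟨Function.update t i c, ?_, ?_⟩
    · rw [mem_FF hn]
      have h1 : ∏ j, t j = t i * ∏ j ∈ Finset.univ.erase i, t j :=
        (Finset.mul_prod_erase _ _ (Finset.mem_univ i)).symm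
      have h2 : ∏ j, Function.update t i c j = c * ∏ j ∈ Finset.univ.erase i, t j := by
        rw [← Finset.mul_prod_erase _ _ (Finset.mem_univ i), Function.update_self]
        congr 1
        refine Finset.prod_congr rfl (fun j hj => ?_)
        rw [Function.update_of_ne (Finset.ne_of_mem_erase hj)]
      rw [h2]
      rw [h1, hc, mul_assoc] at ht
      exact Nat.eq_of_mul_eq_mul_left hp.pos ht
    · funext j
      by_cases hj : j = i
      · subst hj
        simp [hc]
      · simp [Function.update_of_ne hj]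
  calc (FF r (p * n)).card ≤ _ := Finset.card_le_card hsub
    _ ≤ ∑ i : Fin r, ((FF r n).image (fun s => Function.update s i (p * s i))).card :=
        Finset.card_biUnion_le
    _ ≤ ∑ _i : Fin r, (FF r n).card := Finset.sum_le_sum (fun i _ => Finset.card_image_le)
    _ = r * (FF r n).card := by simp

private lemma FF_mul {r : ℕ} (hr : 1 ≤ r) (u : ℕ) : ∀ s : ℕ, s ≠ 0 →
    (FF r (u * s)).card ≤ r ^ (u.primeFactorsList.length) * (FF r s).card := by
  induction u using Nat.recOnMul with
  | zero =>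
    intro s _
    rw [zero_mul, FF_zero hr]
    exact Nat.zero_le _
  | one =>
    intro s _
    simp
  | prime p hp =>
    intro s hs
    rw [Nat.primeFactorsList_prime hp]
    simpa using FF_prime hp hs
  | mul a b iha ihb =>
    intro s hs
    rcases eq_or_ne a 0 with rfl | ha
    · rw [zero_mul, zero_mul, FF_zero hr]
      exact Nat.zero_le _
    rcases eq_or_ne b 0 with rfl | hb
    · rw [mul_zero, zero_mul, FF_zero hr]
      exact Nat.zero_le _
    have h1 := (Nat.perm_primeFactorsList_mul ha hb).length_eq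
    rw [List.length_append] at h1
    rw [h1, mul_assoc, pow_add]
    calc (FF r (a * (b * s))).card
        ≤ r ^ a.primeFactorsList.length * (FF r (b * s)).card := iha _ (mul_ne_zero hb hs)
      _ ≤ r ^ a.primeFactorsList.length * (r ^ b.primeFactorsList.length * (FF r s).card) :=
          Nat.mul_le_mul_left _ (ihb s hs)
      _ = _ := by ring

private lemma FF_one (r : ℕ) : (FF r 1).card ≤ 1 := by
  rw [Finset.card_le_one]
  intro a ha b hb
  rw [mem_FF one_ne_zero] at ha hb
  funext i
  have h1 : a i = 1 := by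
    have := Finset.dvd_prod_of_mem a (Finset.mem_univ i)
    rw [ha] at this
    exact Nat.dvd_one.1 this
  have h2 : b i = 1 := by
    have := Finset.dvd_prod_of_mem b (Finset.mem_univ i)
    rw [hb] at this
    exact Nat.dvd_one.1 this
  rw [h1, h2]

theorem card_rep_rough (r z n : ℕ) (hr : 1 ≤ r) (hz : 2 ≤ z) (hn : 1 ≤ n) (E : Finset ℕ)
    (hE : ∀ m ∈ E, ∀ p : ℕ, p.Prime → p ∣ m → z ≤ p) :
    ((Fintype.piFinset fun _ : Fin r => E).filter (fun t => ∏ i, t i = n)).card ≤
      r ^ (Nat.log z n) := by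
  have hn0 : n ≠ 0 := by omega
  rcases Finset.eq_empty_or_nonempty
    ((Fintype.piFinset fun _ : Fin r => E).filter (fun t => ∏ i, t i = n)) with hemp | ⟨t0, ht0⟩
  · rw [hemp, Finset.card_empty]
    exact Nat.zero_le _
  rw [Finset.mem_filter, Fintype.mem_piFinset] at ht0
  have hpf : ∀ p ∈ n.primeFactorsList, z ≤ p := by
    intro p hp
    have hpp := Nat.prime_of_mem_primeFactorsList hp
    have hd : p ∣ ∏ i, t0 i := by rw [ht0.2]; exact Nat.dvd_of_mem_primeFactorsList hp
    obtain ⟨i, -, hi⟩ := (Prime.dvd_finsetProd_iff hpp.prime t0).1 hd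
    exact hE _ (ht0.1 i) p hpp hi
  have hlen : n.primeFactorsList.length ≤ Nat.log z n := by
    apply Nat.le_log_of_pow_le (by omega)
    have h2 : z ^ n.primeFactorsList.length ≤ n.primeFactorsList.prod :=
      List.pow_card_le_prod n.primeFactorsList z hpf
    rwa [Nat.prod_primeFactorsList hn0] at h2
  have h1 : ((Fintype.piFinset fun _ : Fin r => E).filter (fun t => ∏ i, t i = n)) ⊆ FF r n := by
    intro t ht
    rw [mem_FF hn0]
    exact (Finset.mem_filter.1 ht).2
  refine (Finset.card_le_card h1).trans ?_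
  have h2 := FF_mul hr n 1 one_ne_zero
  rw [mul_one] at h2
  refine h2.trans ?_
  calc r ^ n.primeFactorsList.length * (FF r 1).card
      ≤ r ^ n.primeFactorsList.length * 1 := Nat.mul_le_mul_left _ (FF_one r)
    _ = r ^ n.primeFactorsList.length := mul_one _
    _ ≤ r ^ Nat.log z n := Nat.pow_le_pow_right hr hlen

theorem rough_split (z n : ℕ) (hn : 1 ≤ n) :
    ∃ s u : ℕ, s ∈ Nat.smoothNumbers z ∧ 1 ≤ s ∧ 1 ≤ u ∧ n = s * u ∧
      ∀ p : ℕ, p.Prime → p ∣ u → z ≤ p := by
  have hn0 : n ≠ 0 := by omega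
  set M : Multiset ℕ := (n.primeFactorsList : Multiset ℕ) with hM
  set s : ℕ := (M.filter (fun p => p < z)).prod with hs
  set u : ℕ := (M.filter (fun p => ¬ p < z)).prod with hu
  have hMp : ∀ p ∈ M, p.Prime := by
    intro p hp
    rw [hM, Multiset.mem_coe] at hp
    exact Nat.prime_of_mem_primeFactorsList hp
  have hus : s * u = n := by
    rw [hu, hs, ← Multiset.prod_add, Multiset.filter_add_not, hM, Multiset.prod_coe]
    exact Nat.prod_primeFactorsList hn0
  have hs0 : s ≠ 0 := by
    rintro h0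
    rw [h0, zero_mul] at hus
    omega
  have hu0 : u ≠ 0 := by
    rintro h0
    rw [h0, mul_zero] at hus
    omega
  refine ⟨s, u, ?_, Nat.one_le_iff_ne_zero.2 hs0, Nat.one_le_iff_ne_zero.2 hu0, hus.symm, ?_⟩
  · rw [Nat.mem_smoothNumbers']
    intro p hpp hd
    obtain ⟨q, hq, hpq⟩ := Prime.exists_mem_multiset_dvd hpp.prime hd
    rw [Multiset.mem_filter] at hq
    have := (Nat.prime_dvd_prime_iff_eq hpp (hMp q hq.1)).1 hpq
    rw [this]
    exact hq.2
  · intro p hpp hd
    obtain ⟨q, hq, hpq⟩ := Prime.exists_mem_multiset_dvd hpp.prime hd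
    rw [Multiset.mem_filter] at hq
    have := (Nat.prime_dvd_prime_iff_eq hpp (hMp q hq.1)).1 hpq
    rw [this]
    exact not_lt.1 hq.2

end Pool.Agent.ARU
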