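import Pool.Agent.ARU.Rep2
import Pool.Agent.Helper8.ArtinOpt
import Pool.Agent.Helper6.ArtinBounds

set_option autoImplicit false

/-!
# ARU module RGS: regime III at one scale, rough variable, general range `exp ((log N)^B)`
-/

namespace Pool.Agent.ARU

open Pool.Agent.Helper8.ArtinLS Pool.Agent.Helper8.ArtinC Pool.Agent.Helper6

private lemma growthB {B δ : ℝ} (hB : 1 ≤ B) (hδ : 0 < δ) (C : ℝ) :
    ∃ L₀ : ℝ, ∀ L : ℝ, L₀ ≤ L → 16 ≤ L ∧ C + 4 * Real.log (1 + L ^ B) ≤ δ / 4 * L ∧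
      Real.log (6 / δ) ≤ 3 * (δ / 16) * Real.log L ∧
      Real.log 2 ≤ 2 * B * (δ / 16) * Real.log L := by
  have h1 : ∀ᶠ L : ℝ in Filter.atTop, 16 ≤ L := Filter.eventually_ge_atTop 16
  have hB0 : 0 < B := by linarith
  have h2 := Real.isLittleO_log_id_atTop.bound (show (0 : ℝ) < δ / (32 * B) by positivity)
  have h3 : ∀ᶠ L : ℝ in Filter.atTop, (C + 4 * Real.log 2) * (8 / δ) ≤ L :=
    Filter.eventually_ge_atTop _
  have h4 : ∀ᶠ L : ℝ in Filter.atTop, Real.log (6 / δ) / (3 * (δ / 16)) ≤ Real.log L :=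
    Real.tendsto_log_atTop.eventually_ge_atTop _
  have h5 : ∀ᶠ L : ℝ in Filter.atTop, Real.log 2 / (2 * B * (δ / 16)) ≤ Real.log L :=
    Real.tendsto_log_atTop.eventually_ge_atTop _
  obtain ⟨L₀, h⟩ := Filter.eventually_atTop.mp (h1.and (h2.and (h3.and (h4.and h5))))
  refine ⟨L₀, fun L hL => ?_⟩
  obtain ⟨g1, g2, g3, g4, g5⟩ := h L hL
  have hL0 : (0 : ℝ) < L := by linarith
  have hlog0 : 0 ≤ Real.log L := Real.log_nonneg (by linarith)
  refine ⟨g1, ?_, ?_, ?_⟩
  · rw [id, Real.norm_of_nonneg hlog0, Real.norm_of_nonneg hL0.le] at g2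
    have hLB : 1 ≤ L ^ B := Real.one_le_rpow (by linarith) hB0.le
    have h7 : Real.log (1 + L ^ B) ≤ Real.log 2 + B * Real.log L := by
      calc Real.log (1 + L ^ B) ≤ Real.log (2 * L ^ B) :=
            Real.log_le_log (by positivity) (by linarith)
        _ = Real.log 2 + B * Real.log L := by
            rw [Real.log_mul (by norm_num) (by positivity), Real.log_rpow hL0]
    have h8 : C + 4 * Real.log 2 ≤ δ / 8 * L := by
      have h9 : (C + 4 * Real.log 2) * (8 / δ) * (δ / 8) = C + 4 * Real.log 2 := by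
        field_simp
      have h10 := mul_le_mul_of_nonneg_right g3 (show (0 : ℝ) ≤ δ / 8 by positivity)
      linarith
    have h11 : 4 * (B * Real.log L) ≤ δ / 8 * L := by
      calc 4 * (B * Real.log L) ≤ 4 * (B * (δ / (32 * B) * L)) := by gcongr
        _ = δ / 8 * L := by field_simp; ring
    linarith
  · rw [div_le_iff₀ (by positivity)] at g4
    linarith
  · rw [div_le_iff₀ (by positivity)] at g5
    linarith

private lemma natLog_mul_le' {b n : ℕ} (hb : 2 ≤ b) (hn : n ≠ 0) :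
    (Nat.log b n : ℝ) * Real.log b ≤ Real.log n := by
  have h1 : b ^ Nat.log b n ≤ n := Nat.pow_log_le_self b hn
  have h2 : ((b : ℝ)) ^ Nat.log b n ≤ n := by exact_mod_cast h1
  rw [← Real.log_pow]
  have hb0 : (0 : ℝ) < b := by exact_mod_cast (by omega : 0 < b)
  exact Real.log_le_log (by positivity) h2

lemma omega_le {m N : ℕ} (hm : 1 ≤ m) (hmN : m ≤ N) :
    (m.primeFactors.card : ℝ) ≤ 2 * Real.log N := by
  have h2 : 2 ^ m.primeFactors.card ≤ m := by
    calc 2 ^ m.primeFactors.card = ∏ _p ∈ m.primeFactors, 2 := by rw [Finset.prod_const]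
      _ ≤ ∏ p ∈ m.primeFactors, p :=
          Finset.prod_le_prod' fun p hp => (Nat.prime_of_mem_primeFactors hp).two_le
      _ ≤ m := Nat.le_of_dvd (by omega) (Nat.prod_primeFactors_dvd m)
  have h3 : (2 : ℝ) ^ m.primeFactors.card ≤ m := by exact_mod_cast h2
  have h4 : (m.primeFactors.card : ℝ) * Real.log 2 ≤ Real.log m := by
    rw [← Real.log_pow]
    exact Real.log_le_log (by positivity) h3
  have hm0 : (0 : ℝ) < m := by exact_mod_cast (by omega : 0 < m)
  have h5 : Real.log m ≤ Real.log N := Real.log_le_log hm0 (by exact_mod_cast hmN)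
  have h6 : (1 : ℝ) / 2 ≤ Real.log 2 := by linarith [Real.log_two_gt_d9]
  have h8 : (0 : ℝ) ≤ (m.primeFactors.card : ℝ) := Nat.cast_nonneg _
  nlinarith

lemma omegaX_le' {m x N : ℕ} (hm : 1 ≤ m) (hmN : m ≤ N) :
    omegaX m x ≤ 2 * Real.log N := by
  have h1 : ((Finset.range (x + 1)).filter (fun p : ℕ => p.Prime ∧ p ∣ m)) ⊆ m.primeFactors := by
    intro p hp
    rw [Finset.mem_filter] at hp
    exact Nat.mem_primeFactors.mpr ⟨hp.2.1, hp.2.2, by omega⟩
  unfold omegaX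
  have h7 : ((((Finset.range (x + 1)).filter (fun p : ℕ => p.Prime ∧ p ∣ m)).card : ℕ) : ℝ) ≤
      (m.primeFactors.card : ℝ) := by exact_mod_cast Finset.card_le_card h1
  exact h7.trans (omega_le hm hmN)

/-- the smoothness parameter -/
private lemma z_bound {B δ L : ℝ} (hB : 1 ≤ B) (hδ : 0 < δ) (hδ1 : δ ≤ 1) (h16 : 16 ≤ L)
    (h2 : Real.log 2 ≤ 2 * B * (δ / 16) * Real.log L) :
    2 ≤ ⌊L ^ (2 * B * (1 - δ / 16))⌋₊ ∧
      2 * B * (1 - δ / 8) * Real.log L ≤ Real.log (⌊L ^ (2 * B * (1 - δ / 16))⌋₊ : ℝ) := by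
  have hL0 : 0 < L := by linarith
  set w : ℝ := L ^ (2 * B * (1 - δ / 16)) with hw
  have h1 : (16 : ℝ) ≤ w := by
    calc (16 : ℝ) ≤ L := h16
      _ = L ^ (1 : ℝ) := (Real.rpow_one L).symm
      _ ≤ w := Real.rpow_le_rpow_of_exponent_le (by linarith) (by nlinarith)
  have h3 : 2 ≤ ⌊w⌋₊ := Nat.le_floor (by push_cast; linarith)
  refine ⟨h3, ?_⟩
  have h4 : w / 2 ≤ (⌊w⌋₊ : ℝ) := by
    have := Nat.lt_floor_add_one w
    linarith
  have h5 : Real.log (w / 2) = 2 * B * (1 - δ / 16) * Real.log L - Real.log 2 := by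
    rw [Real.log_div (by linarith) (by norm_num), hw, Real.log_rpow hL0]
  have h6 := Real.log_le_log (by linarith) h4
  rw [h5] at h6
  linarith

theorem scale_rough (B δ ε : ℝ) (hB : 1 ≤ B) (hδ : 0 < δ) (hδ1 : δ ≤ 1) (hε : 0 < ε) :
    ∃ A : ℝ, 0 < A ∧ ∃ N₀ : ℕ, 2 ≤ N₀ ∧ ∀ x N : ℕ, N₀ ≤ N →
      (N : ℝ) ^ A ≤ x → (x : ℝ) ≤ Real.exp ((Real.log N) ^ B) →
      ∀ a : ℤ, a ≠ 0 → a.natAbs ≤ N → ∀ M : ℕ, M ≤ N → ∀ E : Finset ℕ,
      (∀ m ∈ E, 1 ≤ m ∧ m ≤ M) →
      (∀ m ∈ E, ∀ p : ℕ, p.Prime → p ∣ m → ⌊(Real.log N) ^ (2 * B * (1 - δ / 16))⌋₊ ≤ p) →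
      (∀ m ∈ E, ε * Nat.primeCounting x < |artinP (a * (m : ℤ)) x - artinEC x|) →
      (E.card : ℝ) ≤ (N : ℝ) ^ δ * (M : ℝ) ^ (1 - 1 / (2 * B)) := by
  have hB0 : 0 < B := by linarith
  obtain ⟨L₀, hgrow⟩ := growthB hB hδ (Real.log (16 / ε ^ 2))
  obtain ⟨X₁, hX₁3, hX₁⟩ := pi_lower
  have hev : ∀ᶠ N : ℕ in Filter.atTop, L₀ ≤ Real.log N :=
    (Real.tendsto_log_atTop.comp tendsto_natCast_atTop_atTop).eventually_ge_atTop _
  have hev2 : ∀ᶠ N : ℕ in Filter.atTop, 40 / ε ≤ (N : ℝ) :=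
    tendsto_natCast_atTop_atTop.eventually_ge_atTop _
  have hev3 : ∀ᶠ N : ℕ in Filter.atTop, X₁ ≤ N := Filter.eventually_ge_atTop _
  obtain ⟨N₁, hN₁⟩ := Filter.eventually_atTop.mp (hev.and (hev2.and hev3))
  refine ⟨4 / δ, by positivity, max N₁ 2, le_max_right _ _, ?_⟩
  intro x N hN hxl hxu a ha0 haN M hMN E hE hrough hbad
  obtain ⟨hLN, hNε, hNX⟩ := hN₁ N ((le_max_left _ _).trans hN)
  have hN2 : 2 ≤ N := (le_max_right _ _).trans hN
  obtain ⟨h16, hG, h3, h4⟩ := hgrow (Real.log N) hLN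
  set L := Real.log N with hLdef
  have hL0 : (0 : ℝ) < L := by linarith
  have hN0 : (0 : ℝ) < N := by exact_mod_cast (by omega : 0 < N)
  have hN1 : (1 : ℝ) ≤ N := by exact_mod_cast (by omega : 1 ≤ N)
  have hexpL : Real.exp L = N := Real.exp_log hN0
  set σ : ℝ := 1 - 1 / (2 * B) with hσ
  have hσ1 : 1 / 2 ≤ σ := by
    have : 1 / (2 * B) ≤ 1 / 2 := by
      apply one_div_le_one_div_of_le (by norm_num); linarith
    rw [hσ]; linarith
  have hσ2 : σ < 1 := by
    have : 0 < 1 / (2 * B) := by positivity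
    rw [hσ]; linarith
  -- trivial case
  rcases Finset.eq_empty_or_nonempty E with hemp | ⟨m₀, hm₀⟩
  · rw [hemp, Finset.card_empty, Nat.cast_zero]; positivity
  have hM1 : 1 ≤ M := (hE m₀ hm₀).1.trans (hE m₀ hm₀).2
  have hM1r : (1 : ℝ) ≤ M := by exact_mod_cast hM1
  have hM0 : (0 : ℝ) < M := by linarith
  have hMNr : (M : ℝ) ≤ N := by exact_mod_cast hMN
  by_cases hMsmall : (M : ℝ) ≤ (N : ℝ) ^ (δ / 2)
  · have hEM : (E.card : ℝ) ≤ M := by
      have h5 : E ⊆ Finset.Icc 1 M := fun m hm => Finset.mem_Icc.mpr (hE m hm)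
      have h6 := Finset.card_le_card h5
      rw [Nat.card_Icc] at h6
      exact_mod_cast (by omega : E.card ≤ M)
    calc (E.card : ℝ) ≤ M := hEM
      _ = (M : ℝ) ^ (1 - σ) * (M : ℝ) ^ σ := by
          rw [← Real.rpow_add hM0]; simp
      _ ≤ (N : ℝ) ^ δ * (M : ℝ) ^ σ := by
          apply mul_le_mul_of_nonneg_right _ (by positivity)
          calc (M : ℝ) ^ (1 - σ) ≤ (M : ℝ) ^ (1 : ℝ) :=
                Real.rpow_le_rpow_of_exponent_le hM1r (by linarith)
            _ = M := Real.rpow_one _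
            _ ≤ (N : ℝ) ^ (δ / 2) := hMsmall
            _ ≤ (N : ℝ) ^ δ := Real.rpow_le_rpow_of_exponent_le hN1 (by linarith)
  push Not at hMsmall
  set K := Real.log M with hKdef
  have hKL : K ≤ L := Real.log_le_log hM0 hMNr
  have hKlow : δ / 2 * L < K := by
    have h5 := Real.log_lt_log (by positivity) hMsmall
    rwa [Real.log_rpow hN0] at h5
  have hK0 : 0 < K := lt_trans (by positivity) hKlow
  have hexpK : Real.exp K = M := Real.exp_log hM0
  have hA4 : (4 : ℝ) ≤ 4 / δ := by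
    rw [le_div_iff₀ hδ]
    linarith
  have hN4 : (N : ℝ) ^ 4 ≤ x := by
    calc (N : ℝ) ^ 4 = (N : ℝ) ^ ((4 : ℕ) : ℝ) := (Real.rpow_natCast _ 4).symm
      _ ≤ (N : ℝ) ^ (4 / δ) := Real.rpow_le_rpow_of_exponent_le hN1 (by push_cast; exact hA4)
      _ ≤ x := hxl
  have hNx : (N : ℝ) ≤ x := by
    have : (N : ℝ) ≤ (N : ℝ) ^ 4 := le_self_pow₀ hN1 (by norm_num)
    linarith
  have hNxn : N ≤ x := by exact_mod_cast hNx
  have hx0 : (0 : ℝ) < x := by linarith
  have hx1 : 1 ≤ x := by omega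
  set ℓ := Real.log x with hℓdef
  have hexpl : Real.exp ℓ = x := Real.exp_log hx0
  have hLℓ : L ≤ ℓ := Real.log_le_log hN0 hNx
  have hℓ0 : (0 : ℝ) < ℓ := by linarith
  have hℓA : 4 / δ * L ≤ ℓ := by
    have h5 := Real.log_le_log (by positivity) hxl
    rwa [Real.log_rpow hN0] at h5
  have hℓu : ℓ ≤ L ^ B := by
    have h5 := Real.log_le_log hx0 hxu
    rwa [Real.log_exp] at h5
  have hπ := hX₁ x (hNX.trans hNxn)
  -- the number r
  set r := ⌈2 * ℓ / K⌉₊ with hrdef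
  have hr_lo : 2 * ℓ / K ≤ r := Nat.le_ceil _
  have hr_hi : (r : ℝ) < 2 * ℓ / K + 1 := Nat.ceil_lt_add_one (by positivity)
  have hrL_lo : 2 * ℓ ≤ r * K := by rwa [div_le_iff₀ hK0] at hr_lo
  have hrL_hi : r * K ≤ 2 * ℓ + K := by
    have h5 := mul_le_mul_of_nonneg_right hr_hi.le hK0.le
    have h6 : (2 * ℓ / K + 1) * K = 2 * ℓ + K := by field_simp
    linarith
  have hr0' : (0 : ℝ) ≤ r := Nat.cast_nonneg _
  have hr8 : 8 / δ ≤ r := by
    have h5 : 8 / δ * L ≤ 2 * ℓ := by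
      have : 8 / δ * L = 2 * (4 / δ * L) := by ring
      linarith
    have h6 : 8 / δ * L ≤ r * L := by
      have : r * K ≤ r * L := mul_le_mul_of_nonneg_left hKL hr0'
      linarith
    exact le_of_mul_le_mul_right h6 hL0
  have hr1 : 1 ≤ r := by
    have h5 : (8 : ℝ) ≤ 8 / δ := by
      rw [le_div_iff₀ hδ]
      linarith
    have h6 : (1 : ℝ) ≤ r := by linarith
    exact_mod_cast h6
  have hr0 : (0 : ℝ) < r := by exact_mod_cast (by omega : 0 < r)
  have hLB1 : (1 : ℝ) ≤ L ^ (B - 1) := Real.one_le_rpow (by linarith) (by linarith)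
  have hr3 : (r : ℝ) ≤ 6 / δ * L ^ (B - 1) := by
    have h5 : ℓ ≤ L ^ (B - 1) * L := by
      have : L ^ (B - 1) * L = L ^ B := by
        rw [← Real.rpow_add_one hL0.ne']; congr 1; ring
      rw [this]; exact hℓu
    have h6 : 2 * ℓ / K ≤ 4 / δ * L ^ (B - 1) := by
      rw [div_le_iff₀ hK0]
      have h7 : 4 / δ * L ^ (B - 1) * (δ / 2 * L) ≤ 4 / δ * L ^ (B - 1) * K :=
        mul_le_mul_of_nonneg_left hKlow.le (by positivity)
      have h8 : 4 / δ * L ^ (B - 1) * (δ / 2 * L) = 2 * (L ^ (B - 1) * L) := by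
        field_simp; ring
      linarith
    have h9 : 1 ≤ 2 / δ * L ^ (B - 1) := by
      have h10 : 1 ≤ 2 / δ := by rw [le_div_iff₀ hδ]; linarith
      nlinarith
    have h11 : 6 / δ * L ^ (B - 1) = 4 / δ * L ^ (B - 1) + 2 / δ * L ^ (B - 1) := by ring
    linarith
  have hlogL0 : 0 < Real.log L := Real.log_pos (by linarith)
  have hlogr : Real.log r ≤ Real.log (6 / δ) + (B - 1) * Real.log L := by
    calc Real.log r ≤ Real.log (6 / δ * L ^ (B - 1)) := Real.log_le_log hr0 hr3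
      _ = _ := by rw [Real.log_mul (by positivity) (by positivity), Real.log_rpow hL0]
  -- the representation bound
  obtain ⟨hz2, hz⟩ := z_bound hB hδ hδ1 h16 h4
  set z := ⌊L ^ (2 * B * (1 - δ / 16))⌋₊ with hzdef
  set R := r ^ (Nat.log z (M ^ r)) with hR
  have hlogz0 : 0 < Real.log (z : ℝ) := by
    apply Real.log_pos
    have : (2 : ℝ) ≤ z := by exact_mod_cast hz2
    linarith
  have hrz : Real.log r ≤ ((B - 1) / (2 * B) + 3 * (δ / 16)) * Real.log z := by
    have h5 : 0 ≤ (B - 1) / (2 * B) + 3 * (δ / 16) := by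
      have : 0 ≤ (B - 1) / (2 * B) := div_nonneg (by linarith) (by positivity)
      positivity
    have h6 := mul_le_mul_of_nonneg_left hz h5
    refine le_trans (hlogr.trans ?_) h6
    have h7 : ((B - 1) / (2 * B) + 3 * (δ / 16)) * (2 * B * (1 - δ / 8) * Real.log L) =
        ((B - 1) + 6 * B * (δ / 16)) * (1 - δ / 8) * Real.log L := by
      field_simp
      ring
    rw [h7]
    have h8 : (B - 1) + 3 * (δ / 16) ≤ ((B - 1) + 6 * B * (δ / 16)) * (1 - δ / 8) := by
      have h9 : 0 ≤ δ * (B - 1) := mul_nonneg hδ.le (by linarith)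
      have h10 : δ * δ * B ≤ δ * B := by
        have : δ * (δ * B) ≤ 1 * (δ * B) := mul_le_mul_of_nonneg_right hδ1 (by positivity)
        nlinarith
      nlinarith
    have h11 : ((B - 1) + 3 * (δ / 16)) * Real.log L ≤
        ((B - 1) + 6 * B * (δ / 16)) * (1 - δ / 8) * Real.log L :=
      mul_le_mul_of_nonneg_right h8 hlogL0.le
    linarith
  have hMr0 : M ^ r ≠ 0 := pow_ne_zero _ (by omega)
  have hRb : (R : ℝ) ≤ Real.exp (r * K * ((B - 1) / (2 * B) + 3 * (δ / 16))) := by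
    have hk1 : (Nat.log z (M ^ r) : ℝ) * Real.log z ≤ r * K := by
      have h5 := natLog_mul_le' hz2 hMr0
      push_cast at h5
      rwa [Real.log_pow] at h5
    rw [hR]
    push_cast
    have e1 : (r : ℝ) ^ (Nat.log z (M ^ r)) = Real.exp ((Nat.log z (M ^ r) : ℝ) * Real.log r) := by
      rw [← Real.log_pow, Real.exp_log (by positivity)]
    rw [e1]
    apply Real.exp_le_exp.mpr
    have hk0 : (0 : ℝ) ≤ (Nat.log z (M ^ r) : ℝ) := Nat.cast_nonneg _
    have h5 : 0 ≤ (B - 1) / (2 * B) + 3 * (δ / 16) := by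
      have : 0 ≤ (B - 1) / (2 * B) := div_nonneg (by linarith) (by positivity)
      positivity
    calc (Nat.log z (M ^ r) : ℝ) * Real.log r
        ≤ (Nat.log z (M ^ r) : ℝ) * (((B - 1) / (2 * B) + 3 * (δ / 16)) * Real.log z) :=
          mul_le_mul_of_nonneg_left hrz hk0
      _ = (Nat.log z (M ^ r) : ℝ) * Real.log z * ((B - 1) / (2 * B) + 3 * (δ / 16)) := by ring
      _ ≤ r * K * ((B - 1) / (2 * B) + 3 * (δ / 16)) := mul_le_mul_of_nonneg_right hk1 h5
  have hRep : ∀ n : ℕ, ((Fintype.piFinset fun _ : Fin r => E).filter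
      (fun t => ∏ i, t i = n)).card ≤ R := by
    intro n
    have hprod : ∀ t ∈ (Fintype.piFinset fun _ : Fin r => E), 1 ≤ ∏ i, t i ∧ ∏ i, t i ≤ M ^ r := by
      intro t ht
      rw [Fintype.mem_piFinset] at ht
      constructor
      · exact Nat.one_le_iff_ne_zero.mpr (Finset.prod_ne_zero_iff.mpr fun i _ => by
          have := (hE _ (ht i)).1
          omega)
      · calc ∏ i, t i ≤ ∏ _i : Fin r, M := Finset.prod_le_prod' fun i _ => (hE _ (ht i)).2
          _ = M ^ r := by simp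
    by_cases hn : 1 ≤ n ∧ n ≤ M ^ r
    · refine (card_rep_rough r z n hr1 hz2 hn.1 E hrough).trans ?_
      rw [hR]
      exact Nat.pow_le_pow_right hr1 (Nat.log_mono_right hn.2)
    · have h5 : (Fintype.piFinset fun _ : Fin r => E).filter (fun t => ∏ i, t i = n) = ∅ := by
        rw [Finset.filter_eq_empty_iff]
        intro t ht h6
        rw [← h6] at hn
        exact hn (hprod t ht)
      rw [h5, Finset.card_empty]
      exact Nat.zero_le _
  -- the threshold
  have hap : (a.natAbs.primeFactors.card : ℝ) ≤ 2 * L := omega_le (Int.natAbs_pos.mpr ha0) haN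
  have hsmall : 1 + 4 * L ≤ ε / 2 * Nat.primeCounting x := by
    have h5 : L ≤ N := by
      have := Real.log_le_sub_one_of_pos hN0
      linarith
    have h6 : ℓ ≤ 2 * Real.sqrt x := by
      have h7 := Real.log_le_sub_one_of_pos (Real.sqrt_pos.mpr hx0)
      rw [Real.log_sqrt hx0.le] at h7
      linarith
    have h7 : (N : ℝ) ^ 2 ≤ Real.sqrt x := by
      rw [show (N : ℝ) ^ 2 = Real.sqrt (((N : ℝ) ^ 2) ^ 2) by rw [Real.sqrt_sq (by positivity)]]
      refine Real.sqrt_le_sqrt ?_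
      have h8 : ((N : ℝ) ^ 2) ^ 2 = (N : ℝ) ^ 4 := by ring
      rw [h8]
      exact hN4
    have hsq := Real.mul_self_sqrt hx0.le
    have hsq0 : 0 < Real.sqrt x := Real.sqrt_pos.mpr hx0
    have h8 : (N : ℝ) ^ 2 / 4 ≤ Nat.primeCounting x := by
      refine le_trans ?_ hπ
      rw [le_div_iff₀ (by positivity)]
      calc (N : ℝ) ^ 2 / 4 * (2 * ℓ) ≤ Real.sqrt x / 4 * (2 * (2 * Real.sqrt x)) := by
            apply mul_le_mul _ (by linarith) (by positivity) (by positivity)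
            linarith
        _ = Real.sqrt x * Real.sqrt x := by ring
        _ = x := hsq
    have h9 : 40 ≤ ε * N := by
      rw [div_le_iff₀ hε] at hNε
      linarith
    have h10 : 1 + 4 * (N : ℝ) ≤ 5 * N := by linarith
    have h11 : 40 * (N : ℝ) ≤ ε * N * N := mul_le_mul_of_nonneg_right h9 hN0.le
    have h12 : ε / 2 * ((N : ℝ) ^ 2 / 4) ≤ ε / 2 * Nat.primeCounting x :=
      mul_le_mul_of_nonneg_left h8 (by positivity)
    have h13 : ε / 2 * ((N : ℝ) ^ 2 / 4) = ε * N * N / 8 := by ring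
    linarith
  set T := ε / 2 * (Nat.primeCounting x : ℝ) with hT
  have hT0 : 0 ≤ T := by positivity
  have hTD : ∀ m ∈ E, T ≤ |DC a m x| := by
    intro m hm
    have h5 := artinC_decomp a ha0 m x
    have h6 := omegaX_le' (x := x) (hE m hm).1 ((hE m hm).2.trans hMN)
    have h7 := hbad m hm
    have h8 : |artinP (a * (m : ℤ)) x - artinEC x| ≤
        |artinP (a * (m : ℤ)) x - artinEC x - DC a m x| + |DC a m x| := by
      have := abs_add_le (artinP (a * (m : ℤ)) x - artinEC x - DC a m x) (DC a m x)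
      rwa [sub_add_cancel] at this
    linarith
  have hmain := exceptional_opt a x M r R hx1 hr1 E (fun m hm => (hE m hm).2) hRep T hT0 hTD
  -- M ^ r ≤ x ^ 2 M
  have hMr : (M : ℝ) ^ r ≤ (x : ℝ) ^ 2 * M := by
    have h5 : (M : ℝ) ^ r = Real.exp (r * K) := by
      rw [hKdef, ← Real.log_pow, Real.exp_log (by positivity)]
    have h6 : (x : ℝ) ^ 2 * M = Real.exp (2 * ℓ + K) := by
      rw [Real.exp_add, two_mul, Real.exp_add, hexpl, hexpK]
      ring
    rw [h5, h6]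
    exact Real.exp_le_exp.mpr hrL_hi
  have hMr1 : (1 : ℝ) ≤ (M : ℝ) ^ r := one_le_pow₀ hM1r
  have hfac : (x : ℝ) ^ 2 + 4 * Real.pi * ((M : ℝ) ^ r + 1) ≤ 28 * ((x : ℝ) ^ 2 * M) := by
    have h5 : Real.pi < 3.15 := Real.pi_lt_d2
    have h6 : (x : ℝ) ^ 2 ≤ (x : ℝ) ^ 2 * M := le_mul_of_one_le_right (by positivity) hM1r
    have h7 : 4 * Real.pi * ((M : ℝ) ^ r + 1) ≤ 4 * 3.15 * (2 * ((x : ℝ) ^ 2 * M)) := by
      apply mul_le_mul (by linarith) (by linarith) (by positivity) (by norm_num)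
    nlinarith [show (0 : ℝ) ≤ (x : ℝ) ^ 2 * M by positivity]
  -- T ^ 2
  have hTlow : ε * x / (4 * ℓ) ≤ T := by
    rw [hT]
    calc ε * x / (4 * ℓ) = ε / 2 * (x / (2 * ℓ)) := by
          field_simp
          ring
      _ ≤ ε / 2 * (Nat.primeCounting x : ℝ) := mul_le_mul_of_nonneg_left hπ (by positivity)
  set G := 16 * ℓ ^ 2 * (1 + ℓ) ^ 2 / ε ^ 2 with hGdef
  have hG0 : 0 < G := by positivity
  have hGT : ((x : ℝ) * (1 + ℓ)) ^ 2 ≤ G * T ^ 2 := by
    have h5 : (ε * x / (4 * ℓ)) ^ 2 ≤ T ^ 2 := pow_le_pow_left₀ (by positivity) hTlow 2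
    calc ((x : ℝ) * (1 + ℓ)) ^ 2 = G * (ε * x / (4 * ℓ)) ^ 2 := by
          rw [hGdef]
          field_simp
          ring
      _ ≤ G * T ^ 2 := mul_le_mul_of_nonneg_left h5 hG0.le
  have hTpos : 0 < T := lt_of_lt_of_le (by positivity) hTlow
  -- conclusion for the r-th power
  have hpow : (E.card : ℝ) ^ r ≤ R * G ^ r * (28 * M * x) := by
    have h5 : (x : ℝ) * ((E.card : ℝ) * T ^ 2) ^ r ≤
        R * (G * T ^ 2) ^ r * (28 * ((x : ℝ) ^ 2 * M)) := by
      refine hmain.trans ?_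
      refine mul_le_mul ?_ hfac (by positivity) (by positivity)
      exact mul_le_mul_of_nonneg_left (pow_le_pow_left₀ (by positivity) hGT r) (Nat.cast_nonneg _)
    rw [mul_pow (E.card : ℝ) (T ^ 2) r, mul_pow G (T ^ 2) r] at h5
    have h6 : 0 < (x : ℝ) * (T ^ 2) ^ r := by positivity
    have h7 : (E.card : ℝ) ^ r * ((x : ℝ) * (T ^ 2) ^ r) ≤
        (R * G ^ r * (28 * M * x)) * ((x : ℝ) * (T ^ 2) ^ r) := by
      calc (E.card : ℝ) ^ r * ((x : ℝ) * (T ^ 2) ^ r)
          = (x : ℝ) * ((E.card : ℝ) ^ r * (T ^ 2) ^ r) := by ring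
        _ ≤ R * (G ^ r * (T ^ 2) ^ r) * (28 * ((x : ℝ) ^ 2 * M)) := h5
        _ = _ := by ring
    exact le_of_mul_le_mul_right h7 h6
  have hGb : G ≤ Real.exp (δ / 4 * L) := by
    have h5 : Real.log G ≤ δ / 4 * L := by
      refine le_trans ?_ hG
      have hLB0 : 0 < L ^ B := Real.rpow_pos_of_pos hL0 _
      have h6 : G ≤ 16 / ε ^ 2 * (1 + L ^ B) ^ 4 := by
        rw [hGdef]
        have h7 : ℓ ^ 2 ≤ (1 + L ^ B) ^ 2 := pow_le_pow_left₀ hℓ0.le (by linarith) 2
        have h8 : (1 + ℓ) ^ 2 ≤ (1 + L ^ B) ^ 2 := pow_le_pow_left₀ (by linarith) (by linarith) 2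
        calc 16 * ℓ ^ 2 * (1 + ℓ) ^ 2 / ε ^ 2 = 16 / ε ^ 2 * (ℓ ^ 2 * (1 + ℓ) ^ 2) := by ring
          _ ≤ 16 / ε ^ 2 * ((1 + L ^ B) ^ 2 * (1 + L ^ B) ^ 2) := by
              refine mul_le_mul_of_nonneg_left ?_ (by positivity)
              exact mul_le_mul h7 h8 (by positivity) (by positivity)
          _ = _ := by ring
      calc Real.log G ≤ Real.log (16 / ε ^ 2 * (1 + L ^ B) ^ 4) := Real.log_le_log hG0 h6
        _ = Real.log (16 / ε ^ 2) + 4 * Real.log (1 + L ^ B) := by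
            rw [Real.log_mul (by positivity) (by positivity), Real.log_pow]
            push_cast
            ring
    calc G = Real.exp (Real.log G) := (Real.exp_log hG0).symm
      _ ≤ _ := Real.exp_le_exp.mpr h5
  have h28 : (28 : ℝ) ≤ Real.exp 4 := by
    have h5 := Real.exp_one_gt_d9
    calc (28 : ℝ) ≤ 2.7 ^ 4 := by norm_num
      _ ≤ (Real.exp 1) ^ 4 := pow_le_pow_left₀ (by norm_num) (by linarith) 4
      _ = Real.exp 4 := by
          rw [← Real.exp_nat_mul]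
          norm_num
  have hlast : (28 : ℝ) * M * x ≤ Real.exp (r * L * (δ / 4) + r * K / 2) := by
    calc (28 : ℝ) * M * x ≤ Real.exp 4 * M * x := by
          refine mul_le_mul_of_nonneg_right ?_ hx0.le
          exact mul_le_mul_of_nonneg_right h28 hM0.le
      _ = Real.exp (4 + K + ℓ) := by
          rw [Real.exp_add, Real.exp_add, hexpK, hexpl]
      _ ≤ _ := by
          refine Real.exp_le_exp.mpr ?_
          have h5 : 2 * L ≤ r * L * (δ / 4) := by
            have h6 : 8 / δ * (L * (δ / 4)) ≤ r * (L * (δ / 4)) :=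
              mul_le_mul_of_nonneg_right hr8 (by positivity)
            have h7 : 8 / δ * (L * (δ / 4)) = 2 * L := by
              field_simp
              ring
            linarith
          linarith
  have hfin : (E.card : ℝ) ^ r ≤ ((N : ℝ) ^ δ * (M : ℝ) ^ σ) ^ r := by
    refine hpow.trans ?_
    have h5 : ((N : ℝ) ^ δ * (M : ℝ) ^ σ) ^ r = Real.exp (r * (L * δ + K * σ)) := by
      rw [Real.rpow_def_of_pos hN0, Real.rpow_def_of_pos hM0, ← Real.exp_add, ← Real.exp_nat_mul]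
    have h6 : G ^ r ≤ Real.exp (r * (δ / 4 * L)) := by
      rw [Real.exp_nat_mul]
      exact pow_le_pow_left₀ hG0.le hGb r
    calc (R : ℝ) * G ^ r * (28 * M * x)
        ≤ Real.exp (r * K * ((B - 1) / (2 * B) + 3 * (δ / 16))) * Real.exp (r * (δ / 4 * L)) *
          Real.exp (r * L * (δ / 4) + r * K / 2) := by
          refine mul_le_mul (mul_le_mul hRb h6 (by positivity) (by positivity)) hlast
            (by positivity) (by positivity)
      _ = Real.exp (r * K * ((B - 1) / (2 * B) + 3 * (δ / 16)) + r * (δ / 4 * L) +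
          (r * L * (δ / 4) + r * K / 2)) := by
          rw [← Real.exp_add, ← Real.exp_add]
      _ ≤ ((N : ℝ) ^ δ * (M : ℝ) ^ σ) ^ r := by
          rw [h5]
          refine Real.exp_le_exp.mpr ?_
          have h7 : (B - 1) / (2 * B) = σ - 1 / 2 := by
            rw [hσ]; field_simp; ring
          rw [h7]
          have h8 : r * K * (3 * (δ / 16)) ≤ r * L * (3 * (δ / 16)) := by
            apply mul_le_mul_of_nonneg_right _ (by positivity)
            exact mul_le_mul_of_nonneg_left hKL hr0.le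
          have h9 : 0 ≤ r * L * δ := by positivity
          nlinarith
  exact le_of_pow_le_pow_left₀ (by omega) (by positivity) hfin

end Pool.Agent.ARU
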