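import Pool.Agent.ARU.Rep
import Pool.Agent.Helper8.ArtinOpt
import Pool.Agent.Helper6.ArtinBounds

set_option autoImplicit false

/-!
# ARU module RG3: regime III at one scale

`x ≥ N^A`, `log x ≤ (log N)^(1+τ)`.  `T = (ε/2) π(x)`; by `artinC_decomp`
`|artinP (a m) x - artinEC x - DC a m x| ≤ 1 + 0 + omegaX m x ≤ 1 + 2 log N ≤ (ε/2) π(x)`, so
`T ≤ |DC a m x|` for `m ∈ E` (`m ≥ 1`).  `r = ⌈2 log x / log N⌉ ≥ 2 A ≥ 8/δ`, so
`x^2 ≤ N^r ≤ x^2 N`.  `exceptional_opt` with `M = N` and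
`R = r ^ (Nat.log z (N^r)) * ((Nat.log 2 (N^r) + 1) ^ z) ^ r` (`card_rep`; for `n > N^r` or `n = 0`
there is no factorisation; monotonicity in `n`), `z = ⌊(log N)^(1/2)⌋`:
`x (|E| T^2)^r ≤ R (x (1 + log x))^(2r) (x^2 + 4π(N^r+1)) ≤ R (x(1+log x))^(2r) 28 x^2 N`
and `T^2 ≥ ε^2 x^2 / (16 log^2 x)` (`pi_lower`), so `|E|^r ≤ R G^r 28 N x` with
`G = 16 log^2 x (1+log x)^2 / ε^2 ≤ N^(δ/4)`.  Take `r`-th roots: `x^(1/r) ≤ N^(1/2)`,
`(28 N)^(1/r) ≤ N^(δ/4)` (`r ≥ 8/δ`), and `R^(1/r) ≤ N^(δ/4)`: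
`R ≤ exp(r (log N log r / log z + z log(2 r log N + 2)))`, with `r ≤ 3 (log N)^τ`,
`log r ≤ τ loglog N + 2`, `log z ≥ (loglog N)/4`, so the first term is
`≤ r log N (4 τ + 8/loglog N) ≤ r (δ/8) log N` for `τ = δ/64`, and the second is
`≤ r (log N)^(1/2) log(...) ≤ r (δ/8) log N`.
-/

namespace Pool.Agent.ARU

open Pool.Agent.Helper8.ArtinLS Pool.Agent.Helper8.ArtinC Pool.Agent.Helper6

private lemma growth {δ : ℝ} (hδ : 0 < δ) (C : ℝ) :
    ∃ L₀ : ℝ, ∀ L : ℝ, L₀ ≤ L → 16 ≤ L ∧ C + 4 * Real.log (1 + L ^ 2) ≤ δ / 4 * L ∧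
      4 * (Real.log 3 + δ / 64 * Real.log L) ≤ δ / 8 * Real.log L ∧
      Real.sqrt L * Real.log (7 * L ^ 2) ≤ δ / 8 * L := by
  have h1 : ∀ᶠ L : ℝ in Filter.atTop, 16 ≤ L := Filter.eventually_ge_atTop 16
  have h2 := Real.isLittleO_log_id_atTop.bound (show (0 : ℝ) < δ / 64 by positivity)
  have h3 : ∀ᶠ L : ℝ in Filter.atTop, (C + 4 * Real.log 2) * (8 / δ) ≤ L :=
    Filter.eventually_ge_atTop _
  have h4 : ∀ᶠ L : ℝ in Filter.atTop, 64 * Real.log 3 / δ ≤ Real.log L :=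
    Real.tendsto_log_atTop.eventually_ge_atTop _
  have h5 := (isLittleO_log_rpow_atTop (show (0 : ℝ) < 1 / 2 by norm_num)).bound
    (show (0 : ℝ) < δ / 32 by positivity)
  have h6 : ∀ᶠ L : ℝ in Filter.atTop, 16 * Real.log 7 / δ ≤ L ^ (1 / 2 : ℝ) :=
    (tendsto_rpow_atTop (show (0 : ℝ) < 1 / 2 by norm_num)).eventually_ge_atTop _
  obtain ⟨L₀, h⟩ := Filter.eventually_atTop.mp
    (h1.and (h2.and (h3.and (h4.and (h5.and h6)))))
  refine ⟨L₀, fun L hL => ?_⟩
  obtain ⟨g1, g2, g3, g4, g5, g6⟩ := h L hL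
  have hL0 : (0 : ℝ) < L := by linarith
  have hlog0 : 0 ≤ Real.log L := Real.log_nonneg (by linarith)
  refine ⟨g1, ?_, ?_, ?_⟩
  · rw [id, Real.norm_of_nonneg hlog0, Real.norm_of_nonneg hL0.le] at g2
    have h7 : Real.log (1 + L ^ 2) ≤ Real.log 2 + 2 * Real.log L := by
      calc Real.log (1 + L ^ 2) ≤ Real.log (2 * L ^ 2) :=
            Real.log_le_log (by positivity) (by nlinarith)
        _ = Real.log 2 + 2 * Real.log L := by
            rw [Real.log_mul (by norm_num) (by positivity), Real.log_pow]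
            push_cast
            ring
    have h8 : C + 4 * Real.log 2 ≤ δ / 8 * L := by
      have h9 : (C + 4 * Real.log 2) * (8 / δ) * (δ / 8) = C + 4 * Real.log 2 := by
        field_simp
      have h10 := mul_le_mul_of_nonneg_right g3 (show (0 : ℝ) ≤ δ / 8 by positivity)
      linarith
    linarith
  · rw [div_le_iff₀ hδ] at g4
    linarith
  · rw [Real.norm_of_nonneg hlog0, Real.norm_of_nonneg (by positivity)] at g5
    rw [← Real.sqrt_eq_rpow] at g5 g6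
    rw [Real.log_mul (by norm_num) (by positivity), Real.log_pow]
    push_cast
    rw [div_le_iff₀ hδ] at g6
    have h7 := Real.mul_self_sqrt hL0.le
    have h8 := Real.sqrt_nonneg L
    have h9 : Real.log 7 + 2 * Real.log L ≤ δ / 8 * Real.sqrt L := by linarith
    calc Real.sqrt L * (Real.log 7 + 2 * Real.log L) ≤ Real.sqrt L * (δ / 8 * Real.sqrt L) :=
          mul_le_mul_of_nonneg_left h9 h8
      _ = δ / 8 * (Real.sqrt L * Real.sqrt L) := by ring
      _ = δ / 8 * L := by rw [h7]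

private lemma natLog_mul_le {b n : ℕ} (hb : 2 ≤ b) (hn : n ≠ 0) :
    (Nat.log b n : ℝ) * Real.log b ≤ Real.log n := by
  have h1 : b ^ Nat.log b n ≤ n := Nat.pow_log_le_self b hn
  have h2 : ((b : ℝ)) ^ Nat.log b n ≤ n := by exact_mod_cast h1
  rw [← Real.log_pow]
  have hb0 : (0 : ℝ) < b := by exact_mod_cast (by omega : 0 < b)
  exact Real.log_le_log (by positivity) h2

private lemma omegaX_le {m x N : ℕ} (hm : 1 ≤ m) (hmN : m ≤ N) :
    omegaX m x ≤ 2 * Real.log N := by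
  have h1 : ((Finset.range (x + 1)).filter (fun p : ℕ => p.Prime ∧ p ∣ m)) ⊆ m.primeFactors := by
    intro p hp
    rw [Finset.mem_filter] at hp
    exact Nat.mem_primeFactors.mpr ⟨hp.2.1, hp.2.2, by omega⟩
  have h2 : 2 ^ m.primeFactors.card ≤ m := by
    calc 2 ^ m.primeFactors.card = ∏ _p ∈ m.primeFactors, 2 := by rw [Finset.prod_const]
      _ ≤ ∏ p ∈ m.primeFactors, p :=
          Finset.prod_le_prod' fun p hp => (Nat.prime_of_mem_primeFactors hp).two_le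
      _ ≤ m := Nat.le_of_dvd (by omega) (Nat.prod_primeFactors_dvd m)
  have h3 : (2 : ℝ) ^ m.primeFactors.card ≤ m := by exact_mod_cast h2
  have h4 : (m.primeFactors.card : ℝ) * Real.log 2 ≤ Real.log m := by
    rw [← Real.log_pow]
    exact Real.log_le_log (by positivity) h3
  have hm0 : (0 : ℝ) < m := by exact_mod_cast (by omega : 0 < m)
  have h5 : Real.log m ≤ Real.log N := Real.log_le_log hm0 (by exact_mod_cast hmN)
  have h6 : (1 : ℝ) / 2 ≤ Real.log 2 := by linarith [Real.log_two_gt_d9]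
  unfold omegaX
  have h7 : ((((Finset.range (x + 1)).filter (fun p : ℕ => p.Prime ∧ p ∣ m)).card : ℕ) : ℝ) ≤
      (m.primeFactors.card : ℝ) := by exact_mod_cast Finset.card_le_card h1
  have h8 : (0 : ℝ) ≤ (m.primeFactors.card : ℝ) := Nat.cast_nonneg _
  nlinarith

private lemma floor_sqrt {L : ℝ} (hL : 16 ≤ L) :
    2 ≤ ⌊Real.sqrt L⌋₊ ∧ Real.log L / 4 ≤ Real.log (⌊Real.sqrt L⌋₊ : ℝ) := by
  have h0 : (0 : ℝ) ≤ L := by linarith
  have h1 : (4 : ℝ) ≤ Real.sqrt L := by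
    rw [show (4 : ℝ) = Real.sqrt 16 by
      rw [show (16 : ℝ) = 4 ^ 2 by norm_num, Real.sqrt_sq (by norm_num)]]
    exact Real.sqrt_le_sqrt hL
  have h2 : 2 ≤ ⌊Real.sqrt L⌋₊ := Nat.le_floor (by push_cast; linarith)
  refine ⟨h2, ?_⟩
  set s := Real.sqrt (Real.sqrt L) with hs
  have h3 : (2 : ℝ) ≤ s := by
    rw [show (2 : ℝ) = Real.sqrt 4 by
      rw [show (4 : ℝ) = 2 ^ 2 by norm_num, Real.sqrt_sq (by norm_num)]]
    exact Real.sqrt_le_sqrt h1
  have h4 : s * s = Real.sqrt L := Real.mul_self_sqrt (Real.sqrt_nonneg _)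
  have h5 : s ≤ (⌊Real.sqrt L⌋₊ : ℝ) := by
    have := Nat.lt_floor_add_one (Real.sqrt L)
    nlinarith
  have h6 : Real.log s = Real.log L / 4 := by
    rw [hs, Real.log_sqrt (Real.sqrt_nonneg _), Real.log_sqrt h0]
    ring
  rw [← h6]
  exact Real.log_le_log (by linarith) h5

/-- The bound for the number of representations. -/
private lemma R_bound {δ L : ℝ} (hδ : 0 < δ) {N r : ℕ} (hN : 2 ≤ N) (hr : 1 ≤ r)
    (hL : L = Real.log N) (h16 : 16 ≤ L)
    (h3 : 4 * (Real.log 3 + δ / 64 * Real.log L) ≤ δ / 8 * Real.log L)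
    (h4 : Real.sqrt L * Real.log (7 * L ^ 2) ≤ δ / 8 * L)
    (hr2 : (r : ℝ) ≤ 3 * L ^ (δ / 64)) (hδ1 : δ ≤ 1) :
    (((r ^ (Nat.log ⌊Real.sqrt L⌋₊ (N ^ r)) *
      ((Nat.log 2 (N ^ r) + 1) ^ ⌊Real.sqrt L⌋₊) ^ r : ℕ)) : ℝ) ≤
      Real.exp (r * L * (δ / 4)) := by
  obtain ⟨hz2, hz⟩ := floor_sqrt h16
  set z := ⌊Real.sqrt L⌋₊ with hzdef
  set k := Nat.log z (N ^ r) with hk
  set b := Nat.log 2 (N ^ r) with hb
  have hL0 : (0 : ℝ) < L := by linarith
  have hr0 : (0 : ℝ) < r := by exact_mod_cast (by omega : 0 < r)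
  have hr1 : (1 : ℝ) ≤ r := by exact_mod_cast hr
  have hNr : N ^ r ≠ 0 := pow_ne_zero _ (by omega)
  have hlogNr : Real.log ((N ^ r : ℕ) : ℝ) = r * L := by
    push_cast
    rw [Real.log_pow, hL]
  have hloglog : 0 < Real.log L := Real.log_pos (by linarith)
  have hlogz : 0 < Real.log (z : ℝ) := lt_of_lt_of_le (by positivity) hz
  have hk1 : (k : ℝ) * Real.log z ≤ r * L := by
    rw [← hlogNr]
    exact natLog_mul_le hz2 hNr
  have hb1 : (b : ℝ) * Real.log 2 ≤ r * L := by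
    rw [← hlogNr]
    exact_mod_cast natLog_mul_le (le_refl 2) hNr
  have hb2 : (b : ℝ) ≤ 2 * (r * L) := by
    have h6 : (1 : ℝ) / 2 ≤ Real.log 2 := by linarith [Real.log_two_gt_d9]
    have h8 : (0 : ℝ) ≤ (b : ℝ) := Nat.cast_nonneg _
    nlinarith
  -- log r
  have hlogr : Real.log r ≤ Real.log 3 + δ / 64 * Real.log L := by
    calc Real.log r ≤ Real.log (3 * L ^ (δ / 64)) := Real.log_le_log hr0 hr2
      _ = Real.log 3 + δ / 64 * Real.log L := by
          rw [Real.log_mul (by norm_num) (by positivity), Real.log_rpow hL0]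
  have hlogr0 : 0 ≤ Real.log r := Real.log_nonneg hr1
  have hfirst : (k : ℝ) * Real.log r ≤ r * L * (δ / 8) := by
    have h5 : Real.log r ≤ δ / 8 * Real.log z := by
      have h6 : Real.log r ≤ δ / 32 * Real.log L := by linarith
      have h7 : δ / 32 * Real.log L ≤ δ / 8 * Real.log z := by nlinarith
      linarith
    have hk0 : (0 : ℝ) ≤ (k : ℝ) := Nat.cast_nonneg _
    calc (k : ℝ) * Real.log r ≤ (k : ℝ) * (δ / 8 * Real.log z) :=
          mul_le_mul_of_nonneg_left h5 hk0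
      _ = (k : ℝ) * Real.log z * (δ / 8) := by ring
      _ ≤ r * L * (δ / 8) := mul_le_mul_of_nonneg_right hk1 (by positivity)
  -- second
  have hLδ : L ^ (δ / 64) ≤ L := by
    calc L ^ (δ / 64) ≤ L ^ (1 : ℝ) :=
          Real.rpow_le_rpow_of_exponent_le (by linarith) (by linarith)
      _ = L := Real.rpow_one L
  have hb3 : (b : ℝ) + 1 ≤ 7 * L ^ 2 := by
    have h5 : (r : ℝ) ≤ 3 * L := by linarith
    have h6 : (r : ℝ) * L ≤ 3 * L * L := mul_le_mul_of_nonneg_right h5 hL0.le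
    nlinarith
  have hsecond : (r : ℝ) * (z * Real.log ((b : ℝ) + 1)) ≤ r * L * (δ / 8) := by
    have hb0 : (0 : ℝ) ≤ (b : ℝ) := Nat.cast_nonneg _
    have h5 : Real.log ((b : ℝ) + 1) ≤ Real.log (7 * L ^ 2) :=
      Real.log_le_log (by linarith) hb3
    have h6 : (z : ℝ) ≤ Real.sqrt L := Nat.floor_le (Real.sqrt_nonneg _)
    have h7 : 0 ≤ Real.log ((b : ℝ) + 1) := Real.log_nonneg (by linarith)
    calc (r : ℝ) * (z * Real.log ((b : ℝ) + 1)) ≤ r * (Real.sqrt L * Real.log (7 * L ^ 2)) := by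
          refine mul_le_mul_of_nonneg_left ?_ hr0.le
          exact mul_le_mul h6 h5 h7 (Real.sqrt_nonneg _)
      _ ≤ r * (δ / 8 * L) := mul_le_mul_of_nonneg_left h4 hr0.le
      _ = r * L * (δ / 8) := by ring
  have hbpos : (0 : ℝ) < (b : ℝ) + 1 := by positivity
  have e1 : (r : ℝ) ^ k = Real.exp (k * Real.log r) := by
    rw [← Real.log_pow, Real.exp_log (by positivity)]
  have e2 : (((b : ℝ) + 1) ^ z) ^ r = Real.exp (r * (z * Real.log ((b : ℝ) + 1))) := by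
    rw [← Real.log_pow, ← Real.log_pow, Real.exp_log (by positivity)]
  push_cast
  rw [e1, e2, ← Real.exp_add]
  apply Real.exp_le_exp.mpr
  linarith

theorem scale_three (δ ε : ℝ) (hδ : 0 < δ) (hδ1 : δ ≤ 1) (hε : 0 < ε) :
    ∃ A : ℝ, 0 < A ∧ ∃ τ : ℝ, 0 < τ ∧ ∃ N₀ : ℕ, 2 ≤ N₀ ∧ ∀ x N : ℕ, N₀ ≤ N →
      (N : ℝ) ^ A ≤ x → (x : ℝ) ≤ Real.exp ((Real.log N) ^ (1 + τ)) →
      ∀ a : ℤ, (a = 1 ∨ a = -1) → ∀ E : Finset ℕ, (∀ m ∈ E, 1 ≤ m ∧ m ≤ N) →
      (∀ m ∈ E, ε * Nat.primeCounting x < |artinP (a * (m : ℤ)) x - artinEC x|) →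
      (E.card : ℝ) ≤ (N : ℝ) ^ (1 / 2 + δ) := by
  obtain ⟨L₀, hgrow⟩ := growth hδ (Real.log (16 / ε ^ 2))
  obtain ⟨X₁, hX₁3, hX₁⟩ := pi_lower
  have hev : ∀ᶠ N : ℕ in Filter.atTop, L₀ ≤ Real.log N :=
    (Real.tendsto_log_atTop.comp tendsto_natCast_atTop_atTop).eventually_ge_atTop _
  have hev2 : ∀ᶠ N : ℕ in Filter.atTop, 24 / ε ≤ (N : ℝ) :=
    tendsto_natCast_atTop_atTop.eventually_ge_atTop _
  have hev3 : ∀ᶠ N : ℕ in Filter.atTop, X₁ ≤ N := Filter.eventually_ge_atTop _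
  obtain ⟨N₁, hN₁⟩ := Filter.eventually_atTop.mp (hev.and (hev2.and hev3))
  refine ⟨4 / δ, by positivity, δ / 64, by positivity, max N₁ 2, le_max_right _ _, ?_⟩
  intro x N hN hxl hxu a ha E hE hbad
  obtain ⟨hLN, hNε, hNX⟩ := hN₁ N ((le_max_left _ _).trans hN)
  have hN2 : 2 ≤ N := (le_max_right _ _).trans hN
  obtain ⟨h16, hG, h3, h4⟩ := hgrow (Real.log N) hLN
  set L := Real.log N with hLdef
  have hL0 : (0 : ℝ) < L := by linarith
  have hN0 : (0 : ℝ) < N := by exact_mod_cast (by omega : 0 < N)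
  have hN1 : (1 : ℝ) ≤ N := by exact_mod_cast (by omega : 1 ≤ N)
  have hexpL : Real.exp L = N := Real.exp_log hN0
  have hA4 : (4 : ℝ) ≤ 4 / δ := by
    rw [le_div_iff₀ hδ]
    linarith
  have hN4 : (N : ℝ) ^ 4 ≤ x := by
    calc (N : ℝ) ^ 4 = (N : ℝ) ^ ((4 : ℕ) : ℝ) := (Real.rpow_natCast _ 4).symm
      _ ≤ (N : ℝ) ^ (4 / δ) := Real.rpow_le_rpow_of_exponent_le hN1 (by push_cast; exact hA4)
      _ ≤ x := hxl
  have hNx : (N : ℝ) ≤ x := by
    have : (N : ℝ) ≤ (N : ℝ) ^ 4 := le_self_pow₀ hN1 (by norm_num)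
    linarith
  have hNxn : N ≤ x := by exact_mod_cast hNx
  have hx0 : (0 : ℝ) < x := by linarith
  have hx1 : 1 ≤ x := by omega
  set ℓ := Real.log x with hℓdef
  have hexpl : Real.exp ℓ = x := Real.exp_log hx0
  have hLℓ : L ≤ ℓ := Real.log_le_log hN0 hNx
  have hℓ0 : (0 : ℝ) < ℓ := by linarith
  have hℓA : 4 / δ * L ≤ ℓ := by
    have h5 := Real.log_le_log (by positivity) hxl
    rwa [Real.log_rpow hN0] at h5
  have hℓu : ℓ ≤ L ^ (1 + δ / 64) := by
    have h5 := Real.log_le_log hx0 hxu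
    rwa [Real.log_exp] at h5
  have hπ := hX₁ x (hNX.trans hNxn)
  -- the number r
  set r := ⌈2 * ℓ / L⌉₊ with hrdef
  have hr_lo : 2 * ℓ / L ≤ r := Nat.le_ceil _
  have hr_hi : (r : ℝ) < 2 * ℓ / L + 1 := Nat.ceil_lt_add_one (by positivity)
  have hrL_lo : 2 * ℓ ≤ r * L := by rwa [div_le_iff₀ hL0] at hr_lo
  have hrL_hi : r * L ≤ 2 * ℓ + L := by
    have h5 := mul_le_mul_of_nonneg_right hr_hi.le hL0.le
    have h6 : (2 * ℓ / L + 1) * L = 2 * ℓ + L := by field_simp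
    linarith
  have hr8 : 8 / δ ≤ r := by
    have h5 : 8 / δ * L ≤ 2 * ℓ := by
      have : 8 / δ * L = 2 * (4 / δ * L) := by ring
      linarith
    have h6 : 8 / δ * L ≤ r * L := by linarith
    exact le_of_mul_le_mul_right h6 hL0
  have hr1 : 1 ≤ r := by
    have h5 : (8 : ℝ) ≤ 8 / δ := by
      rw [le_div_iff₀ hδ]
      linarith
    have h6 : (1 : ℝ) ≤ r := by linarith
    exact_mod_cast h6
  have hr0 : (0 : ℝ) < r := by exact_mod_cast (by omega : 0 < r)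
  have hLτ : (1 : ℝ) ≤ L ^ (δ / 64) := Real.one_le_rpow (by linarith) (by positivity)
  have hr3 : (r : ℝ) ≤ 3 * L ^ (δ / 64) := by
    have h5 : ℓ / L ≤ L ^ (δ / 64) := by
      rw [div_le_iff₀ hL0]
      rw [Real.rpow_add hL0, Real.rpow_one] at hℓu
      linarith
    have h6 : 2 * ℓ / L = 2 * (ℓ / L) := by ring
    rw [h6] at hr_hi
    linarith
  -- the representation bound
  set z := ⌊Real.sqrt L⌋₊ with hzdef
  set R := r ^ (Nat.log z (N ^ r)) * ((Nat.log 2 (N ^ r) + 1) ^ z) ^ r with hR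
  have hz2 : 2 ≤ z := (floor_sqrt h16).1
  have hRb : (R : ℝ) ≤ Real.exp (r * L * (δ / 4)) :=
    R_bound hδ hN2 hr1 rfl h16 h3 h4 hr3 hδ1
  have hRep : ∀ n : ℕ, ((Fintype.piFinset fun _ : Fin r => E).filter
      (fun t => ∏ i, t i = n)).card ≤ R := by
    intro n
    have hprod : ∀ t ∈ (Fintype.piFinset fun _ : Fin r => E), 1 ≤ ∏ i, t i ∧ ∏ i, t i ≤ N ^ r := by
      intro t ht
      rw [Fintype.mem_piFinset] at ht
      constructor
      · exact Nat.one_le_iff_ne_zero.mpr (Finset.prod_ne_zero_iff.mpr fun i _ => by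
          have := (hE _ (ht i)).1
          omega)
      · calc ∏ i, t i ≤ ∏ _i : Fin r, N := Finset.prod_le_prod' fun i _ => (hE _ (ht i)).2
          _ = N ^ r := by simp
    by_cases hn : 1 ≤ n ∧ n ≤ N ^ r
    · refine (card_rep r z n hr1 hz2 hn.1 E (fun m hm => (hE m hm).1)).trans ?_
      rw [hR]
      refine Nat.mul_le_mul (Nat.pow_le_pow_right hr1 (Nat.log_mono_right hn.2)) ?_
      refine Nat.pow_le_pow_left (Nat.pow_le_pow_left ?_ z) r
      have := Nat.log_mono_right (b := 2) hn.2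
      omega
    · have h5 : (Fintype.piFinset fun _ : Fin r => E).filter (fun t => ∏ i, t i = n) = ∅ := by
        rw [Finset.filter_eq_empty_iff]
        intro t ht h6
        rw [← h6] at hn
        exact hn (hprod t ht)
      rw [h5, Finset.card_empty]
      exact Nat.zero_le _
  -- the threshold
  have ha0 : a ≠ 0 := by rcases ha with rfl | rfl <;> norm_num
  have hap : a.natAbs.primeFactors.card = 0 := by rcases ha with rfl | rfl <;> simp
  have hsmall : 1 + 2 * L ≤ ε / 2 * Nat.primeCounting x := by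
    have h5 : L ≤ N := by
      have := Real.log_le_sub_one_of_pos hN0
      linarith
    have h6 : ℓ ≤ 2 * Real.sqrt x := by
      have h7 := Real.log_le_sub_one_of_pos (Real.sqrt_pos.mpr hx0)
      rw [Real.log_sqrt hx0.le] at h7
      linarith
    have h7 : (N : ℝ) ^ 2 ≤ Real.sqrt x := by
      rw [show (N : ℝ) ^ 2 = Real.sqrt (((N : ℝ) ^ 2) ^ 2) by rw [Real.sqrt_sq (by positivity)]]
      refine Real.sqrt_le_sqrt ?_
      have h8 : ((N : ℝ) ^ 2) ^ 2 = (N : ℝ) ^ 4 := by ring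
      rw [h8]
      exact hN4
    have hsq := Real.mul_self_sqrt hx0.le
    have hsq0 : 0 < Real.sqrt x := Real.sqrt_pos.mpr hx0
    have h8 : (N : ℝ) ^ 2 / 4 ≤ Nat.primeCounting x := by
      refine le_trans ?_ hπ
      rw [le_div_iff₀ (by positivity)]
      calc (N : ℝ) ^ 2 / 4 * (2 * ℓ) ≤ Real.sqrt x / 4 * (2 * (2 * Real.sqrt x)) := by
            apply mul_le_mul _ (by linarith) (by positivity) (by positivity)
            linarith
        _ = Real.sqrt x * Real.sqrt x := by ring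
        _ = x := hsq
    have h9 : 24 ≤ ε * N := by
      rw [div_le_iff₀ hε] at hNε
      linarith
    have h10 : 1 + 2 * (N : ℝ) ≤ 3 * N := by linarith
    have h11 : 24 * (N : ℝ) ≤ ε * N * N := mul_le_mul_of_nonneg_right h9 hN0.le
    have h12 : ε / 2 * ((N : ℝ) ^ 2 / 4) ≤ ε / 2 * Nat.primeCounting x :=
      mul_le_mul_of_nonneg_left h8 (by positivity)
    have h13 : ε / 2 * ((N : ℝ) ^ 2 / 4) = ε * N * N / 8 := by ring
    linarith
  set T := ε / 2 * (Nat.primeCounting x : ℝ) with hT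
  have hT0 : 0 ≤ T := by positivity
  have hTD : ∀ m ∈ E, T ≤ |DC a m x| := by
    intro m hm
    have h5 := artinC_decomp a ha0 m x
    rw [hap] at h5
    have h6 := omegaX_le (x := x) (hE m hm).1 (hE m hm).2
    have h7 := hbad m hm
    have h8 : |artinP (a * (m : ℤ)) x - artinEC x| ≤
        |artinP (a * (m : ℤ)) x - artinEC x - DC a m x| + |DC a m x| := by
      have := abs_add_le (artinP (a * (m : ℤ)) x - artinEC x - DC a m x) (DC a m x)
      rwa [sub_add_cancel] at this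
    push_cast at h5
    linarith
  have hmain := exceptional_opt a x N r R hx1 hr1 E (fun m hm => (hE m hm).2) hRep T hT0 hTD
  -- N ^ r ≤ x ^ 2 N
  have hNr : (N : ℝ) ^ r ≤ (x : ℝ) ^ 2 * N := by
    have h5 : (N : ℝ) ^ r = Real.exp (r * L) := by
      rw [hLdef, ← Real.log_pow, Real.exp_log (by positivity)]
    have h6 : (x : ℝ) ^ 2 * N = Real.exp (2 * ℓ + L) := by
      rw [Real.exp_add, two_mul, Real.exp_add, hexpl, hexpL]
      ring
    rw [h5, h6]
    exact Real.exp_le_exp.mpr hrL_hi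
  have hNr1 : (1 : ℝ) ≤ (N : ℝ) ^ r := one_le_pow₀ hN1
  have hfac : (x : ℝ) ^ 2 + 4 * Real.pi * ((N : ℝ) ^ r + 1) ≤ 28 * ((x : ℝ) ^ 2 * N) := by
    have h5 : Real.pi < 3.15 := Real.pi_lt_d2
    have h6 : (x : ℝ) ^ 2 ≤ (x : ℝ) ^ 2 * N := le_mul_of_one_le_right (by positivity) hN1
    have h7 : 4 * Real.pi * ((N : ℝ) ^ r + 1) ≤ 4 * 3.15 * (2 * ((x : ℝ) ^ 2 * N)) := by
      apply mul_le_mul (by linarith) (by linarith) (by positivity) (by norm_num)
    nlinarith [show (0 : ℝ) ≤ (x : ℝ) ^ 2 * N by positivity]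
  -- T ^ 2
  have hTlow : ε * x / (4 * ℓ) ≤ T := by
    rw [hT]
    calc ε * x / (4 * ℓ) = ε / 2 * (x / (2 * ℓ)) := by
          field_simp
          ring
      _ ≤ ε / 2 * (Nat.primeCounting x : ℝ) := mul_le_mul_of_nonneg_left hπ (by positivity)
  set G := 16 * ℓ ^ 2 * (1 + ℓ) ^ 2 / ε ^ 2 with hGdef
  have hG0 : 0 < G := by positivity
  have hGT : ((x : ℝ) * (1 + ℓ)) ^ 2 ≤ G * T ^ 2 := by
    have h5 : (ε * x / (4 * ℓ)) ^ 2 ≤ T ^ 2 := pow_le_pow_left₀ (by positivity) hTlow 2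
    calc ((x : ℝ) * (1 + ℓ)) ^ 2 = G * (ε * x / (4 * ℓ)) ^ 2 := by
          rw [hGdef]
          field_simp
          ring
      _ ≤ G * T ^ 2 := mul_le_mul_of_nonneg_left h5 hG0.le
  have hTpos : 0 < T := lt_of_lt_of_le (by positivity) hTlow
  -- conclusion for the r-th power
  have hpow : (E.card : ℝ) ^ r ≤ R * G ^ r * (28 * N * x) := by
    have h5 : (x : ℝ) * ((E.card : ℝ) * T ^ 2) ^ r ≤
        R * (G * T ^ 2) ^ r * (28 * ((x : ℝ) ^ 2 * N)) := by
      refine hmain.trans ?_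
      refine mul_le_mul ?_ hfac (by positivity) (by positivity)
      exact mul_le_mul_of_nonneg_left (pow_le_pow_left₀ (by positivity) hGT r) (Nat.cast_nonneg _)
    rw [mul_pow (E.card : ℝ) (T ^ 2) r, mul_pow G (T ^ 2) r] at h5
    have h6 : 0 < (x : ℝ) * (T ^ 2) ^ r := by positivity
    have h7 : (E.card : ℝ) ^ r * ((x : ℝ) * (T ^ 2) ^ r) ≤
        (R * G ^ r * (28 * N * x)) * ((x : ℝ) * (T ^ 2) ^ r) := by
      calc (E.card : ℝ) ^ r * ((x : ℝ) * (T ^ 2) ^ r)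
          = (x : ℝ) * ((E.card : ℝ) ^ r * (T ^ 2) ^ r) := by ring
        _ ≤ R * (G ^ r * (T ^ 2) ^ r) * (28 * ((x : ℝ) ^ 2 * N)) := h5
        _ = _ := by ring
    exact le_of_mul_le_mul_right h7 h6
  have hGb : G ≤ Real.exp (δ / 4 * L) := by
    have hℓL : ℓ ≤ L ^ 2 := by
      refine hℓu.trans ?_
      calc L ^ (1 + δ / 64) ≤ L ^ ((2 : ℕ) : ℝ) :=
            Real.rpow_le_rpow_of_exponent_le (by linarith) (by push_cast; linarith)
        _ = L ^ 2 := Real.rpow_natCast L 2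
    have h5 : Real.log G ≤ δ / 4 * L := by
      refine le_trans ?_ hG
      have h6 : G ≤ 16 / ε ^ 2 * (1 + L ^ 2) ^ 4 := by
        rw [hGdef]
        have h7 : ℓ ^ 2 ≤ (1 + L ^ 2) ^ 2 := pow_le_pow_left₀ hℓ0.le (by linarith) 2
        have h8 : (1 + ℓ) ^ 2 ≤ (1 + L ^ 2) ^ 2 := pow_le_pow_left₀ (by linarith) (by linarith) 2
        calc 16 * ℓ ^ 2 * (1 + ℓ) ^ 2 / ε ^ 2 = 16 / ε ^ 2 * (ℓ ^ 2 * (1 + ℓ) ^ 2) := by ring
          _ ≤ 16 / ε ^ 2 * ((1 + L ^ 2) ^ 2 * (1 + L ^ 2) ^ 2) := by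
              refine mul_le_mul_of_nonneg_left ?_ (by positivity)
              exact mul_le_mul h7 h8 (by positivity) (by positivity)
          _ = _ := by ring
      calc Real.log G ≤ Real.log (16 / ε ^ 2 * (1 + L ^ 2) ^ 4) := Real.log_le_log hG0 h6
        _ = Real.log (16 / ε ^ 2) + 4 * Real.log (1 + L ^ 2) := by
            rw [Real.log_mul (by positivity) (by positivity), Real.log_pow]
            push_cast
            ring
    calc G = Real.exp (Real.log G) := (Real.exp_log hG0).symm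
      _ ≤ _ := Real.exp_le_exp.mpr h5
  have h28 : (28 : ℝ) ≤ Real.exp 4 := by
    have h5 := Real.exp_one_gt_d9
    calc (28 : ℝ) ≤ 2.7 ^ 4 := by norm_num
      _ ≤ (Real.exp 1) ^ 4 := pow_le_pow_left₀ (by norm_num) (by linarith) 4
      _ = Real.exp 4 := by
          rw [← Real.exp_nat_mul]
          norm_num
  have hlast : (28 : ℝ) * N * x ≤ Real.exp (r * L * (δ / 4) + r * L / 2) := by
    calc (28 : ℝ) * N * x ≤ Real.exp 4 * N * x := by
          refine mul_le_mul_of_nonneg_right ?_ hx0.le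
          exact mul_le_mul_of_nonneg_right h28 hN0.le
      _ = Real.exp (4 + L + ℓ) := by
          rw [Real.exp_add, Real.exp_add, hexpL, hexpl]
      _ ≤ _ := by
          refine Real.exp_le_exp.mpr ?_
          have h5 : 2 * L ≤ r * L * (δ / 4) := by
            have h6 : 8 / δ * (L * (δ / 4)) ≤ r * (L * (δ / 4)) :=
              mul_le_mul_of_nonneg_right hr8 (by positivity)
            have h7 : 8 / δ * (L * (δ / 4)) = 2 * L := by
              field_simp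
              ring
            linarith
          linarith
  have hfin : (E.card : ℝ) ^ r ≤ ((N : ℝ) ^ (1 / 2 + δ)) ^ r := by
    refine hpow.trans ?_
    have h5 : ((N : ℝ) ^ (1 / 2 + δ)) ^ r = Real.exp (r * (L * (1 / 2 + δ))) := by
      rw [Real.rpow_def_of_pos hN0, ← Real.exp_nat_mul]
    have h6 : G ^ r ≤ Real.exp (r * (δ / 4 * L)) := by
      rw [Real.exp_nat_mul]
      exact pow_le_pow_left₀ hG0.le hGb r
    calc (R : ℝ) * G ^ r * (28 * N * x)
        ≤ Real.exp (r * L * (δ / 4)) * Real.exp (r * (δ / 4 * L)) *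
          Real.exp (r * L * (δ / 4) + r * L / 2) := by
          refine mul_le_mul (mul_le_mul hRb h6 (by positivity) (by positivity)) hlast
            (by positivity) (by positivity)
      _ = Real.exp (r * L * (δ / 4) + r * (δ / 4 * L) + (r * L * (δ / 4) + r * L / 2)) := by
          rw [← Real.exp_add, ← Real.exp_add]
      _ ≤ ((N : ℝ) ^ (1 / 2 + δ)) ^ r := by
          rw [h5]
          refine Real.exp_le_exp.mpr ?_
          have : 0 ≤ r * L * (δ / 4) := by positivity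
          nlinarith
  exact le_of_pow_le_pow_left₀ (by omega) (by positivity) hfin

end Pool.Agent.ARU
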