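import Pool.Agent.ARU.Cn2
import Pool.Agent.ARU.Rg3

set_option autoImplicit false

/-!
# ARU module CN3: regime III, all scales
-/

namespace Pool.Agent.ARU

open Filter Topology Pool.Agent.Helper8.ArtinLS Pool.Agent.Helper8.ArtinC Pool.Agent.Helper6

lemma log_pow_absorb (lam s δ : ℝ) (hlam : 1 < lam) (hs : 0 < s) (hδ : 0 < δ) :
    ∀ᶠ N : ℕ in atTop, ((⌊(Real.log N) ^ s / Real.log lam⌋₊ + 1 + 1 : ℕ) : ℝ) ≤ (N : ℝ) ^ δ := by
  have hll : 0 < Real.log lam := Real.log_pos hlam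
  have h3 : (fun x : ℝ => (Real.log x) ^ s) =o[atTop] fun x : ℝ => x ^ δ :=
    isLittleO_log_rpow_rpow_atTop s hδ
  have h4 := h3.bound (show 0 < Real.log lam / 2 by positivity)
  have h5 := tendsto_natCast_atTop_atTop (R := ℝ) |>.eventually h4
  have h6 : Tendsto (fun N : ℕ => (N : ℝ) ^ δ) atTop atTop :=
    (tendsto_rpow_atTop hδ).comp tendsto_natCast_atTop_atTop
  filter_upwards [h5, h6.eventually_ge_atTop 4, eventually_ge_atTop 1] with N h7 h8 h9
  have hN : (1 : ℝ) ≤ N := by exact_mod_cast h9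
  have hlogN : 0 ≤ Real.log N := Real.log_nonneg hN
  rw [Real.norm_of_nonneg (by positivity), Real.norm_of_nonneg (by positivity)] at h7
  have h10 : (Real.log N) ^ s / Real.log lam ≤ (N : ℝ) ^ δ / 2 := by
    rw [div_le_iff₀ hll]; linarith
  have h11 : (⌊(Real.log N) ^ s / Real.log lam⌋₊ : ℝ) ≤ (Real.log N) ^ s / Real.log lam :=
    Nat.floor_le (by positivity)
  push_cast
  linarith

/-- The number of `m ≤ N` which are bad at some `x` with `N ^ A ≤ x ≤ exp ((log N) ^ (1 + τ))`. -/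
theorem count_three (δ ε : ℝ) (hδ : 0 < δ) (hδ1 : δ ≤ 1) (hε : 0 < ε) :
    ∃ A : ℝ, 0 < A ∧ ∃ τ : ℝ, 0 < τ ∧ ∃ N₀ : ℕ, ∀ N : ℕ, N₀ ≤ N → ∀ a : ℤ, (a = 1 ∨ a = -1) →
      ∀ E : Finset ℕ, (∀ m ∈ E, 1 ≤ m ∧ m ≤ N) →
      (∀ m ∈ E, ∃ x : ℕ, (N : ℝ) ^ A ≤ x ∧ (x : ℝ) ≤ Real.exp ((Real.log N) ^ (1 + τ)) ∧
        ε < |artinP (a * (m : ℤ)) x / Nat.primeCounting x - CA|) →
      (E.card : ℝ) ≤ (N : ℝ) ^ (1 / 2 + δ) := by
  classical
  obtain ⟨lam, hlam, ε', hε', L₀, hL₀, hcov⟩ := scale_cover ε hε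
  obtain ⟨A, hA, τ, hτ, N₂, hN₂2, hsc⟩ := scale_three (δ / 2) (ε' / 2) (by positivity)
    (by linarith) (by positivity)
  obtain ⟨X₂, hX₂⟩ := eventually_atTop.mp (main_close (ε' / 2) (by positivity))
  have hlam0 : 0 < lam := by linarith
  have hll : 0 < Real.log lam := Real.log_pos hlam
  have hcast : Tendsto (fun N : ℕ => (N : ℝ)) atTop atTop := tendsto_natCast_atTop_atTop
  have hlog : Tendsto (fun N : ℕ => Real.log (N : ℝ)) atTop atTop :=
    Real.tendsto_log_atTop.comp hcast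
  have hNA : Tendsto (fun N : ℕ => (N : ℝ) ^ A) atTop atTop := (tendsto_rpow_atTop hA).comp hcast
  have hlt : Tendsto (fun N : ℕ => (Real.log N) ^ (1 + τ / 2)) atTop atTop :=
    (tendsto_rpow_atTop (by positivity)).comp hlog
  have hlt2 : Tendsto (fun N : ℕ => (Real.log N) ^ (τ / 2)) atTop atTop :=
    (tendsto_rpow_atTop (by positivity)).comp hlog
  obtain ⟨N₀, hN₀⟩ := eventually_atTop.mp
    (((log_pow_absorb lam (1 + τ) (δ / 2) hlam (by positivity) (by positivity)).and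
      (eventually_ge_atTop (max N₂ 3))).and
    (((hcast.eventually_ge_atTop (2 * lam)).and (hNA.eventually_ge_atTop (max L₀ (max X₂ 2 : ℕ)))).and
      (((hlt.eventually_ge_atTop (Real.log lam)).and (hlt2.eventually_ge_atTop 2)).and
        (hlog.eventually_ge_atTop 1))))
  refine ⟨A + 1, by positivity, τ / 2, by positivity, N₀, ?_⟩
  intro N hN a ha E hE hbad
  obtain ⟨⟨g1, g2⟩, ⟨g3, g4⟩, ⟨g5, g6⟩, g7⟩ := hN₀ N hN
  have hNN₂ : N₂ ≤ N := (le_max_left _ _).trans g2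
  have hN3 : 3 ≤ N := (le_max_right _ _).trans g2
  have hNr : (1 : ℝ) ≤ N := by exact_mod_cast (by omega : 1 ≤ N)
  have hN0 : (0 : ℝ) < N := by linarith
  have hNAL : L₀ ≤ (N : ℝ) ^ A := (le_max_left _ _).trans g4
  have hNAX : ((max X₂ 2 : ℕ) : ℝ) ≤ (N : ℝ) ^ A := (le_max_right _ _).trans g4
  set L : ℝ := Real.log N with hL
  have hL0 : 0 < L := by linarith
  set hi : ℝ := Real.exp (L ^ (1 + τ / 2)) with hhi
  have hL2 : L ^ (1 + τ) = L ^ (1 + τ / 2) * L ^ (τ / 2) := by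
    rw [← Real.rpow_add hL0]; congr 1; ring
  have hpow0 : 0 < L ^ (1 + τ / 2) := Real.rpow_pos_of_pos hL0 _
  have hlamhi : lam * hi ≤ Real.exp (L ^ (1 + τ)) := by
    calc lam * hi = Real.exp (Real.log lam) * Real.exp (L ^ (1 + τ / 2)) := by
          rw [Real.exp_log hlam0]
      _ = Real.exp (Real.log lam + L ^ (1 + τ / 2)) := by rw [Real.exp_add]
      _ ≤ Real.exp (L ^ (1 + τ)) := by
          apply Real.exp_le_exp.mpr
          rw [hL2]
          nlinarith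
  set lo : ℝ := (N : ℝ) ^ (A + 1) with hlo
  have hloNA : (N : ℝ) ^ A + 1 ≤ lo / lam := by
    rw [hlo, Real.rpow_add hN0, Real.rpow_one, le_div_iff₀ hlam0]
    have h1 : (1 : ℝ) ≤ (N : ℝ) ^ A := Real.one_le_rpow hNr hA.le
    nlinarith
  have hloL : L₀ ≤ lo := by
    have h1 : lo / lam ≤ lo := div_le_self (by positivity) hlam.le
    linarith
  set J : ℕ := ⌊L ^ (1 + τ) / Real.log lam⌋₊ + 1 with hJ
  set S : Finset ℕ := (Finset.range (J + 1)).filter
    (fun j => lo / lam ≤ lam ^ j ∧ lam ^ j ≤ lam * hi) with hS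
  set F : ℕ → Finset ℕ := fun j => E.filter (fun m => ε' <
    |artinP (a * (m : ℤ)) (scl lam j) / Nat.primeCounting (scl lam j) - CA|) with hF
  have hcover : E ⊆ S.biUnion F := by
    intro m hm
    obtain ⟨x, hx1, hx2, hx3⟩ := hbad m hm
    obtain ⟨j, hj1, hj2, hj3⟩ := hcov (a * (m : ℤ)) lo hi hloL x hx1 hx2 hx3
    rw [Finset.mem_biUnion]
    refine ⟨j, ?_, ?_⟩
    · rw [hS, Finset.mem_filter, Finset.mem_range]
      refine ⟨?_, hj1, hj2⟩
      have h2 := Real.log_le_log (by positivity) (hj2.trans hlamhi)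
      rw [Real.log_pow, Real.log_exp] at h2
      have h3 : (j : ℝ) ≤ L ^ (1 + τ) / Real.log lam := by
        rw [le_div_iff₀ hll]; exact h2
      have h4 : j ≤ ⌊L ^ (1 + τ) / Real.log lam⌋₊ := Nat.le_floor h3
      omega
    · rw [hF, Finset.mem_filter]
      exact ⟨hm, hj3⟩
  have hFj : ∀ j ∈ S, ((F j).card : ℝ) ≤ (N : ℝ) ^ (1 / 2 + δ / 2) := by
    intro j hj
    rw [hS, Finset.mem_filter] at hj
    obtain ⟨_, hj1, hj2⟩ := hj
    set x : ℕ := scl lam j with hx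
    have hxle : (x : ℝ) ≤ lam ^ j := by
      rw [hx]; unfold scl
      exact Nat.floor_le (by positivity)
    have hxge : (N : ℝ) ^ A ≤ x := by
      have h1 : lam ^ j < (x : ℝ) + 1 := by
        rw [hx]; unfold scl; exact Nat.lt_floor_add_one _
      linarith
    have hxmax : max X₂ 2 ≤ x := by exact_mod_cast hNAX.trans hxge
    have hxX₂ : X₂ ≤ x := (le_max_left _ _).trans hxmax
    have hx2 : 2 ≤ x := (le_max_right _ _).trans hxmax
    have hpi := primeCounting_pos hx2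
    exact hsc x N hNN₂ hxge (hxle.trans (hj2.trans hlamhi)) a ha (F j)
      (fun m hm => hE m (Finset.mem_filter.mp hm).1)
      (fun m hm => unnormalise hpi (Finset.mem_filter.mp hm).2 (hX₂ x hxX₂))
  have hScard : (S.card : ℝ) ≤ (N : ℝ) ^ (δ / 2) := by
    refine le_trans ?_ g1
    have h1 : S.card ≤ J + 1 := (Finset.card_filter_le _ _).trans (by simp)
    exact_mod_cast h1
  calc (E.card : ℝ) ≤ ((S.biUnion F).card : ℝ) := by exact_mod_cast Finset.card_le_card hcover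
    _ ≤ ((∑ j ∈ S, (F j).card : ℕ) : ℝ) := by exact_mod_cast Finset.card_biUnion_le
    _ = ∑ j ∈ S, ((F j).card : ℝ) := by push_cast; rfl
    _ ≤ ∑ j ∈ S, (N : ℝ) ^ (1 / 2 + δ / 2) := Finset.sum_le_sum hFj
    _ = S.card * (N : ℝ) ^ (1 / 2 + δ / 2) := by rw [Finset.sum_const, nsmul_eq_mul]
    _ ≤ (N : ℝ) ^ (δ / 2) * (N : ℝ) ^ (1 / 2 + δ / 2) := by gcongr
    _ = (N : ℝ) ^ (1 / 2 + δ) := by rw [← Real.rpow_add hN0]; congr 1; ring

end Pool.Agent.ARU
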