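import Pool.Agent.Helper8.ArtinOpt

set_option autoImplicit false

/-!
# ARU: definitions

`gg a p m` is the indicator of `a m` being a primitive root modulo `p`, `mm a p` its mean over the
residues modulo `p`, `ff a p m` the centred indicator (periodic modulo `p`, mean zero, at most one
in absolute value).
-/

namespace Pool.Agent.ARU

/-- indicator of `a m` being a primitive root modulo `p` -/
noncomputable def gg (a : ℤ) (p m : ℕ) : ℝ :=
  if orderOf ((a * (m : ℤ) : ℤ) : ZMod p) = p - 1 then 1 else 0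

/-- the mean over the residues modulo `p` -/
noncomputable def mm (a : ℤ) (p : ℕ) : ℝ := (∑ j ∈ Finset.range p, gg a p j) / p

/-- the centred indicator -/
noncomputable def ff (a : ℤ) (p m : ℕ) : ℝ := gg a p m - mm a p

theorem gg_nonneg (a : ℤ) (p m : ℕ) : 0 ≤ gg a p m := by unfold gg; split_ifs <;> norm_num

theorem gg_le_one (a : ℤ) (p m : ℕ) : gg a p m ≤ 1 := by unfold gg; split_ifs <;> norm_num

theorem mm_nonneg (a : ℤ) (p : ℕ) : 0 ≤ mm a p :=
  div_nonneg (Finset.sum_nonneg fun j _ => gg_nonneg a p j) (Nat.cast_nonneg p)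

theorem mm_le_one (a : ℤ) (p : ℕ) : mm a p ≤ 1 := by
  unfold mm
  apply div_le_one_of_le₀ _ (Nat.cast_nonneg p)
  calc ∑ j ∈ Finset.range p, gg a p j ≤ ∑ j ∈ Finset.range p, (1 : ℝ) :=
        Finset.sum_le_sum fun j _ => gg_le_one a p j
    _ = p := by simp

theorem abs_ff_le (a : ℤ) (p m : ℕ) : |ff a p m| ≤ 1 := by
  unfold ff
  rw [abs_le]
  constructor <;> linarith [gg_nonneg a p m, gg_le_one a p m, mm_nonneg a p, mm_le_one a p]

theorem ff_periodic (a : ℤ) (p m : ℕ) : ff a p (m + p) = ff a p m := by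
  unfold ff gg
  have : ((a * ((m + p : ℕ) : ℤ) : ℤ) : ZMod p) = ((a * (m : ℤ) : ℤ) : ZMod p) := by
    push_cast
    simp
  rw [this]

theorem ff_sum (a : ℤ) {p : ℕ} (hp : 0 < p) : ∑ j ∈ Finset.range p, ff a p j = 0 := by
  unfold ff
  rw [Finset.sum_sub_distrib, Finset.sum_const, Finset.card_range, nsmul_eq_mul]
  unfold mm
  have : (p : ℝ) ≠ 0 := by exact_mod_cast hp.ne'
  field_simp
  ring

end Pool.Agent.ARU
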