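import Pool.Agent.Helper8.LargeSieve

set_option autoImplicit false

/-!
# ARU module FAR: the additive large sieve for all denominators

Same proof as `Pool.Agent.Helper8.ArtinLS.additive_large_sieve`: two different reduced fractions
with denominators at most `X` differ by at least `1 / X ^ 2`.
-/

namespace Pool.Agent.ARU

open Finset Pool.Agent.Helper8.ArtinLS MeasureTheory

/-- The additive large sieve for the reduced fractions with denominators `2 ≤ q ≤ X`. -/
theorem farey_large_sieve (X N : ℕ) (a : ℕ → ℂ) :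
    ∑ p ∈ Finset.Icc 2 X, ∑ b ∈ (Finset.range p).filter (fun b => Nat.Coprime b p),
      ‖∑ n ∈ range (N + 1), a n * eC n ((b : ℝ) / p)‖ ^ 2 ≤
      ((X : ℝ) ^ 2 + 4 * Real.pi * (N + 1)) * ∑ n ∈ range (N + 1), ‖a n‖ ^ 2 := by
  classical
  rcases Nat.eq_zero_or_pos X with rfl | hX
  · have h0 : Finset.Icc 2 0 = (∅ : Finset ℕ) := by simp
    rw [h0, Finset.sum_empty]
    have := Real.pi_pos
    positivity
  have hX1 : (1 : ℝ) ≤ X := by exact_mod_cast hX
  have hX0 : (0 : ℝ) < X := by linarith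
  set f : ℝ → ℂ := fun t => ∑ n ∈ range (N + 1), a n * eC n t with hf
  set f' : ℝ → ℂ := fun t => ∑ n ∈ range (N + 1), (a n * (2 * Real.pi * Complex.I * n)) * eC n t with hf'
  have hder : ∀ t, HasDerivAt f (f' t) t := by
    intro t
    rw [hf, hf']
    apply HasDerivAt.fun_sum
    intro n _
    have h1 : HasDerivAt (fun t : ℝ => (2 * Real.pi * Complex.I * n * t : ℂ))
        (2 * Real.pi * Complex.I * n) t := by
      have := (Complex.ofRealCLM.hasDerivAt (x := t)).const_mul (2 * Real.pi * Complex.I * n : ℂ)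
      simpa using this
    have h2 := h1.cexp.const_mul (a n)
    refine h2.congr_deriv ?_
    unfold eC
    ring
  have hfc : Continuous f := continuous_iff_continuousAt.mpr fun t => (hder t).continuousAt
  have hf'c : Continuous f' := by
    rw [hf']
    apply continuous_finsetSum
    intro n _
    exact continuous_const.mul (eC_cont n)
  -- Parseval
  set Sa : ℝ := ∑ n ∈ range (N + 1), ‖a n‖ ^ 2 with hSa
  have hSa0 : 0 ≤ Sa := Finset.sum_nonneg fun n _ => by positivity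
  have hP1 : ∫ t in (0:ℝ)..1, ‖f t‖ ^ 2 = Sa := parseval_trig a (N + 1)
  set T : ℝ := 2 * Real.pi * (N + 1) with hT
  have hT0 : 0 < T := by
    have := Real.pi_pos
    positivity
  have hP2 : ∫ t in (0:ℝ)..1, ‖f' t‖ ^ 2 ≤ T ^ 2 * Sa := by
    rw [hf', parseval_trig, hSa, Finset.mul_sum]
    apply Finset.sum_le_sum
    intro n hn
    rw [Finset.mem_range] at hn
    have h1 : ‖(2 * Real.pi * Complex.I * n : ℂ)‖ ≤ T := by
      rw [norm_mul, norm_mul, norm_mul, Complex.norm_I, Complex.norm_natCast, Complex.norm_real,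
        Real.norm_of_nonneg Real.pi_pos.le, Complex.norm_ofNat, hT, mul_one]
      have : (n : ℝ) ≤ N + 1 := by exact_mod_cast hn.le
      have := Real.pi_pos
      gcongr
    rw [norm_mul, mul_pow, mul_comm]
    gcongr
  -- the points
  set P := Finset.Icc 2 X with hP
  set δ : ℝ := 1 / (X : ℝ) ^ 2 with hδ
  have hδ0 : 0 < δ := by positivity
  set S : Finset (Σ _ : ℕ, ℕ) := P.sigma (fun p => (Finset.range p).filter (fun b => Nat.Coprime b p)) with hS
  set α : (Σ _ : ℕ, ℕ) → ℝ := fun i => (i.2 : ℝ) / i.1 with hα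
  have hmem : ∀ i ∈ S, i.1 ≤ X ∧ (2 ≤ i.1 ∧ Nat.Coprime i.2 i.1) ∧ 1 ≤ i.2 ∧ i.2 < i.1 := by
    intro i hi
    rw [hS, Finset.mem_sigma, hP, Finset.mem_filter, Finset.mem_range, Finset.mem_Icc] at hi
    obtain ⟨⟨h1, h2⟩, h3, h4⟩ := hi
    refine ⟨h2, ⟨h1, h4⟩, ?_, h3⟩
    rcases Nat.eq_zero_or_pos i.2 with h0 | h0
    · rw [h0, Nat.coprime_zero_left] at h4
      omega
    · exact h0
  have hδX : δ / 2 ≤ 1 / (X : ℝ) := by
    rw [hδ, div_div, div_le_div_iff₀ (by positivity) hX0]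
    nlinarith
  have hin : ∀ i ∈ S, 0 ≤ α i - δ/2 ∧ α i + δ/2 ≤ 1 := by
    intro i hi
    obtain ⟨h1, h2, h3, h4⟩ := hmem i hi
    have hp0 : (0 : ℝ) < i.1 := by exact_mod_cast (by omega : 0 < i.1)
    have hpX : (i.1 : ℝ) ≤ X := by exact_mod_cast h1
    have h5 : 1 / (X : ℝ) ≤ 1 / (i.1 : ℝ) := one_div_le_one_div_of_le hp0 hpX
    have h6 : 1 / (i.1 : ℝ) ≤ α i := by
      rw [hα]
      simp only
      gcongr
      exact_mod_cast h3
    have h7 : α i ≤ 1 - 1 / (i.1 : ℝ) := by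
      rw [hα]
      simp only
      rw [le_sub_iff_add_le, ← add_div, div_le_one hp0]
      exact_mod_cast h4
    exact ⟨by linarith, by linarith⟩
  have hsep : ∀ i ∈ S, ∀ j ∈ S, i ≠ j → δ ≤ |α i - α j| := by
    intro i hi j hj hij
    obtain ⟨h1, h2, h3, h4⟩ := hmem i hi
    obtain ⟨g1, g2, g3, g4⟩ := hmem j hj
    have hp0 : (0 : ℝ) < i.1 := by exact_mod_cast (by omega : 0 < i.1)
    have hq0 : (0 : ℝ) < j.1 := by exact_mod_cast (by omega : 0 < j.1)
    have hpX : (i.1 : ℝ) ≤ X := by exact_mod_cast h1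
    have hqX : (j.1 : ℝ) ≤ X := by exact_mod_cast g1
    have hne : (i.2 : ℤ) * j.1 - j.2 * i.1 ≠ 0 := by
      intro h
      have h5 : i.2 * j.1 = j.2 * i.1 := by
        have : (i.2 : ℤ) * j.1 = j.2 * i.1 := by omega
        exact_mod_cast this
      have h6 : i.1 ∣ i.2 * j.1 := by rw [h5]; exact Dvd.intro_left _ rfl
      have h7 : i.1 ∣ j.1 := h2.2.symm.dvd_of_dvd_mul_left h6
      have h6' : j.1 ∣ j.2 * i.1 := by rw [← h5]; exact Dvd.intro_left _ rfl
      have h7' : j.1 ∣ i.1 := g2.2.symm.dvd_of_dvd_mul_left h6'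
      have h8 : i.1 = j.1 := Nat.dvd_antisymm h7 h7'
      have h9 : i.2 = j.2 := by
        rw [h8] at h5
        exact Nat.eq_of_mul_eq_mul_right (by omega) h5
      apply hij
      exact Sigma.ext h8 (heq_of_eq h9)
    have h10 : α i - α j = (((i.2 : ℤ) * j.1 - j.2 * i.1 : ℤ) : ℝ) / (i.1 * j.1) := by
      rw [hα]
      simp only
      push_cast
      field_simp
    rw [h10, abs_div, abs_of_pos (mul_pos hp0 hq0), hδ]
    have h11 : (1 : ℝ) ≤ |(((i.2 : ℤ) * j.1 - j.2 * i.1 : ℤ) : ℝ)| := by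
      exact_mod_cast Int.one_le_abs hne
    rw [div_le_div_iff₀ (by positivity) (by positivity)]
    calc 1 * ((i.1 : ℝ) * j.1) ≤ 1 * (X * X) := by gcongr
      _ ≤ |(((i.2 : ℤ) * j.1 - j.2 * i.1 : ℤ) : ℝ)| * (X * X) := by gcongr
      _ = _ := by ring
  have hsum : ∑ p ∈ P, ∑ b ∈ (Finset.range p).filter (fun b => Nat.Coprime b p), ‖f ((b : ℝ) / p)‖ ^ 2 = ∑ i ∈ S, ‖f (α i)‖ ^ 2 := by
    rw [hS, Finset.sum_sigma]
  have hgoal : ∑ i ∈ S, ‖f (α i)‖ ^ 2 ≤ ((X : ℝ) ^ 2 + 4 * Real.pi * (N + 1)) * Sa := by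
    calc ∑ i ∈ S, ‖f (α i)‖ ^ 2 ≤ ∑ i ∈ S, (δ⁻¹ * (∫ t in (α i - δ/2)..(α i + δ/2), ‖f t‖ ^ 2) +
          ∫ t in (α i - δ/2)..(α i + δ/2), 2 * (‖f t‖ * ‖f' t‖)) :=
          Finset.sum_le_sum fun i _ => gallagher_ineq f f' hder hf'c (α i) δ hδ0
      _ = δ⁻¹ * (∑ i ∈ S, ∫ t in (α i - δ/2)..(α i + δ/2), ‖f t‖ ^ 2) +
          ∑ i ∈ S, ∫ t in (α i - δ/2)..(α i + δ/2), 2 * (‖f t‖ * ‖f' t‖) := by
          rw [Finset.sum_add_distrib, Finset.mul_sum]
      _ ≤ δ⁻¹ * (∫ t in (0:ℝ)..1, ‖f t‖ ^ 2) + ∫ t in (0:ℝ)..1, 2 * (‖f t‖ * ‖f' t‖) := by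
          apply add_le_add
          · apply mul_le_mul_of_nonneg_left _ (by positivity)
            exact sum_integral_le S α δ hδ0 hin hsep _ (by fun_prop) (fun t => by positivity)
          · exact sum_integral_le S α δ hδ0 hin hsep _ (by fun_prop) (fun t => by positivity)
      _ ≤ δ⁻¹ * Sa + ∫ t in (0:ℝ)..1, (T * ‖f t‖ ^ 2 + T⁻¹ * ‖f' t‖ ^ 2) := by
          rw [hP1]
          gcongr
          apply intervalIntegral.integral_mono_on zero_le_one
          · apply Continuous.intervalIntegrable; fun_prop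
          · apply Continuous.intervalIntegrable; fun_prop
          · intro t _
            have h1 : T * ‖f t‖ ^ 2 + T⁻¹ * ‖f' t‖ ^ 2 - 2 * (‖f t‖ * ‖f' t‖) =
                T⁻¹ * (T * ‖f t‖ - ‖f' t‖) ^ 2 := by field_simp; ring
            have h2 : 0 ≤ T⁻¹ * (T * ‖f t‖ - ‖f' t‖) ^ 2 := by positivity
            linarith
      _ = δ⁻¹ * Sa + (T * Sa + T⁻¹ * ∫ t in (0:ℝ)..1, ‖f' t‖ ^ 2) := by
          rw [intervalIntegral.integral_add, intervalIntegral.integral_const_mul,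
            intervalIntegral.integral_const_mul, hP1]
          · apply Continuous.intervalIntegrable; fun_prop
          · apply Continuous.intervalIntegrable; fun_prop
      _ ≤ δ⁻¹ * Sa + (T * Sa + T⁻¹ * (T ^ 2 * Sa)) := by gcongr
      _ = ((X : ℝ) ^ 2 + 4 * Real.pi * (N + 1)) * Sa := by
          rw [hδ, hT]
          have := Real.pi_pos
          field_simp
          ring
  rw [← hsum] at hgoal
  exact hgoal


end Pool.Agent.ARU
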