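import Pool.Agent.ARU.Cn3
import Pool.Agent.ARX.Res

set_option autoImplicit false

/-!
# ARU: the final theorem
-/

namespace Pool.Agent.ARU

open Filter Topology Pool.Agent.Helper8.ArtinLS Pool.Agent.Helper8.ArtinC Pool.Agent.Helper6
  Pool.Agent.ARX

lemma share_artinP (n : ℤ) (x : ℕ) : share n x = artinP n x / Nat.primeCounting x := by
  unfold share artinP
  congr!

/-- the two classes `n > 0` and `n < 0` -/
lemma signed_count (N : ℕ) (V : ℝ) (Q : ℤ → Prop)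
    (h : ∀ a : ℤ, (a = 1 ∨ a = -1) → ∀ E : Finset ℕ, (∀ m ∈ E, 1 ≤ m ∧ m ≤ N) →
      (∀ m ∈ E, Q (a * (m : ℤ))) → (E.card : ℝ) ≤ V)
    (D : Finset ℤ) (hD : ∀ n ∈ D, n ≠ 0 ∧ n.natAbs ≤ N ∧ Q n) : (D.card : ℝ) ≤ 2 * V := by
  classical
  set E₁ : Finset ℕ := (Finset.Icc 1 N).filter (fun m : ℕ => Q (1 * (m : ℤ))) with hE₁
  set E₂ : Finset ℕ := (Finset.Icc 1 N).filter (fun m : ℕ => Q (-1 * (m : ℤ))) with hE₂
  have h1 := h 1 (Or.inl rfl) E₁ (fun m hm => by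
    rw [hE₁, Finset.mem_filter, Finset.mem_Icc] at hm; exact hm.1) (fun m hm => by
    rw [hE₁, Finset.mem_filter] at hm; exact hm.2)
  have h2 := h (-1) (Or.inr rfl) E₂ (fun m hm => by
    rw [hE₂, Finset.mem_filter, Finset.mem_Icc] at hm; exact hm.1) (fun m hm => by
    rw [hE₂, Finset.mem_filter] at hm; exact hm.2)
  have hsub : D ⊆ E₁.image (fun m : ℕ => (m : ℤ)) ∪ E₂.image (fun m : ℕ => -(m : ℤ)) := by
    intro n hn
    obtain ⟨hn0, hnN, hQ⟩ := hD n hn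
    rw [Finset.mem_union, Finset.mem_image, Finset.mem_image]
    rcases lt_trichotomy n 0 with hneg | hz | hpos
    · right
      refine ⟨n.natAbs, ?_, by omega⟩
      rw [hE₂, Finset.mem_filter, Finset.mem_Icc]
      refine ⟨by omega, ?_⟩
      have : (-1 * (n.natAbs : ℤ)) = n := by omega
      rw [this]; exact hQ
    · exact absurd hz hn0
    · left
      refine ⟨n.natAbs, ?_, by omega⟩
      rw [hE₁, Finset.mem_filter, Finset.mem_Icc]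
      refine ⟨by omega, ?_⟩
      have : (1 * (n.natAbs : ℤ)) = n := by omega
      rw [this]; exact hQ
  have h3 : D.card ≤ E₁.card + E₂.card :=
    (Finset.card_le_card hsub).trans ((Finset.card_union_le _ _).trans
      (Nat.add_le_add Finset.card_image_le Finset.card_image_le))
  have h4 : (D.card : ℝ) ≤ E₁.card + E₂.card := by exact_mod_cast h3
  linarith

lemma half_exp (κ : ℝ) (hκ : 0 < κ) :
    ∀ᶠ Y : ℕ in atTop, 2 * Real.exp (-((Y : ℝ) ^ κ)) ≤ Real.exp (-((Y : ℝ) ^ (κ / 2))) := by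
  have h := exp_absorb 2 2 (2 * κ) (by norm_num) (by norm_num) (by positivity)
  have h1 : Tendsto (fun Y : ℕ => (Y : ℝ) ^ (κ / 2)) atTop atTop :=
    (tendsto_rpow_atTop (by positivity)).comp tendsto_natCast_atTop_atTop
  filter_upwards [h1.eventually_ge_atTop 2, eventually_ge_atTop 1] with Y h2 h4
  have hY : (0 : ℝ) < Y := by exact_mod_cast h4
  have h5 : (Y : ℝ) ^ κ = (Y : ℝ) ^ (κ / 2) * (Y : ℝ) ^ (κ / 2) := by
    rw [← Real.rpow_add hY]; congr 1; ring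
  rw [h5]
  set w : ℝ := (Y : ℝ) ^ (κ / 2) with hw
  have h6 : Real.log 2 ≤ 1 := by
    have := Real.log_two_lt_d9
    linarith
  calc 2 * Real.exp (-(w * w)) = Real.exp (Real.log 2) * Real.exp (-(w * w)) := by
        rw [Real.exp_log (by norm_num)]
    _ = Real.exp (Real.log 2 - w * w) := by rw [← Real.exp_add]; congr 1
    _ ≤ Real.exp (-w) := by
        apply Real.exp_le_exp.mpr
        nlinarith

open Classical in
/-- FULL RANGE. -/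
theorem full_range :
    ∀ δ ε : ℝ, 0 < δ → 0 < ε → ∃ κ τ : ℝ, 0 < κ ∧ 0 < τ ∧ ∃ Y₀ : ℕ, ∀ N Y : ℕ, Y₀ ≤ Y →
      (((Finset.Icc (-(N : ℤ)) N).filter (fun n : ℤ => n ≠ 0 ∧
          ∃ n' : ℤ, Squarefree n' ∧ (∃ k : ℤ, n = n' * k ^ 2) ∧
            ¬ (∀ x : ℕ, Y ≤ x → (x : ℝ) ≤ Real.exp ((Real.log N) ^ (1 + τ)) →
              |share n x - dens n'| ≤ ε))).card : ℝ) ≤
        N * Real.exp (-((Y : ℝ) ^ κ)) + (N : ℝ) ^ (1 / 2 + δ) := by
  intro δ' ε hδ' hε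
  -- reduce to `δ ≤ 1`
  set δ : ℝ := min δ' 1 with hδdef
  have hδ : 0 < δ := lt_min hδ' one_pos
  have hδ1 : δ ≤ 1 := min_le_right _ _
  have hδδ' : δ ≤ δ' := min_le_left _ _
  obtain ⟨κ, hκ, Y₁, h2⟩ := count_two (δ / 2) (ε / 2) (by positivity) (by linarith)
    (by positivity)
  obtain ⟨A, hA, τ, hτ, N₃, h3⟩ := count_three (δ / 2) (ε / 2) (by positivity) (by linarith)
    (by positivity)
  obtain ⟨τ₁, hτ₁, hτ₁1, N₁, h1⟩ := integers A (δ / 2) ε hA (by positivity) hε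
  obtain ⟨Y₂, hY₂⟩ := eventually_atTop.mp (half_exp κ hκ)
  set B : ℕ := ⌈2 / ε⌉₊ with hB
  -- large `N`
  have hcast : Tendsto (fun N : ℕ => (N : ℝ)) atTop atTop := tendsto_natCast_atTop_atTop
  have hlog : Tendsto (fun N : ℕ => Real.log (N : ℝ)) atTop atTop :=
    Real.tendsto_log_atTop.comp hcast
  have hlt : Tendsto (fun N : ℕ => (Real.log N) ^ τ₁) atTop atTop :=
    (tendsto_rpow_atTop hτ₁).comp hlog
  have hNδ : Tendsto (fun N : ℕ => (N : ℝ) ^ (δ / 2)) atTop atTop :=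
    (tendsto_rpow_atTop (by positivity)).comp hcast
  obtain ⟨N₀, hN₀⟩ := eventually_atTop.mp
    ((((eventually_ge_atTop N₁).and (eventually_ge_atTop (max N₃ 3))).and
      (hlt.eventually_ge_atTop (40 / δ))).and
      (hNδ.eventually_ge_atTop (5 + 2 * ((2 * B + 1 : ℕ) : ℝ))))
  -- the constant `Y₀`
  set Y₃ : ℕ := ⌈Real.exp ((Real.log N₀) ^ (1 + τ))⌉₊ + 2 with hY₃
  refine ⟨κ / 2, τ, by positivity, hτ, max (max Y₁ Y₂) Y₃, ?_⟩
  intro N Y hY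
  have hYY₁ : Y₁ ≤ Y := (le_max_left _ _).trans ((le_max_left _ _).trans hY)
  have hYY₂ : Y₂ ≤ Y := (le_max_right _ _).trans ((le_max_left _ _).trans hY)
  have hYY₃ : Y₃ ≤ Y := (le_max_right _ _).trans hY
  have hNr0 : (0 : ℝ) ≤ N := Nat.cast_nonneg N
  set D : Finset ℤ := (Finset.Icc (-(N : ℤ)) N).filter (fun n : ℤ => n ≠ 0 ∧
          ∃ n' : ℤ, Squarefree n' ∧ (∃ k : ℤ, n = n' * k ^ 2) ∧
            ¬ (∀ x : ℕ, Y ≤ x → (x : ℝ) ≤ Real.exp ((Real.log N) ^ (1 + τ)) →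
              |share n x - dens n'| ≤ ε)) with hD
  by_cases hN : N < N₀
  · -- the range of `x` is empty
    have hemp : D = ∅ := by
      rw [hD]
      apply Finset.filter_false_of_mem
      rintro n _ ⟨_, n', _, _, hbad⟩
      apply hbad
      intro x hx1 hx2
      exfalso
      have h4 : Real.exp ((Real.log N) ^ (1 + τ)) ≤ Real.exp ((Real.log N₀) ^ (1 + τ)) := by
        apply Real.exp_le_exp.mpr
        have hlogN : 0 ≤ Real.log N := Real.log_natCast_nonneg N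
        apply Real.rpow_le_rpow hlogN _ (by positivity)
        rcases Nat.eq_zero_or_pos N with h0 | h0
        · rw [h0, Nat.cast_zero, Real.log_zero]
          exact Real.log_natCast_nonneg N₀
        · apply Real.log_le_log (by exact_mod_cast h0)
          exact_mod_cast hN.le
      have h5 : Real.exp ((Real.log N₀) ^ (1 + τ)) ≤ (⌈Real.exp ((Real.log N₀) ^ (1 + τ))⌉₊ : ℝ) :=
        Nat.le_ceil _
      have h6 : (x : ℝ) ≤ (⌈Real.exp ((Real.log N₀) ^ (1 + τ))⌉₊ : ℝ) := by linarith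
      have h7 : x ≤ ⌈Real.exp ((Real.log N₀) ^ (1 + τ))⌉₊ := by exact_mod_cast h6
      omega
    rw [hemp, Finset.card_empty, Nat.cast_zero]
    positivity
  push Not at hN
  obtain ⟨⟨⟨g1, g2⟩, g3⟩, g4⟩ := hN₀ N hN
  have hNN₃ : N₃ ≤ N := (le_max_left _ _).trans g2
  have hN3 : 3 ≤ N := (le_max_right _ _).trans g2
  have hNr : (1 : ℝ) ≤ N := by exact_mod_cast (by omega : 1 ≤ N)
  have hN0 : (0 : ℝ) < N := by linarith
  have hL1 := one_le_log hN3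
  -- regime I meets regime II
  have hmeet : Real.exp ((Real.log N) ^ (1 - τ₁)) ≤ (N : ℝ) ^ (δ / 2 / 20) := by
    rw [Real.rpow_def_of_pos hN0]
    apply Real.exp_le_exp.mpr
    have hL0 : 0 < Real.log N := by linarith
    have h5 : (Real.log N) ^ (1 - τ₁) * (Real.log N) ^ τ₁ = Real.log N := by
      rw [← Real.rpow_add hL0]; simp
    have h6 : 0 < (Real.log N) ^ (1 - τ₁) := Real.rpow_pos_of_pos hL0 _
    have h7 : (Real.log N) ^ (1 - τ₁) * (40 / δ) ≤ Real.log N := by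
      calc (Real.log N) ^ (1 - τ₁) * (40 / δ) ≤ (Real.log N) ^ (1 - τ₁) * (Real.log N) ^ τ₁ := by
            gcongr
        _ = _ := h5
    rw [mul_div_assoc', div_le_iff₀ hδ] at h7
    linarith
  set D₁ : Finset ℤ := (Finset.Icc (-(N : ℤ)) N).filter (fun n : ℤ => n ≠ 0 ∧
          ∃ n' : ℤ, Squarefree n' ∧ (∃ k : ℤ, n = n' * k ^ 2) ∧
            ¬ (∀ x : ℕ, InRange A τ₁ N x → |share n x - dens n'| ≤ ε)) with hD₁
  set Q₂ : ℤ → Prop := fun n => ∃ x : ℕ, Y ≤ x ∧ (x : ℝ) ≤ (N : ℝ) ^ (δ / 2 / 20) ∧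
    ε / 2 < |artinP n x / Nat.primeCounting x - CA| with hQ₂
  set Q₃ : ℤ → Prop := fun n => ∃ x : ℕ, (N : ℝ) ^ A ≤ x ∧
    (x : ℝ) ≤ Real.exp ((Real.log N) ^ (1 + τ)) ∧
    ε / 2 < |artinP n x / Nat.primeCounting x - CA| with hQ₃
  set D₂ : Finset ℤ := (Finset.Icc (-(N : ℤ)) N).filter (fun n : ℤ => n ≠ 0 ∧ Q₂ n) with hD₂
  set D₃ : Finset ℤ := (Finset.Icc (-(N : ℤ)) N).filter (fun n : ℤ => n ≠ 0 ∧ Q₃ n) with hD₃
  set D₄ : Finset ℤ := (Finset.Icc (-(N : ℤ)) N).filter (fun n : ℤ => n ≠ 0 ∧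
    ∃ b : ℤ, b.natAbs ≤ B ∧ ∃ m : ℤ, n = b * m ^ 2) with hD₄
  have hD₁c : (D₁.card : ℝ) ≤ (N : ℝ) ^ (1 / 2 + δ / 2) := (h1 N g1).2
  have hD₂c : (D₂.card : ℝ) ≤
      2 * (N * Real.exp (-((Y : ℝ) ^ κ)) + (N : ℝ) ^ (1 / 2 + δ / 2)) := by
    refine signed_count N _ Q₂ (fun a ha E hE hQ => h2 N Y hYY₁ a ha E (fun m hm => (hE m hm).2)
      hQ) D₂ ?_
    intro n hn
    rw [hD₂, Finset.mem_filter, Finset.mem_Icc] at hn
    exact ⟨hn.2.1, by omega, hn.2.2⟩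
  have hD₃c : (D₃.card : ℝ) ≤ 2 * (N : ℝ) ^ (1 / 2 + δ / 2) := by
    refine signed_count N _ Q₃ (fun a ha E hE hQ => h3 N hNN₃ a ha E hE hQ) D₃ ?_
    intro n hn
    rw [hD₃, Finset.mem_filter, Finset.mem_Icc] at hn
    exact ⟨hn.2.1, by omega, hn.2.2⟩
  have hD₄c : (D₄.card : ℝ) ≤ ((2 * B + 1 : ℕ) : ℝ) * 2 * (N : ℝ) ^ (1 / 2 : ℝ) := by
    have h4 := small_part_count B N D₄ (fun n hn => by
      rw [hD₄, Finset.mem_filter, Finset.mem_Icc] at hn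
      exact ⟨by omega, hn.2.1⟩) (fun n hn => (Finset.mem_filter.mp hn).2.2)
    have h5 : (D₄.card : ℝ) ≤ ((2 * B + 1 : ℕ) : ℝ) * ((Nat.sqrt N : ℝ) + 1) := by
      exact_mod_cast h4
    have h6 : (Nat.sqrt N : ℝ) ≤ (N : ℝ) ^ (1/2 : ℝ) := by
      rw [← Real.sqrt_eq_rpow]
      exact Real.nat_sqrt_le_real_sqrt
    have h7 : (1 : ℝ) ≤ (N : ℝ) ^ (1/2 : ℝ) := Real.one_le_rpow hNr (by norm_num)
    calc (D₄.card : ℝ) ≤ ((2 * B + 1 : ℕ) : ℝ) * ((Nat.sqrt N : ℝ) + 1) := h5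
      _ ≤ ((2 * B + 1 : ℕ) : ℝ) * (2 * (N : ℝ) ^ (1 / 2 : ℝ)) := by
          apply mul_le_mul_of_nonneg_left _ (Nat.cast_nonneg _)
          linarith
      _ = _ := by ring
  have hsub : D ⊆ D₁ ∪ D₂ ∪ D₃ ∪ D₄ := by
    intro n hn
    rw [hD, Finset.mem_filter] at hn
    obtain ⟨hnI, hn0, n', hsq, ⟨k, hk⟩, hbad⟩ := hn
    rw [Finset.mem_union, Finset.mem_union, Finset.mem_union]
    by_cases hnB : n'.natAbs ≤ B
    · right
      rw [hD₄, Finset.mem_filter]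
      exact ⟨hnI, hn0, n', hnB, k, hk⟩
    left
    push Not at hnB
    have hclose := dens_close hsq hε hnB
    obtain ⟨x, hx⟩ := not_forall.mp hbad
    obtain ⟨hx1, hx⟩ := Classical.not_imp.mp hx
    obtain ⟨hx2, hx3⟩ := Classical.not_imp.mp hx
    rw [not_le] at hx3
    have hkey : ε / 2 < |artinP n x / Nat.primeCounting x - CA| := by
      rw [share_artinP] at hx3
      have h10 := abs_sub_le (artinP n x / Nat.primeCounting x) CA (dens n')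
      rw [abs_sub_comm] at hclose
      linarith
    by_cases hxa : (x : ℝ) ≤ (N : ℝ) ^ (δ / 2 / 20)
    · left; right
      rw [hD₂, Finset.mem_filter]
      exact ⟨hnI, hn0, x, hx1, hxa, hkey⟩
    · by_cases hxb : (x : ℝ) ≤ (N : ℝ) ^ A
      · left; left
        rw [hD₁, Finset.mem_filter]
        refine ⟨hnI, hn0, n', hsq, ⟨k, hk⟩, ?_⟩
        intro hcon
        have := hcon x ⟨hmeet.trans (not_le.mp hxa).le, hxb⟩
        linarith
      · right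
        rw [hD₃, Finset.mem_filter]
        exact ⟨hnI, hn0, x, (not_le.mp hxb).le, hx2, hkey⟩
  have hcard : (D.card : ℝ) ≤ D₁.card + D₂.card + D₃.card + D₄.card := by
    have h4 := Finset.card_le_card hsub
    have h5 := Finset.card_union_le (D₁ ∪ D₂ ∪ D₃) D₄
    have h6 := Finset.card_union_le (D₁ ∪ D₂) D₃
    have h7 := Finset.card_union_le D₁ D₂
    exact_mod_cast (by omega : D.card ≤ D₁.card + D₂.card + D₃.card + D₄.card)
  have hhalf : (N : ℝ) ^ (1 / 2 : ℝ) ≤ (N : ℝ) ^ (1 / 2 + δ / 2) :=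
    Real.rpow_le_rpow_of_exponent_le hNr (by linarith)
  have hW0 : 0 ≤ (N : ℝ) ^ (1 / 2 + δ / 2) := by positivity
  have hfin : (5 + 2 * ((2 * B + 1 : ℕ) : ℝ)) * (N : ℝ) ^ (1 / 2 + δ / 2) ≤
      (N : ℝ) ^ (1 / 2 + δ') := by
    calc (5 + 2 * ((2 * B + 1 : ℕ) : ℝ)) * (N : ℝ) ^ (1 / 2 + δ / 2)
        ≤ (N : ℝ) ^ (δ / 2) * (N : ℝ) ^ (1 / 2 + δ / 2) := by gcongr
      _ = (N : ℝ) ^ (1 / 2 + δ) := by rw [← Real.rpow_add hN0]; congr 1; ring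
      _ ≤ (N : ℝ) ^ (1 / 2 + δ') := Real.rpow_le_rpow_of_exponent_le hNr (by linarith)
  have hexp := hY₂ Y hYY₂
  have hB0 : (0 : ℝ) ≤ ((2 * B + 1 : ℕ) : ℝ) := Nat.cast_nonneg _
  have h8 : ((2 * B + 1 : ℕ) : ℝ) * 2 * (N : ℝ) ^ (1 / 2 : ℝ) ≤
      2 * ((2 * B + 1 : ℕ) : ℝ) * (N : ℝ) ^ (1 / 2 + δ / 2) := by
    rw [mul_comm ((2 * B + 1 : ℕ) : ℝ) 2]
    gcongr
  have h9 : 2 * (N * Real.exp (-((Y : ℝ) ^ κ))) ≤ N * Real.exp (-((Y : ℝ) ^ (κ / 2))) := by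
    calc 2 * (N * Real.exp (-((Y : ℝ) ^ κ))) = N * (2 * Real.exp (-((Y : ℝ) ^ κ))) := by ring
      _ ≤ _ := by gcongr
  calc (D.card : ℝ) ≤ D₁.card + D₂.card + D₃.card + D₄.card := hcard
    _ ≤ (N : ℝ) ^ (1 / 2 + δ / 2) + 2 * (N * Real.exp (-((Y : ℝ) ^ κ)) +
        (N : ℝ) ^ (1 / 2 + δ / 2)) + 2 * (N : ℝ) ^ (1 / 2 + δ / 2) +
        2 * ((2 * B + 1 : ℕ) : ℝ) * (N : ℝ) ^ (1 / 2 + δ / 2) := by linarith
    _ = 2 * (N * Real.exp (-((Y : ℝ) ^ κ))) +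
        (5 + 2 * ((2 * B + 1 : ℕ) : ℝ)) * (N : ℝ) ^ (1 / 2 + δ / 2) := by ring
    _ ≤ N * Real.exp (-((Y : ℝ) ^ (κ / 2))) + (N : ℝ) ^ (1 / 2 + δ') := by linarith

end Pool.Agent.ARU
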