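import Pool.Agent.Helper8.LargeSieve

set_option autoImplicit false

/-!
# ARU module FOU: finite Fourier expansion of a product of centred periodic functions

Let `q = ∏ p ∈ S, p` and `F n = ∏ p ∈ S, f p n`; `F` is periodic modulo `q`.  Put
`c b = (1/q) ∑_{n<q} F n * conj (eC n (b/q))`, so `F n = ∑_{b<q} c b * eC n (b/q)`
(orthogonality) and `∑_{b<q} ‖c b‖^2 = (1/q) ∑_{n<q} |F n|^2 ≤ 1` (Parseval; see `add_parseval`
and `parseval_of_orth` in Helper8, or use `ZMod.stdAddChar`).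
If `b` is not coprime to `q`, some `p ∈ S` divides `b` and then `c b = 0`: with `q = p q'`,
`b = p b'`, `eC n (b/q) = eC n (b'/q')` is invariant under `n ↦ n + q' j`, so
`p * q * c b = ∑_{n mod q} (∑_{j<p} f p (n + q' j)) * (...) = 0` because `q'` is invertible modulo
`p`, hence `j ↦ n + q' j` runs through all residues modulo `p`, and `∑_{j<p} f p j = 0`; the other
factors `f p' (n + q' j) = f p' n` as `p' ∣ q'`.
Finally `∑ a n F n = ∑_{b coprime} c b * (∑ a n eC n (b/q))` and Cauchy-Schwarz.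
-/

namespace Pool.Agent.ARU

open Pool.Agent.Helper8.ArtinLS ComplexConjugate

/-- The mean value over a progression whose difference is coprime to `p`. -/
theorem fou_shift {p : ℕ} (hp : p.Prime) {g : ℕ → ℝ} (hper : ∀ n, g (n + p) = g n)
    (hmean : ∑ j ∈ Finset.range p, g j = 0) {r : ℕ} (hr : Nat.Coprime r p) (n : ℕ) :
    ∑ j ∈ Finset.range p, g (n + j * r) = 0 := by
  have hmod : ∀ m, g (m % p) = g m := fun m => Function.Periodic.map_mod_nat hper m
  rw [← hmean]
  refine Finset.sum_bij (fun j _ => (n + j * r) % p) ?_ ?_ ?_ ?_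
  · intro j _
    exact Finset.mem_range.2 (Nat.mod_lt _ hp.pos)
  · intro i hi j hj hij
    have hi' := Finset.mem_range.1 hi
    have hj' := Finset.mem_range.1 hj
    have h1 : n + i * r ≡ n + j * r [MOD p] := hij
    have h2 : i * r ≡ j * r [MOD p] := Nat.ModEq.add_left_cancel' n h1
    have h3 : i ≡ j [MOD p] := Nat.ModEq.cancel_right_of_coprime
      (by rw [Nat.gcd_comm]; exact hr) h2
    exact Nat.ModEq.eq_of_lt_of_lt h3 hi' hj'
  · intro m hm
    have hm' := Finset.mem_range.1 hm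
    have : Fact p.Prime := ⟨hp⟩
    have hr0 : (r : ZMod p) ≠ 0 := by
      rw [Ne, ZMod.natCast_eq_zero_iff]
      intro h
      have h1 := Nat.Coprime.eq_one_of_dvd hr.symm h
      exact hp.one_lt.ne' h1
    set x : ZMod p := ((m : ZMod p) - n) * (r : ZMod p)⁻¹ with hx
    refine ⟨x.val, Finset.mem_range.2 (ZMod.val_lt x), ?_⟩
    have h1 : ((n + x.val * r : ℕ) : ZMod p) = (m : ZMod p) := by
      push_cast
      rw [ZMod.natCast_zmod_val, hx, mul_assoc, inv_mul_cancel₀ hr0, mul_one]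
      ring
    have h2 : n + x.val * r ≡ m [MOD p] := (ZMod.natCast_eq_natCast_iff _ _ _).1 h1
    have h3 : (n + x.val * r) % p = m % p := h2
    rw [h3, Nat.mod_eq_of_lt hm']
  · intro j _
    exact (hmod _).symm

theorem fourier_bound (S : Finset ℕ) (hS : ∀ p ∈ S, p.Prime) (f : ℕ → ℕ → ℝ)
    (hper : ∀ p ∈ S, ∀ n, f p (n + p) = f p n)
    (hmean : ∀ p ∈ S, ∑ j ∈ Finset.range p, f p j = 0)
    (hb : ∀ p ∈ S, ∀ n, |f p n| ≤ 1) (N : ℕ) (a : ℕ → ℂ) :
    ‖∑ n ∈ Finset.range (N + 1), a n * ((∏ p ∈ S, f p n : ℝ) : ℂ)‖ ^ 2 ≤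
      ∑ b ∈ (Finset.range (∏ p ∈ S, p)).filter (fun b => Nat.Coprime b (∏ p ∈ S, p)),
        ‖∑ n ∈ Finset.range (N + 1), a n * eC n ((b : ℝ) / ((∏ p ∈ S, p : ℕ) : ℝ))‖ ^ 2 := by
  classical
  set q : ℕ := ∏ p ∈ S, p with hq
  have hq0 : 0 < q := Finset.prod_pos (fun p hp => (hS p hp).pos)
  have : NeZero q := ⟨hq0.ne'⟩
  have hqC : (q : ℂ) ≠ 0 := Nat.cast_ne_zero.2 hq0.ne'
  have hdvd : ∀ p ∈ S, p ∣ q := fun p hp => Finset.dvd_prod_of_mem _ hp
  have hmod : ∀ p ∈ S, ∀ m m' : ℕ, m ≡ m' [MOD p] → f p m = f p m' := by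
    intro p hp m m' h
    have h1 := Function.Periodic.map_mod_nat (hper p hp) m
    have h2 := Function.Periodic.map_mod_nat (hper p hp) m'
    have h3 : m % p = m' % p := h
    rw [← h1, ← h2, h3]
  set G : ZMod q → ℝ := fun x => ∏ p ∈ S, f p x.val with hGdef
  have hval : ∀ n : ℕ, ((n : ZMod q).val) ≡ n [MOD q] := by
    intro n
    rw [ZMod.val_natCast]
    exact Nat.mod_modEq n q
  have hG : ∀ n : ℕ, G (n : ZMod q) = ∏ p ∈ S, f p n := by
    intro n
    refine Finset.prod_congr rfl fun p hp => hmod p hp _ _ ?_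
    exact (hval n).of_dvd (hdvd p hp)
  have hG1 : ∀ x, |G x| ≤ 1 := by
    intro x
    rw [hGdef]
    simp only
    rw [Finset.abs_prod]
    exact Finset.prod_le_one (fun _ _ => abs_nonneg _) (fun p hp => hb p hp _)
  set ψ : AddChar (ZMod q) ℂ := ZMod.stdAddChar with hψ
  have hψprim := ZMod.isPrimitive_stdAddChar q
  have hψn : ∀ x, ‖ψ x‖ = 1 := fun x => by
    rw [hψ]
    exact Circle.norm_coe _
  set c : ZMod q → ℂ := fun b => (q : ℂ)⁻¹ * ∑ x, ψ (-(b * x)) * (G x : ℂ) with hc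
  -- inversion
  have hinv : ∀ x, (G x : ℂ) = ∑ b, c b * ψ (b * x) := by
    intro x
    have h1 : ∀ b, c b * ψ (b * x) = (q : ℂ)⁻¹ * ∑ y, ψ (b * (x - y)) * (G y : ℂ) := by
      intro b
      rw [hc]
      simp only
      rw [mul_assoc, Finset.sum_mul]
      congr 1
      refine Finset.sum_congr rfl fun y _ => ?_
      rw [show b * (x - y) = -(b * y) + b * x by ring, AddChar.map_add_eq_mul]
      ring
    simp only [h1]
    rw [← Finset.mul_sum, Finset.sum_comm]
    have h2 : ∀ y, ∑ b, ψ (b * (x - y)) * (G y : ℂ) = if x = y then (q : ℂ) * G y else 0 := by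
      intro y
      rw [← Finset.sum_mul, AddChar.sum_mulShift (x - y) hψprim]
      by_cases hxy : x = y
      · subst hxy
        simp [ZMod.card]
      · rw [if_neg (sub_ne_zero.2 hxy), if_neg hxy]
        simp
    simp only [h2]
    rw [Finset.sum_ite_eq, if_pos (Finset.mem_univ x), ← mul_assoc, inv_mul_cancel₀ hqC, one_mul]
  -- Parseval
  have hpars : ∑ b, ‖c b‖ ^ 2 ≤ 1 := by
    have h1 : ∑ b : ZMod q, ‖∑ x : ZMod q, ψ (-(b * x)) * (G x : ℂ)‖ ^ 2
        = (q : ℝ) * ∑ x : ZMod q, ‖(G x : ℂ)‖ ^ 2 := by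
      apply parseval_of_orth
      intro h _ k _
      have h2 : ∀ b : ZMod q, ψ (-(b * h)) * conj (ψ (-(b * k))) = ψ (b * (k - h)) := by
        intro b
        rw [← AddChar.map_neg_eq_conj, ← AddChar.map_add_eq_mul]
        congr 1
        ring
      simp only [h2]
      rw [AddChar.sum_mulShift (k - h) hψprim]
      by_cases hhk : h = k
      · subst hhk
        simp [ZMod.card]
      · rw [if_neg (sub_ne_zero.mpr (Ne.symm hhk)), if_neg hhk]
        simp
    have h2 : ∀ b, ‖c b‖ ^ 2 = ((q : ℝ) ^ 2)⁻¹ * ‖∑ x : ZMod q, ψ (-(b * x)) * (G x : ℂ)‖ ^ 2 := by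
      intro b
      rw [hc]
      simp only
      rw [norm_mul, norm_inv, Complex.norm_natCast, mul_pow, inv_pow]
    simp only [h2]
    rw [← Finset.mul_sum, h1]
    have h3 : ∑ x : ZMod q, ‖(G x : ℂ)‖ ^ 2 ≤ q := by
      calc ∑ x : ZMod q, ‖(G x : ℂ)‖ ^ 2 ≤ ∑ _x : ZMod q, (1 : ℝ) := by
            refine Finset.sum_le_sum fun x _ => ?_
            rw [Complex.norm_real, Real.norm_eq_abs]
            exact pow_le_one₀ (abs_nonneg _) (hG1 x)
        _ = q := by simp [ZMod.card]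
    have hqR : (0 : ℝ) < q := Nat.cast_pos.2 hq0
    calc ((q : ℝ) ^ 2)⁻¹ * ((q : ℝ) * ∑ x : ZMod q, ‖(G x : ℂ)‖ ^ 2)
        ≤ ((q : ℝ) ^ 2)⁻¹ * ((q : ℝ) * q) := by gcongr
      _ = 1 := by field_simp
  -- vanishing
  have hzero : ∀ b : ZMod q, ¬ Nat.Coprime b.val q → c b = 0 := by
    intro b hb'
    obtain ⟨p, hp, hpb, hpq⟩ := Nat.Prime.not_coprime_iff_dvd.1 hb'
    have hpS : p ∈ S := by
      obtain ⟨p', hp', hd⟩ := (Prime.dvd_finsetProd_iff hp.prime _).1 hpq
      have := (Nat.prime_dvd_prime_iff_eq hp (hS p' hp')).1 hd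
      rwa [this]
    set r : ℕ := ∏ p' ∈ S.erase p, p' with hr
    have hqr : p * r = q := by
      rw [hr, hq]
      exact Finset.mul_prod_erase S (fun p => p) hpS
    have hcop : Nat.Coprime r p := by
      rw [hr]
      refine Nat.Coprime.prod_left fun p' hp' => ?_
      rw [Nat.coprime_primes (hS p' (Finset.mem_of_mem_erase hp')) hp]
      exact Finset.ne_of_mem_erase hp'
    obtain ⟨b', hb''⟩ := hpb
    have hbt : b * (r : ZMod q) = 0 := by
      have h1 : b = ((b.val : ℕ) : ZMod q) := (ZMod.natCast_zmod_val b).symm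
      rw [h1, hb'', ← Nat.cast_mul, show p * b' * r = p * r * b' by ring, hqr, Nat.cast_mul,
        ZMod.natCast_self, zero_mul]
    have hsumG : ∀ x : ZMod q, ∑ j ∈ Finset.range p, G (x + j * r) = 0 := by
      intro x
      have h1 : ∀ j : ℕ, G (x + j * r)
          = f p (x.val + j * r) * ∏ p' ∈ S.erase p, f p' x.val := by
        intro j
        have h2 : x + j * r = ((x.val + j * r : ℕ) : ZMod q) := by
          push_cast
          rw [ZMod.natCast_zmod_val]
        rw [h2, hG, ← Finset.mul_prod_erase S _ hpS]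
        congr 1
        refine Finset.prod_congr rfl fun p' hp' => hmod p' (Finset.mem_of_mem_erase hp') _ _ ?_
        have h3 : p' ∣ r := Finset.dvd_prod_of_mem _ hp'
        have h4 : j * r ≡ 0 [MOD p'] := (Nat.modEq_zero_iff_dvd).2 (h3.mul_left j)
        exact (Nat.ModEq.add_left _ h4).trans (by rw [add_zero])
      simp only [h1]
      rw [← Finset.sum_mul, fou_shift hp (hper p hpS) (hmean p hpS) hcop, zero_mul]
    have hshift : ∀ j : ℕ, ∑ x, ψ (-(b * x)) * (G x : ℂ)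
        = ∑ x, ψ (-(b * x)) * (G (x + j * r) : ℂ) := by
      intro j
      rw [← Equiv.sum_comp (Equiv.addRight ((j : ZMod q) * r))
        (fun x => ψ (-(b * x)) * (G x : ℂ))]
      refine Finset.sum_congr rfl fun x _ => ?_
      simp only [Equiv.coe_addRight]
      congr 2
      rw [mul_add, show b * ((j : ZMod q) * r) = j * (b * r) by ring, hbt, mul_zero, add_zero]
    have hp0 : (p : ℂ) ≠ 0 := Nat.cast_ne_zero.2 hp.ne_zero
    have h2 : (p : ℂ) * ∑ x, ψ (-(b * x)) * (G x : ℂ) = 0 := by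
      have h3 : ∑ j ∈ Finset.range p, ∑ x, ψ (-(b * x)) * (G x : ℂ)
          = (p : ℂ) * ∑ x, ψ (-(b * x)) * (G x : ℂ) := by
        rw [Finset.sum_const, Finset.card_range, nsmul_eq_mul]
      rw [← h3, Finset.sum_congr rfl (fun j _ => hshift j), Finset.sum_comm]
      refine Finset.sum_eq_zero fun x _ => ?_
      rw [← Finset.mul_sum, ← Complex.ofReal_sum, hsumG x, Complex.ofReal_zero, mul_zero]
    have h4 := (mul_eq_zero.1 h2).resolve_left hp0
    rw [hc]
    simp only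
    rw [h4, mul_zero]
  -- the exponential sums
  set E : ZMod q → ℂ := fun b => ∑ n ∈ Finset.range (N + 1), a n * ψ (b * (n : ZMod q)) with hE
  have hmain : ∑ n ∈ Finset.range (N + 1), a n * ((∏ p ∈ S, f p n : ℝ) : ℂ)
      = ∑ b ∈ Finset.univ.filter (fun b : ZMod q => Nat.Coprime b.val q), c b * E b := by
    have h1 : ∑ n ∈ Finset.range (N + 1), a n * ((∏ p ∈ S, f p n : ℝ) : ℂ)
        = ∑ b, c b * E b := by
      have h2 : ∀ n : ℕ, a n * ((∏ p ∈ S, f p n : ℝ) : ℂ)
          = ∑ b, c b * (a n * ψ (b * (n : ZMod q))) := by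
        intro n
        rw [← hG n, hinv, Finset.mul_sum]
        exact Finset.sum_congr rfl fun b _ => by ring
      simp only [h2]
      rw [Finset.sum_comm]
      exact Finset.sum_congr rfl fun b _ => by rw [hE]; simp only [Finset.mul_sum]
    rw [h1]
    symm
    refine Finset.sum_subset (Finset.subset_univ _) fun b _ hb' => ?_
    rw [hzero b (fun h => hb' (Finset.mem_filter.2 ⟨Finset.mem_univ _, h⟩)), zero_mul]
  have hEeq : ∀ b : ZMod q, E b
      = ∑ n ∈ Finset.range (N + 1), a n * eC n ((b.val : ℝ) / (q : ℝ)) := by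
    intro b
    rw [hE]
    simp only
    refine Finset.sum_congr rfl fun n _ => ?_
    congr 1
    have h4 : b * (n : ZMod q) = (((b.val * n : ℕ) : ℤ) : ZMod q) := by
      push_cast
      rw [ZMod.natCast_zmod_val]
    rw [h4, hψ, ZMod.stdAddChar_coe]
    unfold eC
    congr 1
    push_cast
    ring
  have hreindex : ∑ b ∈ Finset.univ.filter (fun b : ZMod q => Nat.Coprime b.val q), ‖E b‖ ^ 2
      = ∑ b ∈ (Finset.range q).filter (fun b => Nat.Coprime b q),
        ‖∑ n ∈ Finset.range (N + 1), a n * eC n ((b : ℝ) / (q : ℝ))‖ ^ 2 := by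
    refine Finset.sum_bij (fun b _ => b.val) ?_ ?_ ?_ ?_
    · intro b hb'
      exact Finset.mem_filter.2 ⟨Finset.mem_range.2 (ZMod.val_lt b), (Finset.mem_filter.1 hb').2⟩
    · intro b _ b' _ h
      exact ZMod.val_injective q h
    · intro m hm
      have hm' := Finset.mem_filter.1 hm
      refine ⟨(m : ZMod q), ?_, ZMod.val_cast_of_lt (Finset.mem_range.1 hm'.1)⟩
      refine Finset.mem_filter.2 ⟨Finset.mem_univ _, ?_⟩
      rw [ZMod.val_cast_of_lt (Finset.mem_range.1 hm'.1)]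
      exact hm'.2
    · intro b _
      rw [hEeq b]
  rw [hmain, ← hreindex]
  set B := Finset.univ.filter (fun b : ZMod q => Nat.Coprime b.val q) with hB
  calc ‖∑ b ∈ B, c b * E b‖ ^ 2 ≤ (∑ b ∈ B, ‖c b‖ * ‖E b‖) ^ 2 := by
        gcongr
        refine (norm_sum_le _ _).trans (le_of_eq ?_)
        exact Finset.sum_congr rfl fun b _ => norm_mul _ _
    _ ≤ (∑ b ∈ B, ‖c b‖ ^ 2) * ∑ b ∈ B, ‖E b‖ ^ 2 := Finset.sum_mul_sq_le_sq_mul_sq _ _ _
    _ ≤ 1 * ∑ b ∈ B, ‖E b‖ ^ 2 := by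
        refine mul_le_mul_of_nonneg_right ?_ (Finset.sum_nonneg fun _ _ => sq_nonneg _)
        refine le_trans ?_ hpars
        exact Finset.sum_le_sum_of_subset_of_nonneg (Finset.subset_univ _)
          fun _ _ _ => sq_nonneg _
    _ = ∑ b ∈ B, ‖E b‖ ^ 2 := one_mul _

end Pool.Agent.ARU
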