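import Pool.Agent.ARU.Defs

set_option autoImplicit false

/-!
# ARU module MEA: the main term

For an odd prime `p` and `a = ± 1`: `∑_{j<p} gg a p j = φ(p-1)` (the map `j ↦ a j` permutes the
residues; the number of elements of order `p - 1` is `φ(p-1)`, see `card_primitive` in
`Helper8.ArtinChar`), so `mm a p = φ(p-1)/p` and `0 ≤ φ(p-1)/(p-1) - mm a p ≤ 1/p`.
`artinP (a m) x = gg a 2 m + ∑_{odd p ≤ x} gg a p m`, `∑_{p ≤ x} 1/p ≤ 1 + log x`.
-/

namespace Pool.Agent.ARU

open Pool.Agent.Helper8.ArtinLS Pool.Agent.Helper8.ArtinC Pool.Agent.Helper6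

/-- sums over a complete residue system -/
private lemma sum_range_zmod (p : ℕ) [Fact p.Prime] (F : ZMod p → ℝ) :
    ∑ j ∈ Finset.range p, F (j : ZMod p) = ∑ x : ZMod p, F x := by
  refine Finset.sum_nbij' (fun j => (j : ZMod p)) (fun x => x.val) ?_ ?_ ?_ ?_ ?_
  · intro j _
    exact Finset.mem_univ _
  · intro x _
    exact Finset.mem_range.2 (ZMod.val_lt x)
  · intro j hj
    exact ZMod.val_natCast_of_lt (Finset.mem_range.1 hj)
  · intro x _
    exact ZMod.natCast_zmod_val x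
  · intro j _
    rfl

private lemma sum_gg (a : ℤ) (ha : a = 1 ∨ a = -1) (p : ℕ) (hp : p.Prime) :
    ∑ j ∈ Finset.range p, gg a p j = (Nat.totient (p - 1) : ℝ) := by
  classical
  have : Fact p.Prime := ⟨hp⟩
  have h1 : ∀ j : ℕ, gg a p j = (fun x : ZMod p => if orderOf ((a : ZMod p) * x) = p - 1
      then (1 : ℝ) else 0) (j : ZMod p) := by
    intro j
    unfold gg
    push_cast
    rfl
  rw [Finset.sum_congr rfl (fun j _ => h1 j),
    sum_range_zmod p (fun x : ZMod p => if orderOf ((a : ZMod p) * x) = p - 1 then (1 : ℝ) else 0)]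
  have h2 : ∑ x : ZMod p, (if orderOf ((a : ZMod p) * x) = p - 1 then (1 : ℝ) else 0) =
      ∑ x : ZMod p, (if orderOf x = p - 1 then (1 : ℝ) else 0) := by
    have hinv : Function.Involutive (fun x : ZMod p => (a : ZMod p) * x) := by
      intro x
      rcases ha with rfl | rfl <;> simp
    exact Equiv.sum_comp hinv.toPerm (fun x : ZMod p => if orderOf x = p - 1 then (1 : ℝ) else 0)
  rw [h2, Finset.sum_ite, Finset.sum_const_zero, add_zero, Finset.sum_const, card_primitive]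
  simp

private lemma mm_close (a : ℤ) (ha : a = 1 ∨ a = -1) (p : ℕ) (hp : p.Prime) :
    |(Nat.totient (p - 1) : ℝ) / ((p - 1 : ℕ) : ℝ) - mm a p| ≤ 1 / p := by
  unfold mm
  rw [sum_gg a ha p hp]
  have hp1 : 1 ≤ p - 1 := by have := hp.two_le; omega
  have h1 : (0 : ℝ) < ((p - 1 : ℕ) : ℝ) := by exact_mod_cast (by omega : 0 < p - 1)
  have h2 : (p : ℝ) = ((p - 1 : ℕ) : ℝ) + 1 := by
    have : p = (p - 1) + 1 := by omega
    conv_lhs => rw [this]
    push_cast
    rfl
  have h3 : (Nat.totient (p - 1) : ℝ) ≤ ((p - 1 : ℕ) : ℝ) := by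
    exact_mod_cast Nat.totient_le _
  have h4 : (0 : ℝ) ≤ (Nat.totient (p - 1) : ℝ) := Nat.cast_nonneg _
  rw [h2]
  generalize ((p - 1 : ℕ) : ℝ) = u at *
  generalize (Nat.totient (p - 1) : ℝ) = v at *
  have h5 : v / u - v / (u + 1) = (v / u) * (1 / (u + 1)) := by
    field_simp
    ring
  rw [h5, abs_of_nonneg (by positivity)]
  have h6 : v / u ≤ 1 := (div_le_one h1).2 h3
  exact mul_le_of_le_one_left (by positivity) h6

private lemma sum_inv_le (x : ℕ) : ∑ p ∈ oddPrimes x, (1 : ℝ) / p ≤ 1 + Real.log x := by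
  have h1 : ∑ p ∈ oddPrimes x, (1 : ℝ) / p ≤ ∑ p ∈ Finset.Icc 1 x, (1 : ℝ) / p := by
    refine Finset.sum_le_sum_of_subset_of_nonneg ?_ (fun p _ _ => by positivity)
    intro p hp
    rw [mem_oddPrimes] at hp
    exact Finset.mem_Icc.2 ⟨hp.2.1.one_le, hp.1⟩
  have h2 : ∑ p ∈ Finset.Icc 1 x, (1 : ℝ) / p = ((harmonic x : ℚ) : ℝ) := by
    rw [harmonic_eq_sum_Icc]
    push_cast
    exact Finset.sum_congr rfl (fun p _ => one_div _)
  rw [h2] at h1
  exact h1.trans (harmonic_le_one_add_log x)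

theorem main_error (a : ℤ) (ha : a = 1 ∨ a = -1) (m x : ℕ) (hx : 1 ≤ x) :
    |artinP (a * (m : ℤ)) x - artinEC x - ∑ p ∈ oddPrimes x, ff a p m| ≤ 2 + Real.log x := by
  classical
  set mn : ℕ → ℝ := fun p => ((Nat.totient (p - 1) : ℝ) / ((p - 1 : ℕ) : ℝ)) with hmn
  have hP : artinP (a * (m : ℤ)) x =
      ∑ p ∈ (Finset.range (x + 1)).filter (fun p : ℕ => p.Prime), gg a p m := by
    unfold artinP
    rw [← Finset.filter_filter, Finset.card_filter]
    unfold gg
    push_cast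
    rfl
  set S := (Finset.range (x + 1)).filter (fun p : ℕ => p.Prime) with hS
  have hsplit : ∑ p ∈ S, gg a p m = ∑ p ∈ S.filter (fun p => p = 2), gg a p m +
      ∑ p ∈ S.filter (fun p => ¬ p = 2), gg a p m :=
    (Finset.sum_filter_add_sum_filter_not _ _ _).symm
  have hodd : S.filter (fun p => ¬ p = 2) = oddPrimes x := by
    rw [hS, Finset.filter_filter]
    rfl
  have hE : artinEC x = ∑ p ∈ oddPrimes x, mn p := rfl
  have key : artinP (a * (m : ℤ)) x - artinEC x - ∑ p ∈ oddPrimes x, ff a p m =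
      ∑ p ∈ S.filter (fun p => p = 2), gg a p m - ∑ p ∈ oddPrimes x, (mn p - mm a p) := by
    rw [hP, hE, hsplit, hodd]
    unfold ff
    rw [Finset.sum_sub_distrib, Finset.sum_sub_distrib]
    ring
  have hb1 : |∑ p ∈ S.filter (fun p => p = 2), gg a p m| ≤ 1 := by
    have h1 : S.filter (fun p => p = 2) ⊆ {2} := by
      intro p hp
      simp only [Finset.mem_filter] at hp
      simp [hp.2]
    rw [abs_of_nonneg (Finset.sum_nonneg fun p _ => gg_nonneg a p m)]
    calc ∑ p ∈ S.filter (fun p => p = 2), gg a p m ≤ ∑ p ∈ ({2} : Finset ℕ), gg a p m :=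
          Finset.sum_le_sum_of_subset_of_nonneg h1 fun p _ _ => gg_nonneg a p m
      _ = gg a 2 m := Finset.sum_singleton _ _
      _ ≤ 1 := gg_le_one a 2 m
  have hb2 : |∑ p ∈ oddPrimes x, (mn p - mm a p)| ≤ 1 + Real.log x := by
    refine (Finset.abs_sum_le_sum_abs _ _).trans ?_
    refine (Finset.sum_le_sum fun p hp => ?_).trans (sum_inv_le x)
    rw [mem_oddPrimes] at hp
    exact mm_close a ha p hp.2.1
  rw [key]
  calc |∑ p ∈ S.filter (fun p => p = 2), gg a p m - ∑ p ∈ oddPrimes x, (mn p - mm a p)|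
      ≤ |∑ p ∈ S.filter (fun p => p = 2), gg a p m| + |∑ p ∈ oddPrimes x, (mn p - mm a p)| :=
        abs_sub _ _
    _ ≤ 2 + Real.log x := by linarith

end Pool.Agent.ARU
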