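import Pool.Agent.ARU.Far
import Pool.Agent.ARU.Fou

set_option autoImplicit false

/-!
# ARU module MOM: the moment over products of `k` distinct primes

Sum `fourier_bound` over `S ∈ P.powersetCard k`; the moduli `∏ p ∈ S, p` are different for
different `S` (unique factorisation: `(∏ p ∈ S, p).primeFactors = S`), at least `2` (`1 ≤ k`) and
at most `x ^ k`; then `farey_large_sieve` with `X = x ^ k`.
-/

namespace Pool.Agent.ARU

open Pool.Agent.Helper8.ArtinLS

theorem moment (x N k : ℕ) (hk : 1 ≤ k) (P : Finset ℕ) (hP : ∀ p ∈ P, p.Prime ∧ p ≤ x)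
    (f : ℕ → ℕ → ℝ) (hper : ∀ p ∈ P, ∀ n, f p (n + p) = f p n)
    (hmean : ∀ p ∈ P, ∑ j ∈ Finset.range p, f p j = 0)
    (hb : ∀ p ∈ P, ∀ n, |f p n| ≤ 1) (a : ℕ → ℂ) :
    ∑ S ∈ P.powersetCard k, ‖∑ n ∈ Finset.range (N + 1), a n * ((∏ p ∈ S, f p n : ℝ) : ℂ)‖ ^ 2 ≤
      ((x : ℝ) ^ (2 * k) + 4 * Real.pi * (N + 1)) * ∑ n ∈ Finset.range (N + 1), ‖a n‖ ^ 2 := by
  classical
  set G : ℕ → ℝ := fun q => ∑ b ∈ (Finset.range q).filter (fun b => Nat.Coprime b q),
    ‖∑ n ∈ Finset.range (N + 1), a n * eC n ((b : ℝ) / (q : ℝ))‖ ^ 2 with hG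
  have hG0 : ∀ q, 0 ≤ G q := fun q => Finset.sum_nonneg fun b _ => by positivity
  have hprime : ∀ S ∈ P.powersetCard k, ∀ p ∈ S, p.Prime := fun S hS p hp =>
    (hP p ((Finset.mem_powersetCard.1 hS).1 hp)).1
  have h1 : ∑ S ∈ P.powersetCard k,
      ‖∑ n ∈ Finset.range (N + 1), a n * ((∏ p ∈ S, f p n : ℝ) : ℂ)‖ ^ 2 ≤
      ∑ S ∈ P.powersetCard k, G (∏ p ∈ S, p) := by
    refine Finset.sum_le_sum fun S hS => ?_
    have hsub := (Finset.mem_powersetCard.1 hS).1
    exact fourier_bound S (hprime S hS) f (fun p hp => hper p (hsub hp))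
      (fun p hp => hmean p (hsub hp)) (fun p hp => hb p (hsub hp)) N a
  have hinj : Set.InjOn (fun S : Finset ℕ => ∏ p ∈ S, p)
      (P.powersetCard k : Set (Finset ℕ)) := by
    intro S hS S' hS' h
    have h2 := congrArg Nat.primeFactors h
    simp only at h2
    rwa [Nat.primeFactors_prod (hprime S hS), Nat.primeFactors_prod (hprime S' hS')] at h2
  have h2 : ∑ S ∈ P.powersetCard k, G (∏ p ∈ S, p) =
      ∑ q ∈ (P.powersetCard k).image (fun S : Finset ℕ => ∏ p ∈ S, p), G q :=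
    (Finset.sum_image hinj).symm
  have h3 : (P.powersetCard k).image (fun S : Finset ℕ => ∏ p ∈ S, p) ⊆
      Finset.Icc 2 (x ^ k) := by
    intro q hq
    obtain ⟨S, hS, rfl⟩ := Finset.mem_image.1 hq
    obtain ⟨hsub, hcard⟩ := Finset.mem_powersetCard.1 hS
    rw [Finset.mem_Icc]
    constructor
    · have hne : S.Nonempty := by
        rw [← Finset.card_pos, hcard]
        omega
      obtain ⟨p, hp⟩ := hne
      have hpp := hprime S hS p hp
      have hpos : 0 < ∏ p ∈ S, p := Finset.prod_pos fun p hp => (hprime S hS p hp).pos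
      exact hpp.two_le.trans (Nat.le_of_dvd hpos (Finset.dvd_prod_of_mem _ hp))
    · rw [← hcard]
      exact Finset.prod_le_pow_card _ _ _ fun p hp => (hP p (hsub hp)).2
  have h4 := farey_large_sieve (x ^ k) N a
  have h5 : ∑ q ∈ (P.powersetCard k).image (fun S : Finset ℕ => ∏ p ∈ S, p), G q ≤
      ∑ q ∈ Finset.Icc 2 (x ^ k), G q :=
    Finset.sum_le_sum_of_subset_of_nonneg h3 fun q _ _ => hG0 q
  have h6 : (((x ^ k : ℕ) : ℝ)) ^ 2 = (x : ℝ) ^ (2 * k) := by
    push_cast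
    rw [← pow_mul, mul_comm]
  rw [h6] at h4
  rw [h2] at h1
  exact h1.trans (h5.trans h4)

end Pool.Agent.ARU
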