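import Mathlib

set_option autoImplicit false

/-!
# ARU module NEW: elementary symmetric functions are large if the sum is large

Let `e j = ∑ S ∈ P.powersetCard j, ∏ p ∈ S, f p`, `p i = ∑ p ∈ P, f p ^ i`, `n = P.card`,
`L = |p 1|`.  If `k = 0` or `P = ∅` the claim is trivial (if `P = ∅`, `k ≥ 1`, the left side is
`0`).  Otherwise `L^2 ≥ 8 k^2 n ≥ 8 k^2`, so `k / L ≤ 1 / 2` and `L > 0`.
Newton (`MvPolynomial.mul_esymm_eq_sum`, or a direct proof):
`j * e j = ∑_{i=1}^{j} (-1)^(i-1) e (j-i) p i`.  With `A j = e j * j! / (p 1)^j`: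
`A j = A (j-1) + ∑_{i=2}^{j} (-1)^(i-1) A (j-i) * (p i / (p 1)^i) * ((j-1)! / (j-i)!)`,
`|p i| ≤ n`, `(j-1)!/(j-i)! ≤ k^(i-1)` for `j ≤ k`.  Induction on `j ≤ k`: if `|A i| ≤ 3/2` for
`i < j`, then `|A j - A (j-1)| ≤ (3/2) (n k / L^2) ∑_{s≥0} (k/L)^s ≤ 3 n k / L^2 ≤ 3 / (8 k) ≤
1 / (2 k)`, so `|A j - 1| ≤ j / (2 k) ≤ 1/2`.  Hence `|e k| ≥ L^k / (2 k!)`.
-/

namespace Pool.Agent.ARU

open Finset

/-- Newton's identity. -/
private lemma new_newton (P : Finset ℕ) (f : ℕ → ℝ) (m : ℕ) :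
    ((m : ℝ) + 1) * ∑ S ∈ P.powersetCard (m + 1), ∏ p ∈ S, f p =
      (∑ S ∈ P.powersetCard m, ∏ p ∈ S, f p) * (∑ p ∈ P, f p) +
      ∑ i ∈ range m, (-1) ^ (m + i) * (∑ S ∈ P.powersetCard i, ∏ p ∈ S, f p) *
        (∑ p ∈ P, f p ^ (m + 1 - i)) := by
  have h := MvPolynomial.mul_esymm_eq_sum {x // x ∈ P} ℝ (m + 1)
  have h2 := congrArg (MvPolynomial.aeval (fun x : {x // x ∈ P} => f x)) h
  have he : ∀ j, MvPolynomial.aeval (fun x : {x // x ∈ P} => f x)
      (MvPolynomial.esymm {x // x ∈ P} ℝ j) = ∑ S ∈ P.powersetCard j, ∏ p ∈ S, f p := by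
    intro j
    rw [MvPolynomial.aeval_esymm_eq_multiset_esymm, ← Finset.esymm_map_val]
    congr 1
    rw [univ_eq_attach]
    exact Multiset.attach_map_val' P.val f
  have hp : ∀ j, MvPolynomial.aeval (fun x : {x // x ∈ P} => f x)
      (MvPolynomial.psum {x // x ∈ P} ℝ j) = ∑ p ∈ P, f p ^ j := by
    intro j
    rw [MvPolynomial.psum, map_sum]
    simp only [map_pow, MvPolynomial.aeval_X]
    rw [univ_eq_attach, Finset.sum_attach P (fun x => f x ^ j)]
  simp only [map_mul, map_sum, map_pow, map_neg, map_one, he, hp, map_natCast] at h2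
  rw [Finset.sum_filter, Finset.Nat.sum_antidiagonal_eq_sum_range_succ_mk] at h2
  simp only at h2
  rw [Finset.sum_range_succ, if_neg (lt_irrefl _), add_zero] at h2
  have h3 : ∑ i ∈ range (m + 1), (if i < m + 1 then
      (-1 : ℝ) ^ i * (∑ S ∈ P.powersetCard i, ∏ p ∈ S, f p) * ∑ p ∈ P, f p ^ (m + 1 - i) else 0) =
      ∑ i ∈ range (m + 1), (-1 : ℝ) ^ i * (∑ S ∈ P.powersetCard i, ∏ p ∈ S, f p) *
        ∑ p ∈ P, f p ^ (m + 1 - i) :=
    sum_congr rfl fun i hi => if_pos (mem_range.mp hi)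
  rw [h3, Finset.sum_range_succ, mul_add] at h2
  push_cast at h2
  rw [h2, add_comm]
  congr 1
  · rw [show m + 1 - m = 1 by omega]
    simp only [pow_one]
    have : (-1 : ℝ) ^ (m + 1 + 1) * (-1) ^ m = 1 := by
      rw [← pow_add, show m + 1 + 1 + m = 2 * (m + 1) by ring, pow_mul]
      simp
    calc (-1 : ℝ) ^ (m + 1 + 1) * ((-1) ^ m * (∑ S ∈ P.powersetCard m, ∏ p ∈ S, f p) *
          ∑ p ∈ P, f p) = ((-1 : ℝ) ^ (m + 1 + 1) * (-1) ^ m) *
          ((∑ S ∈ P.powersetCard m, ∏ p ∈ S, f p) * ∑ p ∈ P, f p) := by ring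
      _ = _ := by rw [this, one_mul]
  · rw [mul_sum]
    refine sum_congr rfl fun i _ => ?_
    have : (-1 : ℝ) ^ (m + 1 + 1) * (-1) ^ i = (-1) ^ (m + i) := by
      rw [← pow_add, show m + 1 + 1 + i = (m + i) + 2 by ring, pow_add]
      simp
    rw [← this]
    ring

theorem newton_lower (P : Finset ℕ) (f : ℕ → ℝ) (hf : ∀ p ∈ P, |f p| ≤ 1) (k : ℕ)
    (hk : 8 * (k : ℝ) ^ 2 * P.card ≤ (∑ p ∈ P, f p) ^ 2) :
    |∑ p ∈ P, f p| ^ k / (2 * (k.factorial : ℝ)) ≤
      |∑ S ∈ P.powersetCard k, ∏ p ∈ S, f p| := by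
  classical
  rcases Nat.eq_zero_or_pos k with rfl | hk0
  · simp
    norm_num
  rcases P.eq_empty_or_nonempty with rfl | hP
  · simp [hk0.ne']
  set e : ℕ → ℝ := fun j => ∑ S ∈ P.powersetCard j, ∏ p ∈ S, f p with he
  set s : ℝ := ∑ p ∈ P, f p with hs
  set n : ℝ := (P.card : ℝ) with hn
  set L : ℝ := |s| with hL
  have hk1 : (1 : ℝ) ≤ (k : ℝ) := by exact_mod_cast hk0
  have hn1 : (1 : ℝ) ≤ n := by
    rw [hn]
    exact_mod_cast hP.card_pos
  have hL2 : 8 * (k : ℝ) ^ 2 * n ≤ L ^ 2 := by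
    rw [hL, sq_abs]
    exact hk
  have hL0 : 0 ≤ L := abs_nonneg _
  have hLk : 2 * (k : ℝ) ≤ L := by
    by_contra hcon
    push Not at hcon
    have h1 : L ^ 2 < (2 * (k : ℝ)) ^ 2 := pow_lt_pow_left₀ hcon hL0 two_ne_zero
    nlinarith
  have hLpos : 0 < L := by linarith
  have hs0 : s ≠ 0 := abs_pos.mp hLpos
  have he0 : e 0 = 1 := by simp [he]
  -- power sums
  have hpow : ∀ j, |∑ p ∈ P, f p ^ j| ≤ n := by
    intro j
    calc |∑ p ∈ P, f p ^ j| ≤ ∑ p ∈ P, |f p ^ j| := abs_sum_le_sum_abs _ _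
      _ ≤ ∑ p ∈ P, (1 : ℝ) := by
          refine sum_le_sum fun p hp => ?_
          rw [abs_pow]
          exact pow_le_one₀ (abs_nonneg _) (hf p hp)
      _ = n := by simp [hn]
  -- normalised functions
  set A : ℕ → ℝ := fun j => e j * (j.factorial : ℝ) / s ^ j with hA
  have hAe : ∀ j, |e j| = |A j| * L ^ j / (j.factorial : ℝ) := by
    intro j
    have hf0 : (0 : ℝ) < (j.factorial : ℝ) := by exact_mod_cast j.factorial_pos
    simp only [hA]
    rw [abs_div, abs_mul, abs_pow, abs_of_pos hf0]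
    have : |s| ^ j ≠ 0 := (pow_pos hLpos j).ne'
    field_simp
    rw [hL]
  have hstep : ∀ m, m + 1 ≤ k → (∀ i, i ≤ m → |A i| ≤ 3 / 2) →
      |A (m + 1) - A m| ≤ 1 / (2 * (k : ℝ)) := by
    intro m hmk hAi
    have hN := new_newton P f m
    have hfm : (0 : ℝ) < (m.factorial : ℝ) := by exact_mod_cast m.factorial_pos
    have hN2 : ((m : ℝ) + 1) * e (m + 1) - e m * s =
        ∑ i ∈ range m, (-1) ^ (m + i) * e i * (∑ p ∈ P, f p ^ (m + 1 - i)) := by
      rw [sub_eq_iff_eq_add']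
      exact hN
    have h1 : A (m + 1) - A m = (((m : ℝ) + 1) * e (m + 1) - e m * s) *
        ((m.factorial : ℝ) / s ^ (m + 1)) := by
      simp only [hA]
      rw [Nat.factorial_succ]
      push_cast
      field_simp
      ring
    have h2 : |((m : ℝ) + 1) * e (m + 1) - e m * s| ≤
        ∑ i ∈ range m, (3 / 2 * L ^ i / (i.factorial : ℝ)) * n := by
      rw [hN2]
      refine (abs_sum_le_sum_abs _ _).trans (sum_le_sum fun i hi => ?_)
      rw [mem_range] at hi
      rw [abs_mul, abs_mul, abs_pow, abs_neg, abs_one, one_pow, one_mul]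
      refine mul_le_mul ?_ (hpow _) (abs_nonneg _) (by positivity)
      rw [hAe]
      have := hAi i hi.le
      gcongr
    have h3 : |A (m + 1) - A m| ≤
        (∑ i ∈ range m, (3 / 2 * L ^ i / (i.factorial : ℝ)) * n) *
          ((m.factorial : ℝ) / L ^ (m + 1)) := by
      rw [h1, abs_mul, abs_div, abs_pow, abs_of_pos hfm]
      exact mul_le_mul_of_nonneg_right h2 (by positivity)
    refine h3.trans ?_
    rw [sum_mul]
    -- each term
    have h4 : ∀ i ∈ range m, (3 / 2 * L ^ i / (i.factorial : ℝ)) * n *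
        ((m.factorial : ℝ) / L ^ (m + 1)) ≤ (3 / 2 * n * k / L ^ 2) * (1 / 2) ^ (m - 1 - i) := by
      intro i hi
      rw [mem_range] at hi
      have hfi : (0 : ℝ) < (i.factorial : ℝ) := by exact_mod_cast i.factorial_pos
      have h5 : (m.factorial : ℝ) ≤ (i.factorial : ℝ) * (k : ℝ) ^ (m - i) := by
        have h6 := Nat.factorial_mul_descFactorial (n := m) (k := m - i) (by omega)
        rw [show m - (m - i) = i by omega] at h6
        have h7 : m.descFactorial (m - i) ≤ k ^ (m - i) :=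
          (Nat.descFactorial_le_pow m (m - i)).trans (Nat.pow_le_pow_left (by omega) _)
        have h8 : m.factorial ≤ i.factorial * k ^ (m - i) := by
          rw [← h6]
          exact Nat.mul_le_mul_left _ h7
        exact_mod_cast h8
      have h9 : L ^ (m + 1) = L ^ i * (L ^ (m - 1 - i) * L ^ 2) := by
        rw [← pow_add, ← pow_add]
        congr 1
        omega
      have h10 : (k : ℝ) ^ (m - i) = (k : ℝ) ^ (m - 1 - i) * k := by
        rw [← pow_succ]
        congr 1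
        omega
      have h11 : (k : ℝ) ^ (m - 1 - i) / L ^ (m - 1 - i) ≤ (1 / 2) ^ (m - 1 - i) := by
        rw [← div_pow]
        apply pow_le_pow_left₀ (by positivity)
        rw [div_le_div_iff₀ hLpos two_pos]
        linarith
      calc (3 / 2 * L ^ i / (i.factorial : ℝ)) * n * ((m.factorial : ℝ) / L ^ (m + 1))
          ≤ (3 / 2 * L ^ i / (i.factorial : ℝ)) * n *
            (((i.factorial : ℝ) * (k : ℝ) ^ (m - i)) / L ^ (m + 1)) := by
            gcongr
        _ = (3 / 2 * n * k / L ^ 2) * ((k : ℝ) ^ (m - 1 - i) / L ^ (m - 1 - i)) := by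
            rw [h9, h10]
            field_simp
        _ ≤ _ := by gcongr
    refine (sum_le_sum h4).trans ?_
    rw [← mul_sum, Finset.sum_range_reflect (fun r => (1 / 2 : ℝ) ^ r) m]
    have h5 : ∑ r ∈ range m, (1 / 2 : ℝ) ^ r ≤ 2 := by
      have := geom_sum_eq (show (1 / 2 : ℝ) ≠ 1 by norm_num) m
      rw [this]
      have : (0 : ℝ) < (1 / 2) ^ m := by positivity
      rw [div_le_iff_of_neg (by norm_num)]
      linarith
    have hc : 0 ≤ 3 / 2 * n * k / L ^ 2 := by positivity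
    calc 3 / 2 * n * k / L ^ 2 * ∑ r ∈ range m, (1 / 2 : ℝ) ^ r
        ≤ 3 / 2 * n * k / L ^ 2 * 2 := mul_le_mul_of_nonneg_left h5 hc
      _ ≤ 1 / (2 * (k : ℝ)) := by
        rw [div_mul_eq_mul_div, div_le_div_iff₀ (by positivity) (by positivity)]
        nlinarith
  have hmain : ∀ j, j ≤ k → |A j - 1| ≤ j / (2 * (k : ℝ)) := by
    intro j
    induction j using Nat.strong_induction_on with
    | _ j ih =>
      intro hj
      rcases Nat.eq_zero_or_pos j with rfl | hj0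
      · simp [hA, he0]
      · obtain ⟨m, rfl⟩ : ∃ m, j = m + 1 := ⟨j - 1, by omega⟩
        have hA32 : ∀ i, i ≤ m → |A i| ≤ 3 / 2 := by
          intro i hi
          have h1 := ih i (by omega) (by omega)
          have h2 : (i : ℝ) / (2 * (k : ℝ)) ≤ 1 / 2 := by
            rw [div_le_div_iff₀ (by positivity) two_pos]
            have : (i : ℝ) ≤ (k : ℝ) := by exact_mod_cast (by omega : i ≤ k)
            linarith
          have h3 := abs_sub_abs_le_abs_sub (A i) 1
          rw [abs_one] at h3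
          linarith
        have h1 := hstep m hj hA32
        have h2 := ih m (by omega) (by omega)
        calc |A (m + 1) - 1| = |(A (m + 1) - A m) + (A m - 1)| := by congr 1; ring
          _ ≤ |A (m + 1) - A m| + |A m - 1| := abs_add_le _ _
          _ ≤ 1 / (2 * (k : ℝ)) + m / (2 * (k : ℝ)) := add_le_add h1 h2
          _ = ((m + 1 : ℕ) : ℝ) / (2 * (k : ℝ)) := by
              push_cast
              ring
  have hfin := hmain k le_rfl
  have h1 : (k : ℝ) / (2 * (k : ℝ)) = 1 / 2 := by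
    field_simp
  rw [h1] at hfin
  have h2 : 1 / 2 ≤ |A k| := by
    have h3 := abs_sub_abs_le_abs_sub 1 (A k)
    rw [abs_one, abs_sub_comm] at h3
    linarith
  show L ^ k / (2 * (k.factorial : ℝ)) ≤ |e k|
  rw [hAe k]
  have hfk : (0 : ℝ) < (k.factorial : ℝ) := by exact_mod_cast k.factorial_pos
  rw [div_le_div_iff₀ (by positivity) hfk]
  have h4 : 0 < L ^ k := pow_pos hLpos k
  have h5 : 0 < L ^ k * (k.factorial : ℝ) := by positivity
  nlinarith

end Pool.Agent.ARU
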