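import Pool.Agent.ARU.Mom
import Pool.Agent.ARU.New

set_option autoImplicit false

/-!
# ARU module MT1: few large values

For `m ∈ E` put `e m = ∑ S ∈ P.powersetCard k, ∏ p ∈ S, f p m`; by `newton_lower`
`V^k / (2 k!) ≤ |e m|` (note `V^2 ≤ (∑ f)^2`).  With the signs `s m` of `e m` (`a n = s n` for
`n ∈ E`, `0` otherwise):
`|E| V^k / (2 k!) ≤ ∑_{m∈E} s m e m = ∑_S ∑_n a n ∏ f ≤ (#S ∑_S ‖·‖^2)^(1/2)` (Cauchy-Schwarz,
`sq_sum_le_card_mul_sum_sq`), with `#S = choose |P| k ≤ |P|^k / k!` and `moment`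
(`∑ ‖a n‖^2 ≤ |E|`).  Square and divide by `|E|`.
-/

namespace Pool.Agent.ARU

theorem few_large (x N k : ℕ) (hk : 1 ≤ k) (P : Finset ℕ) (hP : ∀ p ∈ P, p.Prime ∧ p ≤ x)
    (f : ℕ → ℕ → ℝ) (hper : ∀ p ∈ P, ∀ n, f p (n + p) = f p n)
    (hmean : ∀ p ∈ P, ∑ j ∈ Finset.range p, f p j = 0)
    (hb : ∀ p ∈ P, ∀ n, |f p n| ≤ 1) (V : ℝ) (hV0 : 0 < V)
    (hV : 8 * (k : ℝ) ^ 2 * P.card ≤ V ^ 2) (E : Finset ℕ) (hE : ∀ m ∈ E, m ≤ N)
    (hbig : ∀ m ∈ E, V ≤ |∑ p ∈ P, f p m|) :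
    (E.card : ℝ) ≤ 4 * (k.factorial : ℝ) * ((x : ℝ) ^ (2 * k) + 4 * Real.pi * (N + 1)) *
      (P.card : ℝ) ^ k / V ^ (2 * k) := by
  classical
  obtain ⟨e, he⟩ : ∃ e : ℕ → ℝ, ∀ m, e m = ∑ S ∈ P.powersetCard k, ∏ p ∈ S, f p m :=
    ⟨_, fun _ => rfl⟩
  have hkf : (0 : ℝ) < (k.factorial : ℝ) := by exact_mod_cast k.factorial_pos
  -- lower bound
  have hlow : ∀ m ∈ E, V ^ k / (2 * (k.factorial : ℝ)) ≤ |e m| := by
    intro m hm
    have h1 : V ^ 2 ≤ (∑ p ∈ P, f p m) ^ 2 := by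
      rw [← sq_abs (∑ p ∈ P, f p m)]
      exact pow_le_pow_left₀ hV0.le (hbig m hm) 2
    have h2 := newton_lower P (fun p => f p m) (fun p hp => hb p hp m) k (hV.trans h1)
    rw [he]
    refine le_trans ?_ h2
    exact div_le_div_of_nonneg_right (pow_le_pow_left₀ hV0.le (hbig m hm) k) (by positivity)
  obtain ⟨s, hs⟩ : ∃ s : ℕ → ℝ, ∀ n, s n = if n ∈ E then (if 0 ≤ e n then 1 else -1) else 0 :=
    ⟨_, fun _ => rfl⟩
  have hsub : E ⊆ Finset.range (N + 1) := fun m hm => Finset.mem_range_succ_iff.2 (hE m hm)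
  have hs2 : ∑ n ∈ Finset.range (N + 1), ‖((s n : ℝ) : ℂ)‖ ^ 2 = (E.card : ℝ) := by
    have h1 : ∀ n ∈ Finset.range (N + 1), ‖((s n : ℝ) : ℂ)‖ ^ 2 = if n ∈ E then (1 : ℝ) else 0 := by
      intro n _
      rw [Complex.norm_real, Real.norm_eq_abs, sq_abs, hs]
      split_ifs <;> norm_num
    rw [Finset.sum_congr rfl h1, Finset.sum_ite_mem, Finset.inter_eq_right.2 hsub]
    simp
  have hsum : ∑ m ∈ E, |e m| = ∑ n ∈ Finset.range (N + 1), s n * e n := by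
    rw [← Finset.sum_subset hsub (f := fun n => s n * e n)]
    · apply Finset.sum_congr rfl
      intro m hm
      rw [hs, if_pos hm]
      split_ifs with h
      · rw [abs_of_nonneg h, one_mul]
      · rw [abs_of_neg (not_le.1 h)]
        ring
    · intro n _ hn
      rw [hs, if_neg hn, zero_mul]
  obtain ⟨T, hT⟩ : ∃ T : Finset ℕ → ℝ, ∀ S, T S =
      ∑ n ∈ Finset.range (N + 1), s n * ∏ p ∈ S, f p n := ⟨_, fun _ => rfl⟩
  have hTsum : ∑ n ∈ Finset.range (N + 1), s n * e n = ∑ S ∈ P.powersetCard k, T S := by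
    simp only [he, hT, Finset.mul_sum]
    rw [Finset.sum_comm]
  have hmom := moment x N k hk P hP f hper hmean hb (fun n => ((s n : ℝ) : ℂ))
  rw [hs2] at hmom
  have hT2 : ∑ S ∈ P.powersetCard k, T S ^ 2 ≤
      ((x : ℝ) ^ (2 * k) + 4 * Real.pi * (N + 1)) * E.card := by
    refine le_trans (le_of_eq ?_) hmom
    apply Finset.sum_congr rfl
    intro S _
    rw [hT, ← sq_abs, ← Real.norm_eq_abs, ← Complex.norm_real]
    push_cast
    rfl
  have hcs : (∑ S ∈ P.powersetCard k, T S) ^ 2 ≤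
      (P.powersetCard k).card * ∑ S ∈ P.powersetCard k, T S ^ 2 := sq_sum_le_card_mul_sum_sq
  have hM0 : 0 ≤ (x : ℝ) ^ (2 * k) + 4 * Real.pi * (N + 1) := by positivity
  have hchoose : ((P.powersetCard k).card : ℝ) ≤ (P.card : ℝ) ^ k / (k.factorial : ℝ) := by
    rw [Finset.card_powersetCard]
    exact Nat.choose_le_pow_div k P.card
  have hlow2 : (E.card : ℝ) * (V ^ k / (2 * (k.factorial : ℝ))) ≤ ∑ S ∈ P.powersetCard k, T S := by
    rw [← hTsum, ← hsum, ← nsmul_eq_mul]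
    exact Finset.card_nsmul_le_sum _ _ _ hlow
  set M := (x : ℝ) ^ (2 * k) + 4 * Real.pi * (N + 1) with hMdef
  have hfin : ((E.card : ℝ) * (V ^ k / (2 * (k.factorial : ℝ)))) ^ 2 ≤
      (P.card : ℝ) ^ k / (k.factorial : ℝ) * (M * E.card) := by
    refine (pow_le_pow_left₀ (by positivity) hlow2 2).trans (hcs.trans ?_)
    exact mul_le_mul hchoose hT2 (Finset.sum_nonneg fun _ _ => sq_nonneg _) (by positivity)
  rcases Nat.eq_zero_or_pos E.card with h0 | hpos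
  · rw [h0]
    simp only [Nat.cast_zero]
    positivity
  have hEpos : (0 : ℝ) < (E.card : ℝ) := by exact_mod_cast hpos
  rw [le_div_iff₀ (by positivity)]
  have e1 : ((E.card : ℝ) * (V ^ k / (2 * (k.factorial : ℝ)))) ^ 2 =
      (E.card : ℝ) * ((E.card : ℝ) * V ^ (2 * k)) / (4 * (k.factorial : ℝ) ^ 2) := by
    rw [mul_comm 2 k, pow_mul]
    field_simp
    ring
  have e2 : (P.card : ℝ) ^ k / (k.factorial : ℝ) * (M * E.card) =
      (E.card : ℝ) * (4 * (k.factorial : ℝ) * M * (P.card : ℝ) ^ k) /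
        (4 * (k.factorial : ℝ) ^ 2) := by
    field_simp
  rw [e1, e2] at hfin
  have h4 : (0 : ℝ) < 4 * (k.factorial : ℝ) ^ 2 := by positivity
  have h5 := (div_le_div_iff_of_pos_right h4).1 hfin
  exact le_of_mul_le_mul_left h5 hEpos

end Pool.Agent.ARU
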