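import Mathlib

set_option autoImplicit false

/-!
# ARU module REP: the number of ordered factorisations

Let `F_r(n)` be the set of `t : Fin r → ℕ` with `∏ t = n`, `n ≥ 1`.
(1) `#F_r(p n) ≤ r #F_r(n)` for a prime `p`: every `t ∈ F_r(p n)` has an `i` with `p ∣ t i`, and
`t` is obtained from an element of `F_r(n)` by multiplying the entry `i` by `p`.  Hence
`#F_r(u s) ≤ r ^ Ω(u) #F_r(s)`.
(2) `#F_r(s) ≤ #divisors(s) ^ r`, and if all prime factors of `s` are `< z`, then
`#divisors(s) = ∏_{p ∣ s} (v_p(s) + 1) ≤ (log₂ s + 1) ^ z`.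
Write `n = u s` with `s` the part of `n` composed of the primes `< z`; all prime factors of `u` are
`≥ z`, so `z ^ Ω(u) ≤ u ≤ n`, `Ω(u) ≤ log n / log z`, i.e. `Ω(u) ≤ Nat.log z n`.
-/

namespace Pool.Agent.ARU

/-- ordered factorisations -/
private def FF (r n : ℕ) : Finset (Fin r → ℕ) :=
  (Fintype.piFinset fun _ : Fin r => n.divisors).filter (fun t => ∏ i, t i = n)

private lemma mem_FF {r n : ℕ} (hn : n ≠ 0) (t : Fin r → ℕ) : t ∈ FF r n ↔ ∏ i, t i = n := by
  unfold FF
  rw [Finset.mem_filter, Fintype.mem_piFinset]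
  constructor
  · exact fun h => h.2
  · intro h
    refine ⟨fun i => ?_, h⟩
    rw [Nat.mem_divisors]
    exact ⟨h ▸ Finset.dvd_prod_of_mem t (Finset.mem_univ i), hn⟩

private lemma FF_zero {r : ℕ} (hr : 1 ≤ r) : (FF r 0).card = 0 := by
  unfold FF
  rw [Finset.card_eq_zero, Finset.filter_eq_empty_iff]
  intro t ht
  rw [Fintype.mem_piFinset] at ht
  have := ht ⟨0, hr⟩
  simp at this

private lemma FF_prime {r p n : ℕ} (hp : p.Prime) (hn : n ≠ 0) :
    (FF r (p * n)).card ≤ r * (FF r n).card := by
  classical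
  have hsub : FF r (p * n) ⊆ Finset.univ.biUnion (fun i : Fin r =>
      (FF r n).image (fun s => Function.update s i (p * s i))) := by
    intro t ht
    rw [mem_FF (mul_ne_zero hp.ne_zero hn)] at ht
    have hdvd : p ∣ ∏ i, t i := by rw [ht]; exact dvd_mul_right p n
    obtain ⟨i, -, hi⟩ := (Prime.dvd_finsetProd_iff hp.prime t).1 hdvd
    rw [Finset.mem_biUnion]
    refine ⟨i, Finset.mem_univ i, ?_⟩
    rw [Finset.mem_image]
    obtain ⟨c, hc⟩ := hi
    refine ⟨Function.update t i c, ?_, ?_⟩
    · rw [mem_FF hn]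
      have h1 : ∏ j, t j = t i * ∏ j ∈ Finset.univ.erase i, t j :=
        (Finset.mul_prod_erase _ _ (Finset.mem_univ i)).symm
      have h2 : ∏ j, Function.update t i c j = c * ∏ j ∈ Finset.univ.erase i, t j := by
        rw [← Finset.mul_prod_erase _ _ (Finset.mem_univ i), Function.update_self]
        congr 1
        refine Finset.prod_congr rfl (fun j hj => ?_)
        rw [Function.update_of_ne (Finset.ne_of_mem_erase hj)]
      rw [h2]
      rw [h1, hc, mul_assoc] at ht
      exact Nat.eq_of_mul_eq_mul_left hp.pos ht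
    · funext j
      by_cases hj : j = i
      · subst hj
        simp [hc]
      · simp [Function.update_of_ne hj]
  calc (FF r (p * n)).card ≤ _ := Finset.card_le_card hsub
    _ ≤ ∑ i : Fin r, ((FF r n).image (fun s => Function.update s i (p * s i))).card :=
        Finset.card_biUnion_le
    _ ≤ ∑ _i : Fin r, (FF r n).card := Finset.sum_le_sum (fun i _ => Finset.card_image_le)
    _ = r * (FF r n).card := by simp

private lemma FF_mul {r : ℕ} (hr : 1 ≤ r) (u : ℕ) : ∀ s : ℕ, s ≠ 0 →
    (FF r (u * s)).card ≤ r ^ (u.primeFactorsList.length) * (FF r s).card := by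
  induction u using Nat.recOnMul with
  | zero =>
    intro s _
    rw [zero_mul, FF_zero hr]
    exact Nat.zero_le _
  | one =>
    intro s _
    simp
  | prime p hp =>
    intro s hs
    rw [Nat.primeFactorsList_prime hp]
    simpa using FF_prime hp hs
  | mul a b iha ihb =>
    intro s hs
    rcases eq_or_ne a 0 with rfl | ha
    · rw [zero_mul, zero_mul, FF_zero hr]
      exact Nat.zero_le _
    rcases eq_or_ne b 0 with rfl | hb
    · rw [mul_zero, zero_mul, FF_zero hr]
      exact Nat.zero_le _
    have h1 := (Nat.perm_primeFactorsList_mul ha hb).length_eq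
    rw [List.length_append] at h1
    rw [h1, mul_assoc, pow_add]
    calc (FF r (a * (b * s))).card
        ≤ r ^ a.primeFactorsList.length * (FF r (b * s)).card := iha _ (mul_ne_zero hb hs)
      _ ≤ r ^ a.primeFactorsList.length * (r ^ b.primeFactorsList.length * (FF r s).card) :=
          Nat.mul_le_mul_left _ (ihb s hs)
      _ = _ := by ring

private lemma FF_le (r s : ℕ) : (FF r s).card ≤ s.divisors.card ^ r := by
  unfold FF
  refine (Finset.card_filter_le _ _).trans ?_
  rw [Fintype.card_piFinset]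
  simp

private lemma card_div_le {s z : ℕ} (hs : s ≠ 0) (h : ∀ p ∈ s.primeFactors, p < z) :
    s.divisors.card ≤ (Nat.log 2 s + 1) ^ z := by
  rw [Nat.card_divisors hs]
  calc ∏ x ∈ s.primeFactors, (s.factorization x + 1)
      ≤ ∏ _x ∈ s.primeFactors, (Nat.log 2 s + 1) := by
        refine Finset.prod_le_prod' (fun p hp => ?_)
        have hpp := Nat.prime_of_mem_primeFactors hp
        have h1 : p ^ s.factorization p ≤ s := Nat.ordProj_le p hs
        have h2 : 2 ^ s.factorization p ≤ s :=
          (Nat.pow_le_pow_left hpp.two_le _).trans h1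
        have h3 := Nat.le_log_of_pow_le (by norm_num) h2
        omega
    _ = (Nat.log 2 s + 1) ^ s.primeFactors.card := by rw [Finset.prod_const]
    _ ≤ (Nat.log 2 s + 1) ^ z := by
        refine Nat.pow_le_pow_right (by omega) ?_
        calc s.primeFactors.card ≤ (Finset.range z).card :=
              Finset.card_le_card (fun p hp => Finset.mem_range.2 (h p hp))
          _ = z := Finset.card_range z

theorem card_rep (r z n : ℕ) (hr : 1 ≤ r) (hz : 2 ≤ z) (hn : 1 ≤ n) (E : Finset ℕ)
    (hE : ∀ m ∈ E, 1 ≤ m) :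
    ((Fintype.piFinset fun _ : Fin r => E).filter (fun t => ∏ i, t i = n)).card ≤
      r ^ (Nat.log z n) * ((Nat.log 2 n + 1) ^ z) ^ r := by
  have hn0 : n ≠ 0 := by omega
  have h1 : ((Fintype.piFinset fun _ : Fin r => E).filter (fun t => ∏ i, t i = n)) ⊆ FF r n := by
    intro t ht
    rw [mem_FF hn0]
    exact (Finset.mem_filter.1 ht).2
  refine (Finset.card_le_card h1).trans ?_
  set M : Multiset ℕ := (n.primeFactorsList : Multiset ℕ) with hM
  set s : ℕ := (M.filter (fun p => p < z)).prod with hs
  set u : ℕ := (M.filter (fun p => ¬ p < z)).prod with hu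
  have hMp : ∀ p ∈ M, p.Prime := by
    intro p hp
    rw [hM, Multiset.mem_coe] at hp
    exact Nat.prime_of_mem_primeFactorsList hp
  have hus : u * s = n := by
    rw [hu, hs, mul_comm, ← Multiset.prod_add, Multiset.filter_add_not, hM, Multiset.prod_coe]
    exact Nat.prod_primeFactorsList hn0
  have hs0 : s ≠ 0 := by
    rintro h0
    rw [h0, mul_zero] at hus
    omega
  have hu0 : u ≠ 0 := by
    rintro h0
    rw [h0, zero_mul] at hus
    omega
  have hpfs : ∀ p ∈ s.primeFactors, p < z := by
    intro p hp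
    have hpp := Nat.prime_of_mem_primeFactors hp
    have hd : p ∣ (M.filter (fun p => p < z)).prod := Nat.dvd_of_mem_primeFactors hp
    obtain ⟨q, hq, hpq⟩ := Prime.exists_mem_multiset_dvd hpp.prime hd
    rw [Multiset.mem_filter] at hq
    have := (Nat.prime_dvd_prime_iff_eq hpp (hMp q hq.1)).1 hpq
    rw [this]
    exact hq.2
  have hpfu : ∀ p ∈ u.primeFactorsList, z ≤ p := by
    intro p hp
    have hpp := Nat.prime_of_mem_primeFactorsList hp
    have hd : p ∣ (M.filter (fun p => ¬ p < z)).prod := Nat.dvd_of_mem_primeFactorsList hp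
    obtain ⟨q, hq, hpq⟩ := Prime.exists_mem_multiset_dvd hpp.prime hd
    rw [Multiset.mem_filter] at hq
    have := (Nat.prime_dvd_prime_iff_eq hpp (hMp q hq.1)).1 hpq
    rw [this]
    exact not_lt.1 hq.2
  have hlen : u.primeFactorsList.length ≤ Nat.log z n := by
    apply Nat.le_log_of_pow_le (by omega)
    have h2 : z ^ u.primeFactorsList.length ≤ u.primeFactorsList.prod :=
      List.pow_card_le_prod u.primeFactorsList z hpfu
    rw [Nat.prod_primeFactorsList hu0] at h2
    calc z ^ u.primeFactorsList.length ≤ u := h2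
      _ ≤ u * s := Nat.le_mul_of_pos_right _ (Nat.pos_of_ne_zero hs0)
      _ = n := hus
  have hsn : s ≤ n := by
    calc s ≤ u * s := Nat.le_mul_of_pos_left _ (Nat.pos_of_ne_zero hu0)
      _ = n := hus
  rw [← hus]
  refine (FF_mul hr u s hs0).trans ?_
  rw [hus]
  refine Nat.mul_le_mul (Nat.pow_le_pow_right hr hlen) ?_
  refine (FF_le r s).trans (Nat.pow_le_pow_left ?_ r)
  refine (card_div_le hs0 hpfs).trans (Nat.pow_le_pow_left ?_ z)
  have := Nat.log_mono_right (b := 2) hsn
  omega

end Pool.Agent.ARU
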