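import Pool.Agent.ARU.Mt2
import Pool.Agent.ARU.Mea

set_option autoImplicit false

/-!
# ARU module RG2: regime II at one scale

`regime_two` with `P = oddPrimes x`, `f = ff a`, `ε/2` in the place of `ε`; `main_error` and
`2 + log x ≤ (ε/2) π(x)` for `x ≥ X₀`.
-/

namespace Pool.Agent.ARU

open Filter Topology Pool.Agent.Helper8.ArtinLS Pool.Agent.Helper8.ArtinC Pool.Agent.Helper6

lemma log_le_pi (ε : ℝ) (hε : 0 < ε) :
    ∀ᶠ x : ℕ in atTop, 2 + Real.log x ≤ ε * Nat.primeCounting x := by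
  obtain ⟨X₁, hX3, hX₁⟩ := pi_lower
  have h1 : Tendsto (fun y : ℝ => Real.exp y / y ^ 2) atTop atTop :=
    Real.tendsto_exp_div_pow_atTop 2
  have hlog : Tendsto (fun x : ℕ => Real.log (x : ℝ)) atTop atTop :=
    Real.tendsto_log_atTop.comp tendsto_natCast_atTop_atTop
  have h2 := (h1.comp hlog).eventually_ge_atTop (6 / ε)
  filter_upwards [h2, hlog.eventually_ge_atTop 1, eventually_ge_atTop X₁] with x h3 h4 h5
  simp only [Function.comp_apply] at h3
  have hx0 : (0 : ℝ) < x := by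
    have : 3 ≤ x := hX3.trans h5
    exact_mod_cast (by omega : 0 < x)
  rw [Real.exp_log hx0] at h3
  have h6 := hX₁ x h5
  have hl0 : 0 < Real.log x := by linarith
  have h7 : 6 * (Real.log x) ^ 2 ≤ ε * x := by
    rw [div_le_div_iff₀ hε (by positivity)] at h3
    linarith
  have h8 : 3 * Real.log x ≤ ε * ((x : ℝ) / (2 * Real.log x)) := by
    rw [mul_div_assoc', le_div_iff₀ (by positivity)]
    nlinarith
  calc 2 + Real.log x ≤ 3 * Real.log x := by linarith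
    _ ≤ ε * ((x : ℝ) / (2 * Real.log x)) := h8
    _ ≤ ε * Nat.primeCounting x := by gcongr

theorem scale_two (δ ε : ℝ) (hδ : 0 < δ) (hδ1 : δ ≤ 1) (hε : 0 < ε) :
    ∃ κ : ℝ, 0 < κ ∧ ∃ X₀ : ℕ, 2 ≤ X₀ ∧ ∀ x N : ℕ, X₀ ≤ x → (x : ℝ) ≤ (N : ℝ) ^ (δ / 8) →
      ∀ a : ℤ, (a = 1 ∨ a = -1) → ∀ E : Finset ℕ, (∀ m ∈ E, m ≤ N) →
      (∀ m ∈ E, ε * Nat.primeCounting x < |artinP (a * (m : ℤ)) x - artinEC x|) →
      (E.card : ℝ) ≤ N * Real.exp (-((x : ℝ) ^ κ)) + (N : ℝ) ^ (1 / 2 + δ) := by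
  obtain ⟨κ, hκ, X₀, hX₀, h⟩ := regime_two δ (ε / 2) hδ hδ1 (by positivity)
  obtain ⟨X₁, hX₁⟩ := eventually_atTop.mp (log_le_pi (ε / 2) (by positivity))
  refine ⟨κ, hκ, max X₀ X₁, hX₀.trans (le_max_left _ _), ?_⟩
  intro x N hx hxN a ha E hE hbad
  refine h x N ((le_max_left _ _).trans hx) hxN (oddPrimes x) ?_ (ff a) ?_ ?_ ?_ E hE ?_
  · intro p hp
    rw [mem_oddPrimes] at hp
    exact ⟨hp.2.1, hp.1⟩
  · intro p _ n
    exact ff_periodic a p n
  · intro p hp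
    rw [mem_oddPrimes] at hp
    exact ff_sum a hp.2.1.pos
  · intro p _ n
    exact abs_ff_le a p n
  · intro m hm
    have h1 := hbad m hm
    have h2 := hX₁ x ((le_max_right _ _).trans hx)
    have h3 := main_error a ha m x (by
      have : X₀ ≤ x := (le_max_left _ _).trans hx
      omega)
    have h4 : |artinP (a * (m : ℤ)) x - artinEC x| ≤
        |artinP (a * (m : ℤ)) x - artinEC x - ∑ p ∈ oddPrimes x, ff a p m| +
          |∑ p ∈ oddPrimes x, ff a p m| := by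
      have := abs_add_le (artinP (a * (m : ℤ)) x - artinEC x - ∑ p ∈ oddPrimes x, ff a p m)
        (∑ p ∈ oddPrimes x, ff a p m)
      simpa using this
    linarith

end Pool.Agent.ARU
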